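import Pool.Agent.H4.FC.TopL
import Pool.Agent.H4.FC.Defs

/-!
# Labelled flag complexes: full subcomplexes

`sub M Y` is the Coxeter matrix of the standard parabolic subgroup `W_Y`; `VanS M Y i`: the subcomplex of
the Davis complex of `M` which consists of the cells `w W_σ`, `σ ⊆ Y` (the union of the translates of the
Davis complex of `W_Y`) has zero reduced `ℓ²`-homology in degree `i`.
-/

set_option autoImplicit false

open Finset

namespace Pool.Agent.H73.LK

open Pool.Agent.H4.FC

variable {V : Type}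

/-- the submatrix of the vertices in `Y` -/
def sub (M : CoxeterMatrix V) (Y : Finset V) : CoxeterMatrix {v // v ∈ Y} where
  M := Matrix.of fun u v => M u.1 v.1
  isSymm := by
    ext u v
    simp only [Matrix.transpose_apply, Matrix.of_apply]
    exact M.symmetric _ _
  diagonal := by
    intro v
    simp only [Matrix.of_apply]
    exact M.diagonal _
  off_diagonal := by
    intro u v huv
    simp only [Matrix.of_apply]
    exact M.off_diagonal _ _ fun h => huv (Subtype.ext h)

theorem sub_apply (M : CoxeterMatrix V) (Y : Finset V) (u v : {v // v ∈ Y}) :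
    sub M Y u v = M u.1 v.1 := rfl

variable [Fintype V] [DecidableEq V]

/-- The subcomplex of the cells of type `σ ⊆ Y` has zero reduced `ℓ²`-homology in degree `i`. -/
def VanS (M : CoxeterMatrix V) (Y : Finset V) (i : ℕ) : Prop :=
  ∀ ν : V → ℕ, Function.Injective ν → ∀ z : Finset V → M.Group → ℂ, IsL2Chain M i z →
    (∀ σ, z σ ≠ 0 → σ ⊆ Y) → dbd ν z = 0 → ∀ ε : ℝ, 0 < ε →
      ∃ y : Finset V → M.Group → ℂ, IsL2Chain M (i + 1) y ∧ (∀ σ, y σ ≠ 0 → σ ⊆ Y) ∧
        ∑ σ, ∑' w, ‖z σ w - dbd ν y σ w‖ ^ 2 < ε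

theorem vanS_univ {M : CoxeterMatrix V} {i : ℕ} : VanS M univ i ↔ L2HomologyZero M i := by
  constructor
  · intro h ν hν z hz hd ε hε
    obtain ⟨y, h1, _, h3⟩ := h ν hν z hz (fun σ _ => subset_univ σ) hd ε hε
    exact ⟨y, h1, h3⟩
  · intro h ν hν z hz _ hd ε hε
    obtain ⟨y, h1, h3⟩ := h ν hν z hz hd ε hε
    exact ⟨y, h1, fun σ _ => subset_univ σ, h3⟩

end Pool.Agent.H73.LK
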