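import Pool.Agent.H4.FC.SphIff
import Pool.Agent.H4.FD.Defs
import Pool.Agent.H4.Singer.TopDefs
import Pool.Agent.H73.LK.Defs

/-!
# Right-angled Coxeter groups as Coxeter groups
-/

set_option autoImplicit false
set_option linter.unusedSectionVars false

open Finset

namespace Pool.Agent.H73.LK

open Pool.Agent.H4.Singer Pool.Agent.H85.Fold

variable {V : Type}

theorem racg_apply (G : SimpleGraph V) (u v : V) [Decidable (u = v)] [Decidable (G.Adj u v)] :
    racg G u v = if u = v then 1 else if G.Adj u v then 2 else 0 := by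
  show (Matrix.of fun u v => _) u v = _
  simp only [Matrix.of_apply]
  congr

theorem gr_racg (G : SimpleGraph V) : Pool.Agent.H4.FC.gr (racg G) = G := by
  classical
  ext u v
  show (u ≠ v ∧ racg G u v ≠ 0) ↔ _
  rw [racg_apply]
  constructor
  · rintro ⟨h1, h2⟩
    rw [if_neg h1] at h2
    by_contra h3
    rw [if_neg h3] at h2
    exact h2 rfl
  · intro h
    refine ⟨h.ne, ?_⟩
    rw [if_neg h.ne, if_pos h]
    norm_num

variable [Fintype V] [DecidableEq V]

theorem isDih_racg (G : SimpleGraph V) : Pool.Agent.H4.FC.IsDih (racg G) := by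
  classical
  intro u v w huv _ _
  left
  rw [racg_apply, if_neg huv.1, if_pos]
  rw [gr_racg] at huv
  exact huv

theorem sph_racg (G : SimpleGraph V) (σ : Finset V) :
    Pool.Agent.H4.FC.Sph (racg G) σ ↔ G.IsClique (σ : Set V) := by
  rw [Pool.Agent.H4.FC.sph_iff (racg G) (isDih_racg G), gr_racg]
  exact ⟨fun h _ ha _ hb => h _ (Finset.mem_coe.1 ha) _ (Finset.mem_coe.1 hb),
    fun h _ ha _ hb => h (Finset.mem_coe.2 ha) (Finset.mem_coe.2 hb)⟩

theorem isFC_racg (G : SimpleGraph V) : Pool.Agent.H4.FD.IsFC (racg G) := by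
  intro σ hσ
  rw [gr_racg] at hσ
  exact (sph_racg G σ).2 fun _ ha _ hb => hσ _ (Finset.mem_coe.1 ha) _ (Finset.mem_coe.1 hb)

theorem chain_iff (G : SimpleGraph V) (i : ℕ) (f : Finset V → RGrp G → ℂ) :
    Pool.Agent.H4.FC.IsL2Chain (racg G) i f ↔ IsL2Chain G i f := by
  constructor
  · intro h
    exact ⟨fun σ w hw => ⟨(sph_racg G σ).1 (h.supp σ w hw).1, (h.supp σ w hw).2⟩, h.anti, h.l2⟩
  · intro h
    exact ⟨fun σ w hw => ⟨(sph_racg G σ).2 (h.supp σ w hw).1, (h.supp σ w hw).2⟩, h.anti, h.l2⟩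

/-- **The two complexes of a right-angled Coxeter group agree.** -/
theorem l2_racg (G : SimpleGraph V) (i : ℕ) :
    Pool.Agent.H4.FC.L2HomologyZero (racg G) i ↔ L2HomologyZero G i := by
  constructor
  · intro h ν hν z hz hd ε hε
    obtain ⟨y, hy, hy2⟩ := h ν hν z ((chain_iff G i z).2 hz) hd ε hε
    exact ⟨y, (chain_iff G (i + 1) y).1 hy, hy2⟩
  · intro h ν hν z hz hd ε hε
    obtain ⟨y, hy, hy2⟩ := h ν hν z ((chain_iff G i z).1 hz) hd ε hε
    exact ⟨y, (chain_iff G (i + 1) y).2 hy, hy2⟩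

end Pool.Agent.H73.LK
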