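import Pool.Agent.H73.LK.Defs
import Pool.Agent.H4.FC.TitsPos
import Pool.Agent.H4.FC.Par

/-!
# Induction and restriction between `W_Y` and `W`

`Pool.Agent.H73.LK.sub M Y` is the Coxeter matrix of the standard parabolic subgroup `W_Y`; the homomorphism
`(sub M Y).Group →* M.Group`, `s_v ↦ s_v`, is injective (geometric representation),
with image `par M Y`; `IsSph (sub M Y) σ ↔ Sph M (σ.map val)`.

`vanS_of_sub`: a cycle `z` of types in `Y` is the orthogonal sum of its restrictions to the cosets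
`c W_Y` (translates of a cycle of `W_Y`); all but finitely many cosets carry norm `< ε / 2`, approximate the
others.
`sub_of_vanS`: extend a cycle of `W_Y` by zero to `W`, approximate, restrict the chain to `W_Y`.
The numbering `ν` of `{v // v ∈ Y}` is the restriction of one of `V` (for `vanS_of_sub`), or is extended to an
injective numbering of `V` (for `sub_of_vanS`).
-/

set_option autoImplicit false
set_option linter.unusedSectionVars false

open Finset

namespace Pool.Agent.H73.LK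

open Pool.Agent.H4.FC

variable {V : Type}

/-- the homomorphism `W_Y → W` -/
noncomputable def ind_hom (M : CoxeterMatrix V) (Y : Finset V) : (sub M Y).Group →* M.Group :=
  (sub M Y).toCoxeterSystem.lift ⟨fun v => M.simple v.1, fun u v => by
    have h := M.toCoxeterSystem.simple_mul_simple_pow u.1 v.1
    rw [M.toCoxeterSystem_simple] at h
    rw [sub_apply]
    exact h⟩

theorem ind_hom_simple (M : CoxeterMatrix V) (Y : Finset V) (v : {v // v ∈ Y}) :
    ind_hom M Y ((sub M Y).simple v) = M.simple v.1 := by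
  have h := (sub M Y).toCoxeterSystem.lift_apply_simple (f := fun v : {v // v ∈ Y} => M.simple v.1) (fun u v => by
    have h := M.toCoxeterSystem.simple_mul_simple_pow u.1 v.1
    rw [M.toCoxeterSystem_simple] at h
    rw [sub_apply]
    exact h) v
  rw [(sub M Y).toCoxeterSystem_simple] at h
  exact h

variable [Fintype V] [DecidableEq V]

/-- extension by zero -/
private noncomputable def ind_ext (Y : Finset V) (x : {v // v ∈ Y} → ℝ) (v : V) : ℝ :=
  if h : v ∈ Y then x ⟨v, h⟩ else 0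

private theorem ind_ext_sub (Y : Finset V) (x y : {v // v ∈ Y} → ℝ) (r : ℝ) :
    ind_ext Y (x - r • y) = ind_ext Y x - r • ind_ext Y y := by
  funext v
  unfold ind_ext
  by_cases h : v ∈ Y
  · simp [h]
  · simp [h]

private theorem ind_ext_single (Y : Finset V) (v : {v // v ∈ Y}) :
    ind_ext Y (Pi.single v 1) = Pi.single v.1 1 := by
  funext u
  unfold ind_ext
  by_cases h : u ∈ Y
  · rw [dif_pos h]
    by_cases h1 : u = v.1
    · subst h1
      rw [Pi.single_eq_same, Pi.single_eq_same]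
    · rw [Pi.single_eq_of_ne h1, Pi.single_eq_of_ne]
      exact fun h2 => h1 (congrArg Subtype.val h2)
  · rw [dif_neg h, Pi.single_eq_of_ne]
    exact fun h1 => h (h1 ▸ v.2)

private theorem ind_tits (M : CoxeterMatrix V) (Y : Finset V) (w : (sub M Y).Group)
    (x : {v // v ∈ Y} → ℝ) :
    (titsHom M (ind_hom M Y w)).mulVec (ind_ext Y x) = ind_ext Y ((titsHom (sub M Y) w).mulVec x) := by
  induction w using (sub M Y).toCoxeterSystem.simple_induction_left generalizing x with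
  | one => rw [map_one, map_one, map_one, Matrix.one_mulVec, Matrix.one_mulVec]
  | mul_simple_left w i ih =>
    have e1 : (sub M Y).toCoxeterSystem.simple i = (sub M Y).simple i := by
      rw [(sub M Y).toCoxeterSystem_simple]
    rw [e1, map_mul, map_mul, map_mul, ind_hom_simple, ← Matrix.mulVec_mulVec, ← Matrix.mulVec_mulVec, ih]
    have e2 : titsHom M (M.simple i.1) = refl (kR M) i.1 := titsHom_simple M i.1
    have e3 : titsHom (sub M Y) ((sub M Y).simple i) = refl (kR (sub M Y)) i := titsHom_simple _ i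
    rw [e2, e3, refl_mulVec, refl_mulVec, ind_ext_sub, ind_ext_single]
    congr 2
    have h1 : ∀ u ∉ Y, kR M i.1 u * ind_ext Y ((titsHom (sub M Y) w).mulVec x) u = 0 := by
      intro u hu
      unfold ind_ext
      rw [dif_neg hu, mul_zero]
    rw [← Finset.sum_subset (Finset.subset_univ Y) fun u _ hu => h1 u hu, ← Finset.sum_coe_sort]
    refine Finset.sum_congr rfl fun u _ => ?_
    have h2 : ind_ext Y ((titsHom (sub M Y) w).mulVec x) u.1 = (titsHom (sub M Y) w).mulVec x u := by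
      unfold ind_ext
      rw [dif_pos u.2]
    rw [h2]
    rfl

theorem ind_hom_injective (M : CoxeterMatrix V) (Y : Finset V) : Function.Injective (ind_hom M Y) := by
  rw [injective_iff_map_eq_one]
  intro w hw
  apply tits_injective (sub M Y)
  rw [map_one]
  ext i j
  have h := congrFun (ind_tits M Y w (Pi.single j 1)) i.1
  rw [hw, map_one, Matrix.one_mulVec] at h
  unfold ind_ext at h
  rw [dif_pos i.2, dif_pos i.2, Matrix.mulVec_single_one] at h
  rw [Matrix.one_apply]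
  change _ = titsHom (sub M Y) w i j at h
  rw [← h]
  by_cases h1 : i = j
  · subst h1
    simp
  · rw [if_neg h1]
    exact Pi.single_eq_of_ne h1 _

/-- the embedding of the vertices -/
def ind_emb (Y : Finset V) : {v // v ∈ Y} ↪ V := ⟨Subtype.val, Subtype.val_injective⟩

private theorem ind_mem {Y : Finset V} {τ : Finset {v // v ∈ Y}} {v : V} :
    v ∈ τ.map (ind_emb Y) ↔ ∃ h : v ∈ Y, (⟨v, h⟩ : {v // v ∈ Y}) ∈ τ := by
  rw [mem_map]
  constructor
  · rintro ⟨w, hw, rfl⟩
    exact ⟨w.2, hw⟩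
  · rintro ⟨h, hτ⟩
    exact ⟨⟨v, h⟩, hτ, rfl⟩

private theorem ind_sub {Y : Finset V} (τ : Finset {v // v ∈ Y}) : τ.map (ind_emb Y) ⊆ Y :=
  fun _ hv => (ind_mem.1 hv).1

/-- the preimage -/
private def ind_pr (Y σ : Finset V) : Finset {v // v ∈ Y} := univ.filter fun w => w.1 ∈ σ

private theorem ind_mem_pr {Y σ : Finset V} {w : {v // v ∈ Y}} : w ∈ ind_pr Y σ ↔ w.1 ∈ σ := by
  unfold ind_pr
  rw [mem_filter]
  exact ⟨fun h => h.2, fun h => ⟨mem_univ _, h⟩⟩

private theorem ind_map_pr {Y σ : Finset V} (h : σ ⊆ Y) : (ind_pr Y σ).map (ind_emb Y) = σ := by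
  ext v
  rw [ind_mem]
  exact ⟨fun ⟨_, h2⟩ => ind_mem_pr.1 h2, fun h2 => ⟨h h2, ind_mem_pr.2 h2⟩⟩

private theorem ind_pr_map {Y : Finset V} (τ : Finset {v // v ∈ Y}) : ind_pr Y (τ.map (ind_emb Y)) = τ := by
  ext w
  rw [ind_mem_pr, ind_mem]
  exact ⟨fun ⟨_, h2⟩ => h2, fun h => ⟨w.2, h⟩⟩

/-- the image of the parabolic subgroups -/
private theorem ind_par (M : CoxeterMatrix V) (Y : Finset V) (σ : Finset {v // v ∈ Y}) :
    (par (sub M Y) σ).map (ind_hom M Y) = par M (σ.map (ind_emb Y)) := by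
  unfold par
  rw [MonoidHom.map_closure]
  congr 1
  ext w
  constructor
  · rintro ⟨u, ⟨v, hv, rfl⟩, rfl⟩
    exact ⟨v.1, mem_map.2 ⟨v, hv, rfl⟩, ind_hom_simple M Y v⟩
  · rintro ⟨v, hv, rfl⟩
    obtain ⟨u, hu, rfl⟩ := mem_map.1 hv
    exact ⟨(sub M Y).simple u, ⟨u, hu, rfl⟩, ind_hom_simple M Y u⟩

private theorem ind_sph {M : CoxeterMatrix V} {Y : Finset V} {σ : Finset {v // v ∈ Y}} :
    Sph (sub M Y) σ ↔ Sph M (σ.map (ind_emb Y)) := by
  unfold Sph
  rw [← ind_par]
  exact ((par (sub M Y) σ).equivMapOfInjective _ (ind_hom_injective M Y)).toEquiv.finite_iff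

/-- the whole vertex set of the submatrix -/
theorem sph_sub {M : CoxeterMatrix V} {Y : Finset V} (h : Sph M Y) :
    Sph (sub M Y) (univ : Finset {v // v ∈ Y}) := by
  rw [ind_sph]
  convert h
  ext v
  rw [ind_mem]
  exact ⟨fun ⟨h, _⟩ => h, fun h => ⟨h, mem_univ _⟩⟩

/-! ### pulling back -/

variable {M : CoxeterMatrix V} {Y : Finset V}

/-- the restriction of a chain to the coset of `g` -/
private noncomputable def ind_pull (M : CoxeterMatrix V) (Y : Finset V) (f : Finset V → M.Group → ℂ) (g : M.Group) :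
    Finset {v // v ∈ Y} → (sub M Y).Group → ℂ :=
  fun σ u => f (σ.map (ind_emb Y)) (g * ind_hom M Y u)

private theorem ind_dbd (ν : V → ℕ) (f : Finset V → M.Group → ℂ) (hf : ∀ σ, f σ ≠ 0 → σ ⊆ Y) (g : M.Group)
    (σ : Finset {v // v ∈ Y}) (u : (sub M Y).Group) :
    dbd (fun v : {v // v ∈ Y} => ν v.1) (ind_pull M Y f g) σ u =
      dbd ν f (σ.map (ind_emb Y)) (g * ind_hom M Y u) := by
  unfold dbd
  have h1 : σᶜ.map (ind_emb Y) ⊆ (σ.map (ind_emb Y))ᶜ := by
    intro v hv
    rw [Finset.mem_map] at hv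
    obtain ⟨w, hw, rfl⟩ := hv
    rw [Finset.mem_compl] at hw ⊢
    intro h
    exact hw ((Finset.mem_map' _).1 h)
  rw [← Finset.sum_subset h1, Finset.sum_map]
  · refine Finset.sum_congr rfl fun v _ => ?_
    unfold ind_pull
    rw [Finset.map_insert]
    congr 2
    rw [Finset.filter_map, Finset.card_map]
    rfl
  · intro v hv hv'
    by_contra hne
    have h2 : f (insert v (σ.map (ind_emb Y))) ≠ 0 := by
      intro h0
      exact hne (by rw [h0, Pi.zero_apply, mul_zero])
    have h3 : v ∈ Y := hf _ h2 (mem_insert_self _ _)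
    apply hv'
    rw [Finset.mem_map]
    refine ⟨⟨v, h3⟩, ?_, rfl⟩
    rw [mem_compl]
    intro h4
    exact (mem_compl.1 hv) (ind_mem.2 ⟨h3, h4⟩)

private theorem ind_inj (M : CoxeterMatrix V) (Y : Finset V) (g : M.Group) :
    Function.Injective fun u => g * ind_hom M Y u :=
  fun _ _ h => ind_hom_injective M Y (mul_left_cancel h)

private theorem ind_pull_chain {i : ℕ} {f : Finset V → M.Group → ℂ} (hf : IsL2Chain M i f) (g : M.Group) :
    IsL2Chain (sub M Y) i (ind_pull M Y f g) := by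
  refine ⟨fun σ u h => ?_, fun σ v hv u => ?_, fun σ => ?_⟩
  · obtain ⟨h1, h2⟩ := hf.supp _ _ h
    rw [card_map] at h2
    exact ⟨ind_sph.2 h1, h2⟩
  · unfold ind_pull
    rw [map_mul, ind_hom_simple, ← mul_assoc]
    exact hf.anti _ v.1 (mem_map.2 ⟨v, hv, rfl⟩) _
  · exact (hf.l2 (σ.map (ind_emb Y))).comp_injective (ind_inj M Y g)

/-! ### the cosets -/

/-- the cosets of `W_Y` -/
private abbrev IQ (M : CoxeterMatrix V) (Y : Finset V) : Type := M.Group ⧸ (ind_hom M Y).range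

private theorem ind_ex (w : M.Group) : ∃ u, (QuotientGroup.mk w : IQ M Y).out * ind_hom M Y u = w := by
  have h1 : (QuotientGroup.mk (QuotientGroup.mk w : IQ M Y).out : IQ M Y) = QuotientGroup.mk w :=
    Quotient.out_eq' _
  rw [QuotientGroup.eq] at h1
  obtain ⟨u, hu⟩ := h1
  exact ⟨u, by rw [hu, mul_inv_cancel_left]⟩

/-- the component in `W_Y` -/
private noncomputable def ind_u (M : CoxeterMatrix V) (Y : Finset V) (w : M.Group) : (sub M Y).Group :=
  (ind_ex (Y := Y) w).choose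

private theorem ind_u_spec (w : M.Group) :
    (QuotientGroup.mk w : IQ M Y).out * ind_hom M Y (ind_u M Y w) = w := (ind_ex (Y := Y) w).choose_spec

private theorem ind_mk (q : IQ M Y) (u : (sub M Y).Group) :
    (QuotientGroup.mk (q.out * ind_hom M Y u) : IQ M Y) = q := by
  have h1 : (QuotientGroup.mk q.out : IQ M Y) = q := Quotient.out_eq' q
  conv_rhs => rw [← h1]
  rw [eq_comm, QuotientGroup.eq]
  exact ⟨u, by group⟩

private theorem ind_u_mk (q : IQ M Y) (u : (sub M Y).Group) : ind_u M Y (q.out * ind_hom M Y u) = u := by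
  have h1 := ind_u_spec (M := M) (Y := Y) (q.out * ind_hom M Y u)
  rw [ind_mk] at h1
  exact ind_hom_injective M Y (mul_left_cancel h1)

/-- the decomposition into cosets -/
private noncomputable def ind_e (M : CoxeterMatrix V) (Y : Finset V) : IQ M Y × (sub M Y).Group ≃ M.Group where
  toFun p := p.1.out * ind_hom M Y p.2
  invFun w := (QuotientGroup.mk w, ind_u M Y w)
  left_inv p := Prod.ext (ind_mk p.1 p.2) (ind_u_mk p.1 p.2)
  right_inv w := ind_u_spec w

private theorem ind_step (w : M.Group) (v : {v // v ∈ Y}) :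
    (QuotientGroup.mk (w * M.simple v.1) : IQ M Y) = QuotientGroup.mk w ∧
      ind_u M Y (w * M.simple v.1) = ind_u M Y w * (sub M Y).simple v := by
  have h1 : w * M.simple v.1 = (QuotientGroup.mk w : IQ M Y).out *
      ind_hom M Y (ind_u M Y w * (sub M Y).simple v) := by
    rw [map_mul, ind_hom_simple, ← mul_assoc, ind_u_spec]
  constructor
  · conv_lhs => rw [h1]
    exact ind_mk _ _
  · conv_lhs => rw [h1]
    exact ind_u_mk _ _

open Classical in
/-- the chain with given restrictions to the cosets -/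
private noncomputable def ind_glue (M : CoxeterMatrix V) (Y : Finset V)
    (y : IQ M Y → Finset {v // v ∈ Y} → (sub M Y).Group → ℂ) : Finset V → M.Group → ℂ :=
  fun σ w => if σ ⊆ Y then y (QuotientGroup.mk w) (ind_pr Y σ) (ind_u M Y w) else 0

private theorem ind_glue_types (y : IQ M Y → Finset {v // v ∈ Y} → (sub M Y).Group → ℂ) (σ : Finset V)
    (h : ind_glue M Y y σ ≠ 0) : σ ⊆ Y := by
  by_contra h1
  apply h
  funext w
  exact if_neg h1

private theorem ind_pull_glue (y : IQ M Y → Finset {v // v ∈ Y} → (sub M Y).Group → ℂ) (q : IQ M Y) :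
    ind_pull M Y (ind_glue M Y y) q.out = y q := by
  funext σ u
  unfold ind_pull ind_glue
  rw [if_pos (ind_sub σ), ind_mk, ind_u_mk, ind_pr_map]

private theorem ind_glue_chain {i : ℕ} {y : IQ M Y → Finset {v // v ∈ Y} → (sub M Y).Group → ℂ}
    (hy : ∀ q, IsL2Chain (sub M Y) i (y q)) (F : Finset (IQ M Y)) (hF : ∀ q, q ∉ F → y q = 0) :
    IsL2Chain M i (ind_glue M Y y) := by
  classical
  refine ⟨fun σ w h => ?_, fun σ v hv w => ?_, fun σ => ?_⟩
  · unfold ind_glue at h
    by_cases hs : σ ⊆ Y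
    · rw [if_pos hs] at h
      obtain ⟨h1, h2⟩ := (hy _).supp _ _ h
      rw [ind_sph, ind_map_pr hs] at h1
      rw [← card_map (ind_emb Y), ind_map_pr hs] at h2
      exact ⟨h1, h2⟩
    · exact absurd (if_neg hs) h
  · unfold ind_glue
    by_cases hs : σ ⊆ Y
    · rw [if_pos hs, if_pos hs]
      obtain ⟨h1, h2⟩ := ind_step (M := M) (Y := Y) w ⟨v, hs hv⟩
      rw [h1, h2]
      exact (hy _).anti _ ⟨v, hs hv⟩ (ind_mem_pr.2 hv) _
    · rw [if_neg hs, if_neg hs, neg_zero]
  · by_cases hs : σ ⊆ Y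
    · have h1 : ∀ q ∈ F, Summable fun w : M.Group =>
          if (QuotientGroup.mk w : IQ M Y) = q then ‖y q (ind_pr Y σ) (ind_u M Y w)‖ ^ 2 else 0 := by
        intro q _
        have h2 : Function.Injective fun u => q.out * ind_hom M Y u := ind_inj M Y q.out
        rw [← h2.summable_iff]
        · have h3 : ((fun w : M.Group =>
              if (QuotientGroup.mk w : IQ M Y) = q then ‖y q (ind_pr Y σ) (ind_u M Y w)‖ ^ 2 else 0) ∘
              fun u => q.out * ind_hom M Y u) = fun u => ‖y q (ind_pr Y σ) u‖ ^ 2 := by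
            funext u
            rw [Function.comp_apply, if_pos (ind_mk q u), ind_u_mk]
          rw [h3]
          exact (hy q).l2 _
        · intro w hw
          refine if_neg fun h3 => hw ⟨ind_u M Y w, ?_⟩
          have h4 := ind_u_spec (M := M) (Y := Y) w
          rw [h3] at h4
          exact h4
      refine (summable_sum h1).congr fun w => ?_
      unfold ind_glue
      rw [if_pos hs, Finset.sum_ite_eq]
      split_ifs with h2
      · rfl
      · rw [hF _ h2]
        simp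
    · have h1 : (fun w => ‖ind_glue M Y y σ w‖ ^ 2) = fun _ => 0 := by
        funext w
        unfold ind_glue
        rw [if_neg hs]
        simp
      rw [h1]
      exact summable_zero

/-! ### norms -/

private theorem ind_sq_add {G : Type} {f g : G → ℂ} (hf : Summable fun w => ‖f w‖ ^ 2)
    (hg : Summable fun w => ‖g w‖ ^ 2) : Summable fun w => ‖f w + g w‖ ^ 2 := by
  refine Summable.of_nonneg_of_le (fun w => sq_nonneg _) (fun w => ?_) ((hf.add hg).mul_left 2)
  have h1 := norm_add_le (f w) (g w)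
  have h2 := norm_nonneg (f w + g w)
  nlinarith [sq_nonneg (‖f w‖ - ‖g w‖), norm_nonneg (f w), norm_nonneg (g w)]

private theorem ind_sq_dbd {G : Type} (s : Finset V) (c : V → ℂ) (f : V → G → ℂ)
    (hf : ∀ v ∈ s, Summable fun w => ‖f v w‖ ^ 2) : Summable fun w => ‖∑ v ∈ s, c v * f v w‖ ^ 2 := by
  induction s using Finset.induction_on with
  | empty => simp
  | insert a s ha ih =>
    have h1 : Summable fun w => ‖c a * f a w‖ ^ 2 := by
      have h2 := (hf a (mem_insert_self a s)).mul_left (‖c a‖ ^ 2)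
      refine h2.congr fun w => ?_
      rw [norm_mul, mul_pow]
    have h2 := ind_sq_add h1 (ih fun v hv => hf v (mem_insert_of_mem hv))
    refine h2.congr fun w => ?_
    rw [sum_insert ha]

private theorem ind_err_sq {i j : ℕ} {ν : V → ℕ} {z y : Finset V → M.Group → ℂ} (hz : IsL2Chain M i z)
    (hy : IsL2Chain M j y) (σ : Finset V) : Summable fun w => ‖z σ w - dbd ν y σ w‖ ^ 2 := by
  have h1 : Summable fun w => ‖dbd ν y σ w‖ ^ 2 :=
    ind_sq_dbd σᶜ (fun v => (-1) ^ (σ.filter fun u => ν u < ν v).card) (fun v w => y (insert v σ) w)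
      fun v _ => hy.l2 _
  have h2 : Summable fun w => ‖-dbd ν y σ w‖ ^ 2 := h1.congr fun w => by rw [norm_neg]
  exact (ind_sq_add (hz.l2 σ) h2).congr fun w => by rw [sub_eq_add_neg]

/-- the norm is the sum of the norms of the restrictions to the cosets -/
private theorem ind_hasSum (f : Finset V → M.Group → ℂ) (hf : ∀ σ, f σ ≠ 0 → σ ⊆ Y)
    (h2 : ∀ σ, Summable fun w => ‖f σ w‖ ^ 2) :
    HasSum (fun q : IQ M Y => ∑ σ, ∑' u, ‖ind_pull M Y f q.out σ u‖ ^ 2) (∑ σ, ∑' w, ‖f σ w‖ ^ 2) := by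
  have h3 : ∑ σ, ∑' w, ‖f σ w‖ ^ 2 = ∑ σ : Finset {v // v ∈ Y}, ∑' w, ‖f (σ.map (ind_emb Y)) w‖ ^ 2 := by
    have h4 : ∑ σ ∈ univ.map (⟨fun σ : Finset {v // v ∈ Y} => σ.map (ind_emb Y), map_injective _⟩ :
        Finset {v // v ∈ Y} ↪ Finset V), ∑' w, ‖f σ w‖ ^ 2 = ∑ σ, ∑' w, ‖f σ w‖ ^ 2 := by
      refine Finset.sum_subset (subset_univ _) fun σ _ hσ => ?_
      have h5 : f σ = 0 := by
        by_contra h5
        exact hσ (mem_map.2 ⟨ind_pr Y σ, mem_univ _, ind_map_pr (hf σ h5)⟩)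
      rw [h5]
      simp
    rw [← h4, Finset.sum_map]
    rfl
  rw [h3]
  refine hasSum_sum fun σ _ => ?_
  have h4 := (ind_e M Y).hasSum_iff.2 (h2 (σ.map (ind_emb Y))).hasSum
  refine h4.prod_fiberwise fun q => ?_
  exact ((h2 (σ.map (ind_emb Y))).comp_injective (ind_inj M Y q.out)).hasSum

private theorem ind_dbd_types (ν : V → ℕ) {f : Finset V → M.Group → ℂ} (hf : ∀ σ, f σ ≠ 0 → σ ⊆ Y)
    (σ : Finset V) (h : dbd ν f σ ≠ 0) : σ ⊆ Y := by
  by_contra h1
  apply h
  funext w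
  refine Finset.sum_eq_zero fun v _ => ?_
  have h2 : f (insert v σ) = 0 := by
    by_contra h3
    exact h1 ((subset_insert v σ).trans (hf _ h3))
  rw [h2, Pi.zero_apply, mul_zero]

private theorem ind_err_types (ν : V → ℕ) {z y : Finset V → M.Group → ℂ} (hz : ∀ σ, z σ ≠ 0 → σ ⊆ Y)
    (hy : ∀ σ, y σ ≠ 0 → σ ⊆ Y) (σ : Finset V) (h : (fun w => z σ w - dbd ν y σ w) ≠ 0) : σ ⊆ Y := by
  by_contra h1
  apply h
  have h2 : z σ = 0 := by
    by_contra h3
    exact h1 (hz σ h3)
  have h3 : dbd ν y σ = 0 := by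
    by_contra h3
    exact h1 (ind_dbd_types ν hy σ h3)
  funext w
  rw [h2, h3]
  simp

theorem vanS_of_sub {i : ℕ} (h : L2HomologyZero (sub M Y) i) : VanS M Y i := by
  classical
  intro ν hν z hz hzY hz0 ε hε
  have hν' : Function.Injective fun v : {v // v ∈ Y} => ν v.1 := hν.comp Subtype.val_injective
  have hS := ind_hasSum (M := M) (Y := Y) z hzY hz.l2
  obtain ⟨S, hSdef⟩ : ∃ S, S = ∑ σ, ∑' w, ‖z σ w‖ ^ 2 := ⟨_, rfl⟩
  rw [← hSdef] at hS
  obtain ⟨T, hT⟩ : ∃ T : IQ M Y → ℝ, T = fun q => ∑ σ, ∑' u, ‖ind_pull M Y z q.out σ u‖ ^ 2 := ⟨_, rfl⟩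
  rw [← hT] at hS
  obtain ⟨F, hF⟩ : ∃ F : Finset (IQ M Y), S - ε / 2 < ∑ q ∈ F, T q := by
    have h1 := hS.eventually (lt_mem_nhds (show S - ε / 2 < S by linarith))
    exact h1.exists
  obtain ⟨δ, hδ, hδF⟩ : ∃ δ : ℝ, 0 < δ ∧ F.card * δ ≤ ε / 2 := by
    refine ⟨ε / (2 * (F.card + 1)), by positivity, ?_⟩
    rw [mul_div_assoc', div_le_div_iff₀ (by positivity) (by norm_num)]
    nlinarith [(Nat.cast_nonneg F.card : (0 : ℝ) ≤ F.card)]
  have hcyc : ∀ q : IQ M Y, dbd (fun v : {v // v ∈ Y} => ν v.1) (ind_pull M Y z q.out) = 0 := by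
    intro q
    funext σ u
    rw [ind_dbd ν z hzY, hz0]
    rfl
  choose yq hyq hyq' using fun q : IQ M Y =>
    h (fun v : {v // v ∈ Y} => ν v.1) hν' _ (ind_pull_chain hz q.out) (hcyc q) δ hδ
  obtain ⟨y', hy'⟩ : ∃ y' : IQ M Y → Finset {v // v ∈ Y} → (sub M Y).Group → ℂ,
      ∀ q, y' q = if q ∈ F then yq q else 0 := ⟨_, fun _ => rfl⟩
  have hy'c : ∀ q, IsL2Chain (sub M Y) (i + 1) (y' q) := by
    intro q
    rw [hy']
    split_ifs
    · exact hyq q
    · exact ⟨fun σ w h => absurd rfl h, fun σ v _ w => by simp, fun σ => by simp⟩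
  have hy := ind_glue_chain (M := M) (Y := Y) hy'c F fun q hq => by rw [hy', if_neg hq]
  have hyY := ind_glue_types (M := M) (Y := Y) y'
  refine ⟨ind_glue M Y y', hy, hyY, ?_⟩
  obtain ⟨f, hf⟩ : ∃ f : Finset V → M.Group → ℂ, f = fun σ w => z σ w - dbd ν (ind_glue M Y y') σ w := ⟨_, rfl⟩
  have hsum := ind_hasSum (M := M) (Y := Y) f (by rw [hf]; exact ind_err_types ν hzY hyY)
    (by rw [hf]; exact ind_err_sq hz hy)
  have hpull : ∀ q : IQ M Y, ∀ σ u, ind_pull M Y f q.out σ u = ind_pull M Y z q.out σ u -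
      dbd (fun v : {v // v ∈ Y} => ν v.1) (y' q) σ u := by
    intro q σ u
    have h1 := ind_dbd ν (ind_glue M Y y') hyY q.out σ u
    rw [ind_pull_glue] at h1
    rw [h1, hf]
    rfl
  obtain ⟨E, hE⟩ : ∃ E : IQ M Y → ℝ, E = fun q => ∑ σ, ∑' u, ‖ind_pull M Y f q.out σ u‖ ^ 2 := ⟨_, rfl⟩
  rw [← hE] at hsum
  have hEF : ∀ q ∈ F, E q < δ := by
    intro q hq
    rw [hE]
    simp only [hpull]
    rw [hy', if_pos hq]
    exact hyq' q
  have hEn : ∀ q, q ∉ F → E q = T q := by
    intro q hq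
    rw [hE, hT]
    simp only [hpull]
    rw [hy', if_neg hq]
    refine Finset.sum_congr rfl fun σ _ => tsum_congr fun u => ?_
    have h1 : dbd (fun v : {v // v ∈ Y} => ν v.1) (0 : Finset {v // v ∈ Y} → (sub M Y).Group → ℂ) σ u = 0 := by
      unfold dbd
      simp
    rw [h1, sub_zero]
  have hg : HasSum (fun q => if q ∈ F then E q - T q else 0) (∑ q ∈ F, (E q - T q)) := by
    have h1 : ∀ q ∉ F, (fun q => if q ∈ F then E q - T q else 0) q = 0 := fun q hq => if_neg hq
    have h2 : HasSum (fun q => if q ∈ F then E q - T q else 0)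
        (∑ q ∈ F, (fun q => if q ∈ F then E q - T q else 0) q) := hasSum_sum_of_ne_finset_zero h1
    have h3 : ∑ q ∈ F, (fun q => if q ∈ F then E q - T q else 0) q = ∑ q ∈ F, (E q - T q) :=
      Finset.sum_congr rfl fun q hq => if_pos hq
    rwa [h3] at h2
  have hET : HasSum E (S + ∑ q ∈ F, (E q - T q)) := by
    refine (hS.add hg).congr_fun fun q => ?_
    by_cases hq : q ∈ F
    · rw [if_pos hq]
      ring
    · rw [if_neg hq, hEn q hq, add_zero]
  have hfin := hsum.unique hET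
  have h1 : ∑ σ, ∑' w, ‖z σ w - dbd ν (ind_glue M Y y') σ w‖ ^ 2 = ∑ σ, ∑' w, ‖f σ w‖ ^ 2 := by rw [hf]
  rw [h1, hfin, Finset.sum_sub_distrib]
  have h2 : ∑ q ∈ F, E q ≤ F.card * δ := by
    rw [← nsmul_eq_mul]
    exact Finset.sum_le_card_nsmul F E δ fun q hq => (hEF q hq).le
  linarith

theorem sub_of_vanS {i : ℕ} (h : VanS M Y i) : L2HomologyZero (sub M Y) i := by
  classical
  intro ν₀ hν₀ z hz hz0 ε hε
  -- the extended numbering
  obtain ⟨ν, hν, hνν⟩ : ∃ ν : V → ℕ, Function.Injective ν ∧ (fun v : {v // v ∈ Y} => ν v.1) = ν₀ := by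
    obtain ⟨N, hN⟩ : ∃ N, ∀ v, ν₀ v ≤ N := ⟨univ.sup ν₀, fun v => le_sup (mem_univ v)⟩
    refine ⟨fun v => if h : v ∈ Y then ν₀ ⟨v, h⟩ else N + 1 + (Fintype.equivFin V v : ℕ), ?_, ?_⟩
    · intro u v huv
      by_cases hu : u ∈ Y <;> by_cases hv : v ∈ Y
      · simp only [hu, hv, dif_pos] at huv
        exact congrArg Subtype.val (hν₀ huv)
      · simp only [hu, hv, dif_pos, dif_neg, not_false_iff] at huv
        have := hN ⟨u, hu⟩
        omega
      · simp only [hu, hv, dif_pos, dif_neg, not_false_iff] at huv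
        have := hN ⟨v, hv⟩
        omega
      · simp only [hu, hv, dif_neg, not_false_iff] at huv
        exact (Fintype.equivFin V).injective (Fin.ext (by omega))
    · funext v
      simp only [v.2, dif_pos]
  subst hνν
  obtain ⟨q₀, hq₀⟩ : ∃ q₀ : IQ M Y, q₀ = QuotientGroup.mk 1 := ⟨_, rfl⟩
  obtain ⟨zq, hzq⟩ : ∃ zq : IQ M Y → Finset {v // v ∈ Y} → (sub M Y).Group → ℂ,
      ∀ q, zq q = if q = q₀ then z else 0 := ⟨_, fun _ => rfl⟩
  have hzc : ∀ q, IsL2Chain (sub M Y) i (zq q) := by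
    intro q
    rw [hzq]
    split_ifs
    · exact hz
    · exact ⟨fun σ w h => absurd rfl h, fun σ v _ w => by simp, fun σ => by simp⟩
  have hg := ind_glue_chain (M := M) (Y := Y) hzc {q₀} fun q hq => by
    rw [hzq, if_neg fun h => hq (mem_singleton.2 h)]
  have hgY := ind_glue_types (M := M) (Y := Y) zq
  have hg0 : dbd ν (ind_glue M Y zq) = 0 := by
    funext σ w
    by_cases hs : σ ⊆ Y
    · have h1 := ind_dbd ν (ind_glue M Y zq) hgY (QuotientGroup.mk w : IQ M Y).out (ind_pr Y σ) (ind_u M Y w)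
      rw [ind_pull_glue, ind_map_pr hs, ind_u_spec] at h1
      rw [← h1, hzq]
      split_ifs
      · rw [hz0]
        rfl
      · unfold dbd
        simp
    · have h1 : dbd ν (ind_glue M Y zq) σ = 0 := by
        by_contra h1
        exact hs (ind_dbd_types ν hgY σ h1)
      rw [h1]
      rfl
  obtain ⟨y, hy, hyY, hyε⟩ := h ν hν _ hg hgY hg0 ε hε
  refine ⟨ind_pull M Y y q₀.out, ind_pull_chain hy q₀.out, ?_⟩
  obtain ⟨f, hf⟩ : ∃ f : Finset V → M.Group → ℂ, f = fun σ w => ind_glue M Y zq σ w - dbd ν y σ w := ⟨_, rfl⟩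
  have hsum := ind_hasSum (M := M) (Y := Y) f (by rw [hf]; exact ind_err_types ν hgY hyY)
    (by rw [hf]; exact ind_err_sq hg hy)
  have h1 : ∑ σ, ∑' u, ‖z σ u - dbd (fun v : {v // v ∈ Y} => ν v.1) (ind_pull M Y y q₀.out) σ u‖ ^ 2 =
      ∑ σ, ∑' u, ‖ind_pull M Y f q₀.out σ u‖ ^ 2 := by
    refine Finset.sum_congr rfl fun σ _ => tsum_congr fun u => ?_
    rw [ind_dbd ν y hyY, hf]
    have h2 := congrFun (congrFun (ind_pull_glue (M := M) (Y := Y) zq q₀) σ) u
    rw [hzq, if_pos rfl] at h2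
    rw [← h2]
    rfl
  rw [h1]
  have h2 : ∑ σ, ∑' u, ‖ind_pull M Y f q₀.out σ u‖ ^ 2 ≤ ∑ σ, ∑' w, ‖f σ w‖ ^ 2 :=
    le_hasSum hsum q₀ fun q _ => Finset.sum_nonneg fun σ _ => tsum_nonneg fun u => sq_nonneg _
  refine h2.trans_lt ?_
  rw [hf]
  exact hyε

end Pool.Agent.H73.LK
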