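import Pool.Agent.H73.LK.PDL
import Pool.Agent.H73.LK.Ind

/-!
# The reduced `ℓ²`-homology of finite Coxeter groups

`l2_clique`: the reduced `ℓ²`-homology of a finite Coxeter group vanishes in the positive degrees.
A harmonic chain `c` is a coboundary `D u` by the exactness of the columns (`Pool.Agent.H19.PL.colL`), and
`⟨c, c⟩ = ⟨u, ∂ c⟩ = 0`.
-/

set_option autoImplicit false
set_option linter.unusedSectionVars false

open Finset

namespace Pool.Agent.H73.LK

open Pool.Agent.H85.Fold Pool.Agent.H4.FC Pool.Agent.H19.PL Pool.Agent.H19.PD Pool.Agent.H4.Singer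

variable {V : Type} [DecidableEq V] [Fintype V] {M : CoxeterMatrix V}

/-- square summable functions on the group -/
private abbrev LM (M : CoxeterMatrix V) : Type := lp (fun _ : M.Group => ℂ) 2

private theorem fi_mem (g : M.Group) (f : LM M) :
    Memℓp (E := fun _ : M.Group => ℂ) (fun w => f (w * g)) 2 := by
  rw [l2h_mem_iff]
  exact ((Equiv.mulRight g).summable_iff (f := fun w => ‖f w‖ ^ 2)).2
    ((l2h_mem_iff _).1 (lp.memℓp f))

/-- right translations -/
private noncomputable def RT (M : CoxeterMatrix V) : M.Group →* Module.End ℝ (LM M) where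
  toFun g :=
    { toFun := fun f => ⟨fun w => f (w * g), fi_mem g f⟩
      map_add' := fun f f' => by
        ext w
        rfl
      map_smul' := fun r f => by
        ext w
        rfl }
  map_one' := by
    ext f w
    show f (w * 1) = f w
    rw [mul_one]
  map_mul' g h := by
    ext f w
    show f (w * (g * h)) = f (w * g * h)
    rw [mul_assoc]

private theorem RT_apply (g : M.Group) (f : LM M) (w : M.Group) : (RT M g f) w = f (w * g) := rfl

private theorem fi_symU : SymU (RT M) (innerₗ (LM M)) := by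
  intro v x y
  simp only [innerₗ_apply_apply]
  rw [lp.inner_eq_tsum, lp.inner_eq_tsum]
  rw [← (Equiv.mulRight (M.simple v)).tsum_eq]
  refine tsum_congr fun w => ?_
  rw [RT_apply, RT_apply, Equiv.coe_mulRight, mul_assoc, simple_sq, mul_one]

private theorem lm_sum {ι : Type} (s : Finset ι) (f : ι → LM M) (w : M.Group) :
    (∑ v ∈ s, f v) w = ∑ v ∈ s, (f v) w := by
  rw [← l2hEv_apply w, map_sum]
  rfl

/-- the boundary of chains with values in the functions -/
private theorem fi_bd (ν : V → ℕ) (c : Finset V → LM M) (τ : Finset V) (w : M.Group) :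
    (bd ν c τ) w = ∑ v ∈ τᶜ, (-1 : ℂ) ^ (τ.filter fun u => ν u < ν v).card *
      (c (insert v τ)) w := by
  have h1 : bd ν c τ = ∑ v ∈ τᶜ, sgn ν v τ • c (insert v τ) := rfl
  rw [h1, lm_sum]
  refine sum_congr rfl fun v _ => ?_
  have h3 : (sgn ν v τ • c (insert v τ)) w = sgn ν v τ • (c (insert v τ)) w := rfl
  rw [h3]
  unfold sgn
  rw [Complex.real_smul]
  push_cast
  rfl

/-- the antisymmetrization -/
private theorem fi_PS (ρ : Finset V) (f : LM M) (w : M.Group) :
    (PS (RT M) ρ f) w = (1 / ((parF M ρ).card : ℂ)) *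
      altS M (MonoidHom.id M.Group) ρ (fun w => f w) w := by
  rw [PS_apply]
  have h1 : ((1 / ((parF M ρ).card : ℝ)) • ∑ u ∈ parF M ρ, er M u • RT M u f : LM M) w =
      (1 / ((parF M ρ).card : ℝ)) • ((∑ u ∈ parF M ρ, er M u • RT M u f : LM M) w) := rfl
  rw [h1, lm_sum, Complex.real_smul]
  unfold altS
  have h3 : ∑ u ∈ parF M ρ, (er M u • RT M u f : LM M) w =
      ∑ u ∈ parF M ρ, (eps M u : ℂ) * f (w * (MonoidHom.id M.Group) u) := by
    refine sum_congr rfl fun u _ => ?_
    have h2 : (er M u • RT M u f : LM M) w = er M u • (f (w * u)) := rfl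
    rw [h2, Complex.real_smul]
    unfold er
    push_cast
    rfl
  rw [h3]
  push_cast
  rfl

/-- **Finite Coxeter groups** have no reduced `ℓ²`-homology in the positive degrees. -/
theorem l2_clique {V : Type} [Fintype V] [DecidableEq V] {M : CoxeterMatrix V}
    (h : Pool.Agent.H4.FC.Sph M univ) {i : ℕ} (hi : 1 ≤ i) :
    Pool.Agent.H4.FC.L2HomologyZero M i := by
  classical
  obtain ⟨l, rfl⟩ : ∃ l, i = l + 1 := ⟨i - 1, by omega⟩
  intro ν hν z hz hdz ε hε
  refine l2_hodgeL M ν hν (l + 1) (fun x0 hx0 => ?_) z hz hdz ε hε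
  -- the chain with values in the functions
  obtain ⟨c, hcv⟩ : ∃ c : Finset V → LM M, ∀ σ w, (c σ) w = x0 σ w :=
    ⟨fun σ => ⟨x0 σ, (l2h_mem_iff _).2 (hx0.chain.l2 σ)⟩, fun _ _ => rfl⟩
  have hA : ∀ ρ, AntiS (RT M) ρ (c ρ) := by
    intro σ v hv
    ext w
    rw [RT_apply, hcv, hx0.chain.anti σ v hv w, ← hcv]
    rfl
  have hs : ∀ ρ, c ρ ≠ 0 → ρ ⊆ univ ∧ ρ.card = l + 1 := by
    intro σ hσ
    obtain ⟨w, hw⟩ : ∃ w, (c σ) w ≠ 0 := by
      by_contra hcon
      push Not at hcon
      exact hσ (by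
        ext w
        exact hcon w)
    rw [hcv] at hw
    exact ⟨subset_univ _, (hx0.chain.supp σ w hw).2⟩
  have hbd : ∀ κ, bd ν c κ = 0 := by
    intro τ
    ext w
    rw [fi_bd]
    have h1 := congrFun (congrFun hx0.cyc τ) w
    unfold Pool.Agent.H4.FC.dbd at h1
    simp only [hcv]
    exact h1
  have hD : ∀ ρ ⊆ (univ : Finset V), ∑ v ∈ ρ, sgn ν v ρ • PS (RT M) ρ (c (ρ.erase v)) = 0 := by
    intro ρ _
    by_cases h2 : ρ.card = l + 1 + 1
    · ext w
      rw [lm_sum]
      have h4 := hx0.cocyc ρ w (h.mono (subset_univ ρ)) h2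
      have h5 : ∀ v ∈ ρ, (sgn ν v ρ • PS (RT M) ρ (c (ρ.erase v)) : LM M) w =
          (1 / ((parF M ρ).card : ℂ)) * ((-1) ^ ((ρ.erase v).filter fun u => ν u < ν v).card *
            altS M (MonoidHom.id M.Group) ρ (x0 (ρ.erase v)) w) := by
        intro v hv
        have h6 : (sgn ν v ρ • PS (RT M) ρ (c (ρ.erase v)) : LM M) w =
            sgn ν v ρ • ((PS (RT M) ρ (c (ρ.erase v)) : LM M) w) := rfl
        have h7 : (fun w => (c (ρ.erase v)) w) = x0 (ρ.erase v) := funext fun w => hcv _ w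
        rw [h6, fi_PS, h7, ← sgn_erase_self]
        unfold sgn
        rw [Complex.real_smul]
        push_cast
        ring
      rw [sum_congr rfl h5, ← mul_sum, h4, mul_zero]
      rfl
    · refine sum_eq_zero fun v hv => ?_
      have h3 : c (ρ.erase v) = 0 := by
        by_contra hne
        have h4 := (hs _ hne).2
        rw [card_erase_of_mem hv] at h4
        have h5 : 0 < ρ.card := card_pos.2 ⟨v, hv⟩
        omega
      rw [h3, map_zero, smul_zero]
  obtain ⟨u, huA, -, hu⟩ := colL (U := RT M) hν l univ h c hA hs hD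
  -- the norm
  have hsum : ∑ ρ : Finset V, innerₗ (LM M) (c ρ) (c ρ) = 0 := by
    have h1 : ∀ ρ ∈ (univ : Finset (Finset V)), innerₗ (LM M) (c ρ) (c ρ) =
        ∑ v ∈ ρ, sgn ν v ρ * innerₗ (LM M) (c ρ) (u (ρ.erase v)) := by
      intro ρ _
      have h2 : innerₗ (LM M) (c ρ) (c ρ) =
          innerₗ (LM M) (c ρ) (∑ v ∈ ρ, sgn ν v ρ • PS (RT M) ρ (u (ρ.erase v))) := by
        rw [hu ρ (subset_univ ρ)]
      rw [h2, map_sum]
      refine sum_congr rfl fun v _ => ?_
      rw [map_smul, smul_eq_mul, pair_PS fi_symU (h.mono (subset_univ ρ)) (hA ρ)]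
    have h3 : ∀ κ ∈ (univ : Finset (Finset V)), innerₗ (LM M) (bd ν c κ) (u κ) =
        ∑ v ∈ κᶜ, sgn ν v κ * innerₗ (LM M) (c (insert v κ)) (u κ) := by
      intro κ _
      have h4 : bd ν c κ = ∑ v ∈ κᶜ, sgn ν v κ • c (insert v κ) := rfl
      rw [h4, map_sum, LinearMap.sum_apply]
      refine sum_congr rfl fun v _ => ?_
      rw [map_smul, LinearMap.smul_apply, smul_eq_mul]
    have h5 : ∑ ρ : Finset V, innerₗ (LM M) (c ρ) (c ρ) =
        ∑ κ : Finset V, innerₗ (LM M) (bd ν c κ) (u κ) := by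
      rw [sum_congr rfl h1, sum_congr rfl h3, sum_sigma', sum_sigma']
      refine (sum_bij' (fun z _ => ⟨insert z.2 z.1, z.2⟩) (fun z _ => ⟨z.1.erase z.2, z.2⟩)
        ?_ ?_ ?_ ?_ ?_).symm
      · rintro ⟨ρ, v⟩ h
        simp only [mem_sigma, mem_univ, true_and, mem_insert_self]
      · rintro ⟨ρ, v⟩ h
        simp only [mem_sigma, mem_univ, true_and, mem_compl, mem_erase, ne_eq, not_true_eq_false,
          false_and, not_false_eq_true]
      · rintro ⟨ρ, v⟩ h
        simp only [mem_sigma, mem_univ, true_and, mem_compl] at h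
        simp only [erase_insert h]
      · rintro ⟨ρ, v⟩ h
        simp only [mem_sigma, mem_univ, true_and] at h
        simp only [insert_erase h]
      · rintro ⟨ρ, v⟩ h
        simp only [mem_sigma, mem_univ, true_and, mem_compl] at h
        simp only [erase_insert h, sgn_insert_self]
    rw [h5]
    refine sum_eq_zero fun κ _ => ?_
    rw [hbd κ, map_zero, LinearMap.zero_apply]
  -- the chain is zero
  have hc0 : ∀ ρ, c ρ = 0 := by
    intro ρ
    have h1 : ∀ ρ ∈ (univ : Finset (Finset V)), 0 ≤ innerₗ (LM M) (c ρ) (c ρ) := fun ρ _ =>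
      @real_inner_self_nonneg (LM M) _ _ (c ρ)
    have h2 := (sum_eq_zero_iff_of_nonneg h1).1 hsum ρ (mem_univ _)
    exact inner_self_eq_zero.1 h2
  funext ρ w
  rw [← hcv, hc0]
  rfl

end Pool.Agent.H73.LK
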