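import Pool.Agent.H73.LK.Dense
import Pool.Agent.H73.LK.Defs

/-!
# Mayer-Vietoris for the Davis complex of a Coxeter group

`am`: if the complex is the union of the subcomplexes of the types in `A` and in `B`, these have no
`ℓ²`-homology in degree `i` and their intersection has none in degree `i - 1`, then the complex has none in
degree `i`. `am'`: if the complex and the intersection have none in degree `i`, then the parts have none.
-/

set_option autoImplicit false
set_option linter.unusedSectionVars false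

open Finset

namespace Pool.Agent.H73.LK

open Pool.Agent.H4.FC Pool.Agent.H4.Atiyah Pool.Agent.H78.RA
open Classical

variable {V : Type} [Fintype V] [DecidableEq V] {M : CoxeterMatrix V}

/-- the sign -/
noncomputable def sgC (ν : V → ℕ) (τ : Finset V) (v : V) : ℂ :=
  (-1) ^ (τ.filter fun u => ν u < ν v).card

/-- the boundary operator on `ℓ²` -/
noncomputable def dL (M : CoxeterMatrix V) (ν : V → ℕ) :
    LL (Finset V) M.Group →L[ℂ] LL (Finset V) M.Group :=
  Mop fun σ τ => ∑ v ∈ τᶜ, if insert v τ = σ then sgC ν τ v • (1 : BB M.Group) else 0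

theorem dL_apply (ν : V → ℕ) (x : LL (Finset V) M.Group) (τ : Finset V) (w : M.Group) :
    dL M ν x (τ, w) = ∑ v ∈ τᶜ, sgC ν τ v * x (insert v τ, w) := by
  have h : pr τ (dL M ν x) = ∑ v ∈ τᶜ, sgC ν τ v • pr (insert v τ) x := by
    unfold dL
    rw [pr_Mop]
    have h1 : ∀ σ : Finset V, (∑ v ∈ τᶜ, if insert v τ = σ then sgC ν τ v • (1 : BB M.Group)
        else 0) (pr σ x) = ∑ v ∈ τᶜ, if insert v τ = σ then sgC ν τ v • pr σ x else 0 := by
      intro σ
      rw [_root_.sum_apply]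
      apply Finset.sum_congr rfl
      intro v _
      split_ifs <;> rfl
    rw [Finset.sum_congr rfl fun σ _ => h1 σ, Finset.sum_comm]
    apply Finset.sum_congr rfl
    intro v _
    rw [Finset.sum_ite_eq, if_pos (Finset.mem_univ _)]
  have h2 := congrArg (fun y : LL Unit M.Group => y ((), w)) h
  simp only [pr_apply] at h2
  rw [h2]
  have h3 : ∀ s : Finset V, (∑ v ∈ s, sgC ν τ v • pr (insert v τ) x : LL Unit M.Group) ((), w) =
      ∑ v ∈ s, sgC ν τ v * x (insert v τ, w) := by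
    intro s
    induction s using Finset.induction_on with
    | empty => rfl
    | insert a s ha ih =>
      rw [Finset.sum_insert ha, Finset.sum_insert ha, ← ih]
      show (sgC ν τ a • pr (insert a τ) x : LL Unit M.Group) ((), w) + _ = _
      congr 1
      show sgC ν τ a * pr (insert a τ) x ((), w) = _
      rw [pr_apply]
  exact h3 _

theorem eqv_dL (ν : V → ℕ) : Eqv (dL M ν) := by
  intro g x
  ext ⟨τ, w⟩
  rw [dL_apply, Tr_apply, dL_apply]
  apply Finset.sum_congr rfl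
  intro v _
  rw [Tr_apply]

/-- the `ℓ²`-chains of the types with the property `P` -/
def CS (M : CoxeterMatrix V) (P : Finset V → Prop) : Submodule ℂ (LL (Finset V) M.Group) where
  carrier := {x | (∀ σ w, ¬ P σ → x (σ, w) = 0) ∧
    ∀ σ, ∀ v ∈ σ, ∀ w, x (σ, w * M.simple v) = - x (σ, w)}
  add_mem' := by
    rintro a b ⟨h1, h2⟩ ⟨h3, h4⟩
    refine ⟨fun σ w h => ?_, fun σ v hv w => ?_⟩
    · show a (σ, w) + b (σ, w) = 0
      rw [h1 σ w h, h3 σ w h, add_zero]
    · show a (σ, _) + b (σ, _) = -(a (σ, w) + b (σ, w))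
      rw [h2 σ v hv, h4 σ v hv, neg_add]
  zero_mem' := ⟨fun _ _ _ => rfl, fun _ _ _ _ => by
    show (0 : ℂ) = -0
    rw [neg_zero]⟩
  smul_mem' := by
    rintro c a ⟨h1, h2⟩
    refine ⟨fun σ w h => ?_, fun σ v hv w => ?_⟩
    · show c * a (σ, w) = 0
      rw [h1 σ w h, mul_zero]
    · show c * a (σ, _) = -(c * a (σ, w))
      rw [h2 σ v hv, mul_neg]

theorem mem_CS {P : Finset V → Prop} {x : LL (Finset V) M.Group} :
    x ∈ CS M P ↔ (∀ σ w, ¬ P σ → x (σ, w) = 0) ∧
      ∀ σ, ∀ v ∈ σ, ∀ w, x (σ, w * M.simple v) = - x (σ, w) := Iff.rfl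

theorem continuous_coord (p : Finset V × M.Group) :
    Continuous fun x : LL (Finset V) M.Group => x p := by
  have h : (fun x : LL (Finset V) M.Group => x p) = fun x => inner ℂ (dl p.1 p.2) x := by
    funext x
    rw [inner_dl]
  rw [h]
  fun_prop

theorem isClosed_CS (P : Finset V → Prop) : IsClosed (CS M P : Set (LL (Finset V) M.Group)) := by
  have h : (CS M P : Set (LL (Finset V) M.Group)) =
      (⋂ σ, ⋂ w, ⋂ (_ : ¬ P σ), {x : LL (Finset V) M.Group | x (σ, w) = 0}) ∩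
      ⋂ σ, ⋂ v, ⋂ (_ : v ∈ σ), ⋂ w,
        {x : LL (Finset V) M.Group | x (σ, w * M.simple v) = - x (σ, w)} := by
    ext x
    simp only [Set.mem_inter_iff, Set.mem_iInter, Set.mem_ofPred_eq, SetLike.mem_coe, mem_CS]
  rw [h]
  refine IsClosed.inter ?_ ?_
  · exact isClosed_iInter fun σ => isClosed_iInter fun w => isClosed_iInter fun _ =>
      isClosed_eq (continuous_coord _) continuous_const
  · exact isClosed_iInter fun σ => isClosed_iInter fun v => isClosed_iInter fun _ =>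
      isClosed_iInter fun w => isClosed_eq (continuous_coord _) (continuous_coord _).neg

theorem inv_CS (P : Finset V → Prop) : H78.RA.Inv (CS M P) := by
  rintro g x ⟨h1, h2⟩
  refine ⟨fun σ w h => ?_, fun σ v hv w => ?_⟩
  · rw [Tr_apply]
    exact h1 σ _ h
  · rw [Tr_apply, Tr_apply]
    show x (σ, g⁻¹ * (w * M.simple v)) = _
    rw [← mul_assoc]
    exact h2 σ v hv _

theorem CS_mono {P Q : Finset V → Prop} (h : ∀ σ, P σ → Q σ) : CS M P ≤ CS M Q := by
  rintro x ⟨h1, h2⟩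
  exact ⟨fun σ w hσ => h1 σ w fun hp => hσ (h σ hp), h2⟩

/-- spherical types of cardinality `i` in `Y` -/
def tp (M : CoxeterMatrix V) (i : ℕ) (Y : Finset V) (σ : Finset V) : Prop :=
  (Sph M σ ∧ σ.card = i) ∧ σ ⊆ Y

theorem sph_mono {σ τ : Finset V} (h : Sph M σ) (hτ : τ ⊆ σ) : Sph M τ := by
  have hle : par M τ ≤ par M σ := by
    apply Subgroup.closure_mono
    rintro w ⟨v, hv, rfl⟩
    exact ⟨v, hτ hv, rfl⟩
  have : Finite (par M σ) := h
  exact Finite.of_injective _ (Subgroup.inclusion_injective hle)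

/-- the boundary of a chain -/
theorem dL_mem (ν : V → ℕ) {i : ℕ} {Y : Finset V} {x : LL (Finset V) M.Group}
    (hx : x ∈ CS M (tp M (i + 1) Y)) : dL M ν x ∈ CS M (tp M i Y) := by
  rw [mem_CS] at hx ⊢
  obtain ⟨h1, h2⟩ := hx
  refine ⟨fun τ w hτ => ?_, fun τ u hu w => ?_⟩
  · rw [dL_apply]
    apply Finset.sum_eq_zero
    intro v hv
    rw [h1, mul_zero]
    rintro ⟨⟨h3, h4⟩, h5⟩
    apply hτ
    rw [Finset.card_insert_of_notMem (Finset.mem_compl.1 hv)] at h4
    exact ⟨⟨sph_mono h3 (Finset.subset_insert _ _), by omega⟩,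
      (Finset.subset_insert _ _).trans h5⟩
  · rw [dL_apply, dL_apply, ← Finset.sum_neg_distrib]
    apply Finset.sum_congr rfl
    intro v _
    rw [h2 _ u (Finset.mem_insert_of_mem hu), mul_neg]

/-- the restriction to the types in `A` -/
noncomputable def rs (M : CoxeterMatrix V) (A : Finset V) :
    LL (Finset V) M.Group →L[ℂ] LL (Finset V) M.Group :=
  Mop fun σ τ => if σ = τ ∧ σ ⊆ A then 1 else 0

theorem rs_apply (A : Finset V) (x : LL (Finset V) M.Group) (σ : Finset V) (w : M.Group) :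
    rs M A x (σ, w) = if σ ⊆ A then x (σ, w) else 0 := by
  have h : pr σ (rs M A x) = if σ ⊆ A then pr σ x else 0 := by
    unfold rs
    rw [pr_Mop, Finset.sum_eq_single σ]
    · by_cases hA : σ ⊆ A
      · rw [if_pos ⟨rfl, hA⟩, if_pos hA]; rfl
      · rw [if_neg (fun h => hA h.2), if_neg hA]; rfl
    · intro b _ hb
      rw [if_neg (fun h => hb h.1)]; rfl
    · intro h
      exact absurd (Finset.mem_univ _) h
  have h2 := congrArg (fun y : LL Unit M.Group => y ((), w)) h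
  simp only [pr_apply] at h2
  rw [h2]
  split_ifs
  · rw [pr_apply]
  · rfl

theorem eqv_rs (A : Finset V) : Eqv (rs M A) := by
  intro g x
  ext ⟨τ, w⟩
  have h : Tr g (rs M A x) (τ, w) = rs M A x (τ, g⁻¹ * w) := Tr_apply _ _ _
  rw [h, rs_apply, rs_apply]
  rfl

theorem rs_mem {A Y : Finset V} {i : ℕ} {x : LL (Finset V) M.Group} (hx : x ∈ CS M (tp M i Y)) :
    rs M A x ∈ CS M (tp M i A) := by
  rw [mem_CS] at hx ⊢
  obtain ⟨h1, h2⟩ := hx
  refine ⟨fun τ w hτ => ?_, fun τ u hu w => ?_⟩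
  · rw [rs_apply]
    split_ifs with h
    · exact h1 τ w fun h3 => hτ ⟨h3.1, h⟩
    · rfl
  · rw [rs_apply, rs_apply]
    split_ifs
    · exact h2 τ u hu w
    · rw [neg_zero]

/-- the complement of the restriction to `A` lies in `B` -/
theorem sub_rs_mem {A B Y : Finset V} {i : ℕ} (hcov : ∀ σ, Sph M σ → σ ⊆ A ∨ σ ⊆ B)
    {x : LL (Finset V) M.Group} (hx : x ∈ CS M (tp M i Y)) : x - rs M A x ∈ CS M (tp M i B) := by
  rw [mem_CS] at hx ⊢
  obtain ⟨h1, h2⟩ := hx
  refine ⟨fun τ w hτ => ?_, fun τ u hu w => ?_⟩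
  · show x (τ, w) - rs M A x (τ, w) = 0
    rw [rs_apply]
    split_ifs with h
    · rw [sub_self]
    · rw [sub_zero]
      apply h1
      rintro ⟨h3, h4⟩
      exact hτ ⟨h3, (hcov τ h3.1).resolve_left h⟩
  · show x (τ, _) - rs M A x (τ, _) = -(x (τ, w) - rs M A x (τ, w))
    rw [rs_apply, rs_apply, h2 τ u hu]
    split_ifs <;> ring

/-- a chain in `A` and in `B` is a chain in `A ∩ B` -/
theorem mem_inter_CS {A B : Finset V} {i : ℕ} {x : LL (Finset V) M.Group}
    (hA : x ∈ CS M (tp M i A)) (hB : x ∈ CS M (tp M i B)) : x ∈ CS M (tp M i (A ∩ B)) := by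
  rw [mem_CS] at hA hB ⊢
  refine ⟨fun τ w hτ => ?_, hA.2⟩
  by_cases h : tp M i A τ
  · refine hB.1 τ w fun h' => hτ ⟨h.1, Finset.subset_inter h.2 h'.2⟩
  · exact hA.1 τ w h

/-- the sign relation -/
theorem sgC_rel (ν : V → ℕ) (hν : Function.Injective ν) (τ : Finset V) {u v : V} (hu : u ∉ τ)
    (hv : v ∉ τ) (huv : u ≠ v) :
    sgC ν τ v * sgC ν (insert v τ) u = -(sgC ν τ u * sgC ν (insert u τ) v) := by
  have key : ∀ a b : V, a ∉ τ → b ∉ τ → a ≠ b → ν a < ν b →
      sgC ν τ b * sgC ν (insert b τ) a = -(sgC ν τ a * sgC ν (insert a τ) b) := by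
    intro a b ha hb hab hlt
    have h1 : (insert b τ).filter (fun x => ν x < ν a) = τ.filter (fun x => ν x < ν a) := by
      rw [Finset.filter_insert, if_neg (not_lt.2 hlt.le)]
    have h2 : (insert a τ).filter (fun x => ν x < ν b) =
        insert a (τ.filter (fun x => ν x < ν b)) := by
      rw [Finset.filter_insert, if_pos hlt]
    unfold sgC
    rw [h1, h2, Finset.card_insert_of_notMem (fun h => ha (Finset.mem_filter.1 h).1), pow_succ]
    ring
  rcases lt_or_gt_of_ne (fun h => huv (hν h)) with h | h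
  · exact key u v hu hv huv h
  · rw [key v u hv hu huv.symm h, neg_neg]

theorem dL_dL (ν : V → ℕ) (hν : Function.Injective ν) (x : LL (Finset V) M.Group) :
    dL M ν (dL M ν x) = 0 := by
  ext ⟨τ, w⟩
  rw [dL_apply]
  show _ = (0 : ℂ)
  have h1 : ∀ v ∈ τᶜ, sgC ν τ v * dL M ν x (insert v τ, w) =
      ∑ u ∈ τᶜ, if u = v then 0 else
        sgC ν τ v * sgC ν (insert v τ) u * x (insert u (insert v τ), w) := by
    intro v hv
    rw [dL_apply, Finset.mul_sum, Finset.compl_insert, ← Finset.sum_erase_add _ _ hv,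
      if_pos rfl, add_zero]
    apply Finset.sum_congr rfl
    intro u hu
    rw [if_neg (Finset.mem_erase.1 hu).1, mul_assoc]
  rw [Finset.sum_congr rfl h1]
  set F : V → V → ℂ := fun v u => if u = v then 0 else
        sgC ν τ v * sgC ν (insert v τ) u * x (insert u (insert v τ), w) with hF
  have h2 : ∀ v ∈ τᶜ, ∀ u ∈ τᶜ, F v u = - F u v := by
    intro v hv u hu
    rw [Finset.mem_compl] at hv hu
    simp only [hF]
    by_cases h : u = v
    · rw [if_pos h, if_pos h.symm, neg_zero]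
    · rw [if_neg h, if_neg (Ne.symm h), sgC_rel ν hν τ hu hv h, Finset.insert_comm u v]
      ring
  have h3 : ∑ v ∈ τᶜ, ∑ u ∈ τᶜ, F v u = -∑ v ∈ τᶜ, ∑ u ∈ τᶜ, F v u := by
    conv_lhs => rw [Finset.sum_comm]
    rw [← Finset.sum_neg_distrib]
    apply Finset.sum_congr rfl
    intro v hv
    rw [← Finset.sum_neg_distrib]
    apply Finset.sum_congr rfl
    intro u hu
    exact h2 u hu v hv
  exact self_eq_neg.1 h3

/-- vanishing in the language of operators -/
def VanL (M : CoxeterMatrix V) (ν : V → ℕ) (Y : Finset V) (i : ℕ) : Prop :=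
  ∀ x ∈ CS M (tp M i Y), dL M ν x = 0 → ∀ ε : ℝ, 0 < ε →
    ∃ y ∈ CS M (tp M (i + 1) Y), ‖x - dL M ν y‖ < ε

/-- a family of functions as a vector -/
noncomputable def vec (f : Finset V → M.Group → ℂ) (h : ∀ σ, Summable fun w => ‖f σ w‖ ^ 2) :
    LL (Finset V) M.Group :=
  ⟨fun p => f p.1 p.2, (memlp_iff _).2 (by
    have h1 : ∀ σ : Finset V, HasSum (fun w => ‖f σ w‖ ^ 2) (∑' w, ‖f σ w‖ ^ 2) :=
      fun σ => (h σ).hasSum
    rw [summable_prod_of_nonneg (fun p => sq_nonneg _)]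
    exact ⟨h, Summable.of_finite⟩)⟩

theorem vec_apply (f : Finset V → M.Group → ℂ) (h : ∀ σ, Summable fun w => ‖f σ w‖ ^ 2)
    (p : Finset V × M.Group) : vec f h p = f p.1 p.2 := rfl

theorem norm_sq_LL (x : LL (Finset V) M.Group) : ‖x‖ ^ 2 = ∑ σ, ∑' w, ‖x (σ, w)‖ ^ 2 := by
  rw [norm_sq_lp, Summable.tsum_prod ((memlp_iff _).1 (lp.memℓp x)), tsum_fintype]

theorem vanL_of_vanS {Y : Finset V} {i : ℕ} (h : VanS M Y i) (ν : V → ℕ)
    (hν : Function.Injective ν) : VanL M ν Y i := by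
  intro x hx hdx ε hε
  rw [mem_CS] at hx
  have hs : ∀ σ, Summable fun w => ‖x (σ, w)‖ ^ 2 := by
    intro σ
    have h1 := (memlp_iff _).1 (lp.memℓp x)
    exact h1.comp_injective (i := fun w => (σ, w)) fun a b hab => (Prod.ext_iff.1 hab).2
  have hz : IsL2Chain M i (fun σ w => x (σ, w)) := by
    refine ⟨fun σ w hw => ?_, hx.2, hs⟩
    by_contra hc
    exact hw (hx.1 σ w fun h => hc h.1)
  have hsup : ∀ σ, (fun w => x (σ, w)) ≠ 0 → σ ⊆ Y := by
    intro σ hσ
    by_contra hc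
    exact hσ (funext fun w => hx.1 σ w fun h => hc h.2)
  have hd : dbd ν (fun σ w => x (σ, w)) = 0 := by
    funext τ w
    have := congrArg (fun y : LL (Finset V) M.Group => y (τ, w)) hdx
    simp only [dL_apply] at this
    exact this
  obtain ⟨y, hy1, hy2, hy3⟩ := h ν hν _ hz hsup hd (ε ^ 2) (by positivity)
  refine ⟨vec y hy1.l2, ?_, ?_⟩
  · rw [mem_CS]
    refine ⟨fun σ w hσ => ?_, hy1.anti⟩
    by_contra hc
    have hc' : y σ w ≠ 0 := hc
    apply hσ
    exact ⟨hy1.supp σ w hc', hy2 σ fun h0 => hc' (by rw [h0]; rfl)⟩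
  · apply lt_of_pow_lt_pow_left₀ 2 hε.le
    rw [norm_sq_LL]
    refine lt_of_eq_of_lt ?_ hy3
    apply Finset.sum_congr rfl
    intro σ _
    apply tsum_congr
    intro w
    congr 2
    show x (σ, w) - dL M ν (vec y hy1.l2) (σ, w) = _
    rw [dL_apply]
    rfl

theorem vanS_of_vanL {Y : Finset V} {i : ℕ}
    (h : ∀ ν : V → ℕ, Function.Injective ν → VanL M ν Y i) : VanS M Y i := by
  intro ν hν z hz hsup hd ε hε
  have hx : vec z hz.l2 ∈ CS M (tp M i Y) := by
    rw [mem_CS]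
    refine ⟨fun σ w hσ => ?_, hz.anti⟩
    by_contra hc
    have hc' : z σ w ≠ 0 := hc
    exact hσ ⟨hz.supp σ w hc', hsup σ fun h0 => hc' (by rw [h0]; rfl)⟩
  have hdx : dL M ν (vec z hz.l2) = 0 := by
    ext ⟨τ, w⟩
    rw [dL_apply]
    exact congrFun (congrFun hd τ) w
  obtain ⟨y, hy, hy2⟩ := h ν hν _ hx hdx (Real.sqrt ε) (Real.sqrt_pos.2 hε)
  rw [mem_CS] at hy
  have hs : ∀ σ, Summable fun w => ‖y (σ, w)‖ ^ 2 := by
    intro σ
    have h1 := (memlp_iff _).1 (lp.memℓp y)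
    exact h1.comp_injective (i := fun w => (σ, w)) fun a b hab => (Prod.ext_iff.1 hab).2
  refine ⟨fun σ w => y (σ, w), ⟨fun σ w hw => ?_, hy.2, hs⟩, fun σ hσ => ?_, ?_⟩
  · by_contra hc
    exact hw (hy.1 σ w fun h => hc h.1)
  · by_contra hc
    exact hσ (funext fun w => hy.1 σ w fun h => hc h.2)
  · have h1 : ‖vec z hz.l2 - dL M ν y‖ ^ 2 < ε := by
      have := pow_lt_pow_left₀ hy2 (norm_nonneg _) two_ne_zero
      rwa [Real.sq_sqrt hε.le] at this
    rw [norm_sq_LL] at h1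
    refine lt_of_eq_of_lt ?_ h1
    apply Finset.sum_congr rfl
    intro σ _
    apply tsum_congr
    intro w
    congr 2
    show _ = vec z hz.l2 (σ, w) - dL M ν y (σ, w)
    rw [dL_apply]
    rfl

/-- the cycles -/
theorem exists_cyc (ν : V → ℕ) (P : Finset V → Prop) :
    ∃ H : Submodule ℂ (LL (Finset V) M.Group), ∃ _ : H.HasOrthogonalProjection,
      H78.RA.Inv H ∧ ∀ x, x ∈ H ↔ x ∈ CS M P ∧ dL M ν x = 0 := by
  refine ⟨CS M P ⊓ kr (dL M ν), ?_, ?_, ?_⟩
  · have hc : IsClosed ((CS M P ⊓ kr (dL M ν) : Submodule ℂ (LL (Finset V) M.Group)) :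
        Set (LL (Finset V) M.Group)) := by
      rw [Submodule.coe_inf]
      exact (isClosed_CS P).inter (isClosed_kr _)
    have : CompleteSpace (CS M P ⊓ kr (dL M ν) : Submodule ℂ (LL (Finset V) M.Group)) :=
      hc.completeSpace_coe
    infer_instance
  · intro g x hx
    exact ⟨inv_CS P g x hx.1, H78.RA.Inv.kr (eqv_dL ν) g x hx.2⟩
  · intro x
    rfl

theorem hasProj_CS (P : Finset V → Prop) : (CS M P).HasOrthogonalProjection := by
  have : CompleteSpace (CS M P) := (isClosed_CS P).completeSpace_coe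
  infer_instance

/-- **Mayer-Vietoris**, the union, in the language of operators -/
theorem amL {A B : Finset V} {i : ℕ} (hcov : ∀ σ, Sph M σ → σ ⊆ A ∨ σ ⊆ B) (ν : V → ℕ)
    (hν : Function.Injective ν) (hA : VanL M ν A (i + 1)) (hB : VanL M ν B (i + 1))
    (hC : VanL M ν (A ∩ B) i) : VanL M ν univ (i + 1) := by
  intro x hx hdx ε hε
  obtain ⟨H, _, hHi, hH⟩ := exists_cyc (M := M) ν (tp M (i + 1) univ)
  have := hasProj_CS (M := M) (tp M (i + 1) (A ∩ B))
  obtain ⟨x', hx', y, hy, h1, h2⟩ := dense_on (dL M ν ∘L rs M A) (dL M ν)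
    ((eqv_dL ν).comp (eqv_rs A)) (eqv_dL ν) H hHi (CS M (tp M (i + 1) (A ∩ B))) (inv_CS _)
    (by
      intro a ha δ hδ
      rw [hH] at ha
      have h3 : dL M ν (rs M A a) ∈ CS M (tp M i A) := dL_mem ν (rs_mem ha.1)
      have h4 : dL M ν (a - rs M A a) ∈ CS M (tp M i B) := dL_mem ν (sub_rs_mem hcov ha.1)
      rw [map_sub, ha.2, zero_sub] at h4
      have h5 : dL M ν (rs M A a) ∈ CS M (tp M i B) := by
        have := (CS M (tp M i B)).neg_mem h4
        rwa [neg_neg] at this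
      exact hC _ (mem_inter_CS h3 h5) (dL_dL ν hν _) δ hδ)
    x ((hH x).2 ⟨hx, hdx⟩) (ε / 3) (by positivity)
  rw [hH] at hx'
  have h2' : dL M ν (rs M A x') = dL M ν y := h2
  have hyA : y ∈ CS M (tp M (i + 1) A) :=
    CS_mono (fun σ h => ⟨h.1, h.2.trans Finset.inter_subset_left⟩) hy
  have hyB : y ∈ CS M (tp M (i + 1) B) :=
    CS_mono (fun σ h => ⟨h.1, h.2.trans Finset.inter_subset_right⟩) hy
  obtain ⟨uA, huA, hA'⟩ := hA (rs M A x' - y) ((CS M _).sub_mem (rs_mem hx'.1) hyA)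
    (by rw [map_sub, h2', sub_self]) (ε / 3) (by positivity)
  obtain ⟨uB, huB, hB'⟩ := hB (x' - rs M A x' + y)
    ((CS M _).add_mem (sub_rs_mem hcov hx'.1) hyB)
    (by rw [map_add, map_sub, hx'.2, h2', zero_sub, neg_add_cancel]) (ε / 3) (by positivity)
  refine ⟨uA + uB, (CS M _).add_mem
    (CS_mono (fun σ h => ⟨h.1, Finset.subset_univ _⟩) huA)
    (CS_mono (fun σ h => ⟨h.1, Finset.subset_univ _⟩) huB), ?_⟩
  have h6 : x - dL M ν (uA + uB) = (x - x') + ((rs M A x' - y - dL M ν uA) +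
      (x' - rs M A x' + y - dL M ν uB)) := by
    rw [map_add]
    abel
  rw [h6]
  calc _ ≤ ‖x - x'‖ + (‖rs M A x' - y - dL M ν uA‖ + ‖x' - rs M A x' + y - dL M ν uB‖) :=
        (norm_add_le _ _).trans (by gcongr; exact norm_add_le _ _)
    _ < ε := by linarith

/-- **Mayer-Vietoris**, the parts, in the language of operators -/
theorem amL' {A B : Finset V} {i : ℕ} (hcov : ∀ σ, Sph M σ → σ ⊆ A ∨ σ ⊆ B) (ν : V → ℕ)
    (hν : Function.Injective ν) (hL : VanL M ν univ i) (hC : VanL M ν (A ∩ B) i) :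
    VanL M ν A i := by
  intro x hx hdx ε hε
  obtain ⟨H, _, hHi, hH⟩ := exists_cyc (M := M) ν (tp M i A)
  have := hasProj_CS (M := M) (tp M (i + 1) univ)
  obtain ⟨x', hx', y, hy, h1, h2⟩ := dense_on (ContinuousLinearMap.id ℂ _) (dL M ν)
    Eqv.id (eqv_dL ν) H hHi (CS M (tp M (i + 1) univ)) (inv_CS _)
    (by
      intro a ha δ hδ
      rw [hH] at ha
      exact hL a (CS_mono (fun σ h => ⟨h.1, Finset.subset_univ _⟩) ha.1) ha.2 δ hδ)
    x ((hH x).2 ⟨hx, hdx⟩) (ε / 2) (by positivity)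
  rw [hH] at hx'
  have h2' : x' = dL M ν y := h2
  have hyA : rs M A y ∈ CS M (tp M (i + 1) A) := rs_mem hy
  have h3 : dL M ν (y - rs M A y) ∈ CS M (tp M i B) := dL_mem ν (sub_rs_mem hcov hy)
  have h4 : dL M ν (y - rs M A y) ∈ CS M (tp M i A) := by
    rw [map_sub, ← h2']
    exact (CS M _).sub_mem hx'.1 (dL_mem ν hyA)
  obtain ⟨u, hu, hu'⟩ := hC _ (mem_inter_CS h4 h3) (dL_dL ν hν _) (ε / 2) (by positivity)
  refine ⟨rs M A y + u, (CS M _).add_mem hyA
    (CS_mono (fun σ h => ⟨h.1, h.2.trans Finset.inter_subset_left⟩) hu), ?_⟩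
  have h6 : x - dL M ν (rs M A y + u) = (x - x') + (dL M ν (y - rs M A y) - dL M ν u) := by
    rw [map_add, map_sub, ← h2']
    abel
  rw [h6]
  exact (norm_add_le _ _).trans_lt (by linarith)

/-- **Mayer-Vietoris**, the union. -/
theorem am {A B : Finset V} {i : ℕ} (hcov : ∀ σ, Sph M σ → σ ⊆ A ∨ σ ⊆ B)
    (hA : VanS M A (i + 1)) (hB : VanS M B (i + 1)) (hC : VanS M (A ∩ B) i) :
    L2HomologyZero M (i + 1) :=
  vanS_univ.1 (vanS_of_vanL fun ν hν => amL hcov ν hν (vanL_of_vanS hA ν hν)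
    (vanL_of_vanS hB ν hν) (vanL_of_vanS hC ν hν))

/-- **Mayer-Vietoris**, the parts. -/
theorem am' {A B : Finset V} {i : ℕ} (hcov : ∀ σ, Sph M σ → σ ⊆ A ∨ σ ⊆ B)
    (hL : L2HomologyZero M i) (hC : VanS M (A ∩ B) i) : VanS M A i :=
  vanS_of_vanL fun ν hν => amL' hcov ν hν (vanL_of_vanS (vanS_univ.2 hL) ν hν)
    (vanL_of_vanS hC ν hν)

end Pool.Agent.H73.LK
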