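import Pool.Agent.H73.LK.MV
import Pool.Agent.H4.FC.SphIff
import Pool.Agent.H4.FD.Defs

/-!
# Mayer-Vietoris for a full subcomplex, and the rule for the links in codimension `m`
-/

set_option autoImplicit false
set_option linter.unusedSectionVars false

open Finset

namespace Pool.Agent.H73.LK

open Pool.Agent.H4.FC Pool.Agent.H4.FD Pool.Agent.H4.Atiyah Pool.Agent.H78.RA
open Classical

variable {V : Type} [Fintype V] [DecidableEq V] {M : CoxeterMatrix V}

/-- the complement of the restriction to `A` lies in `B` -/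
theorem sub_rs_memY {A B Y : Finset V} {i : ℕ} (hcov : ∀ σ, Sph M σ → σ ⊆ Y → σ ⊆ A ∨ σ ⊆ B)
    {x : LL (Finset V) M.Group} (hx : x ∈ CS M (tp M i Y)) : x - rs M A x ∈ CS M (tp M i B) := by
  rw [mem_CS] at hx ⊢
  obtain ⟨h1, h2⟩ := hx
  refine ⟨fun τ w hτ => ?_, fun τ u hu w => ?_⟩
  · show x (τ, w) - rs M A x (τ, w) = 0
    rw [rs_apply]
    split_ifs with h
    · rw [sub_self]
    · rw [sub_zero]
      apply h1
      rintro ⟨h3, h4⟩
      exact hτ ⟨h3, (hcov τ h3.1 h4).resolve_left h⟩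
  · show x (τ, _) - rs M A x (τ, _) = -(x (τ, w) - rs M A x (τ, w))
    rw [rs_apply, rs_apply, h2 τ u hu]
    split_ifs <;> ring

/-- **Mayer-Vietoris** in the full subcomplex on `Y`, in the language of operators -/
theorem amLY {Y A B : Finset V} {i : ℕ} (hcov : ∀ σ, Sph M σ → σ ⊆ Y → σ ⊆ A ∨ σ ⊆ B)
    (hAY : A ⊆ Y) (hBY : B ⊆ Y) (ν : V → ℕ) (hν : Function.Injective ν)
    (hA : VanL M ν A (i + 1)) (hB : VanL M ν B (i + 1)) (hC : VanL M ν (A ∩ B) i) :
    VanL M ν Y (i + 1) := by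
  intro x hx hdx ε hε
  obtain ⟨H, _, hHi, hH⟩ := exists_cyc (M := M) ν (tp M (i + 1) Y)
  have := hasProj_CS (M := M) (tp M (i + 1) (A ∩ B))
  obtain ⟨x', hx', y, hy, h1, h2⟩ := dense_on (dL M ν ∘L rs M A) (dL M ν)
    ((eqv_dL ν).comp (eqv_rs A)) (eqv_dL ν) H hHi (CS M (tp M (i + 1) (A ∩ B))) (inv_CS _)
    (by
      intro a ha δ hδ
      rw [hH] at ha
      have h3 : dL M ν (rs M A a) ∈ CS M (tp M i A) := dL_mem ν (rs_mem ha.1)
      have h4 : dL M ν (a - rs M A a) ∈ CS M (tp M i B) := dL_mem ν (sub_rs_memY hcov ha.1)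
      rw [map_sub, ha.2, zero_sub] at h4
      have h5 : dL M ν (rs M A a) ∈ CS M (tp M i B) := by
        have := (CS M (tp M i B)).neg_mem h4
        rwa [neg_neg] at this
      exact hC _ (mem_inter_CS h3 h5) (dL_dL ν hν _) δ hδ)
    x ((hH x).2 ⟨hx, hdx⟩) (ε / 3) (by positivity)
  rw [hH] at hx'
  have h2' : dL M ν (rs M A x') = dL M ν y := h2
  have hyA : y ∈ CS M (tp M (i + 1) A) :=
    CS_mono (fun σ h => ⟨h.1, h.2.trans Finset.inter_subset_left⟩) hy
  have hyB : y ∈ CS M (tp M (i + 1) B) :=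
    CS_mono (fun σ h => ⟨h.1, h.2.trans Finset.inter_subset_right⟩) hy
  obtain ⟨uA, huA, hA'⟩ := hA (rs M A x' - y) ((CS M _).sub_mem (rs_mem hx'.1) hyA)
    (by rw [map_sub, h2', sub_self]) (ε / 3) (by positivity)
  obtain ⟨uB, huB, hB'⟩ := hB (x' - rs M A x' + y)
    ((CS M _).add_mem (sub_rs_memY hcov hx'.1) hyB)
    (by rw [map_add, map_sub, hx'.2, h2', zero_sub, neg_add_cancel]) (ε / 3) (by positivity)
  refine ⟨uA + uB, (CS M _).add_mem
    (CS_mono (fun σ h => ⟨h.1, h.2.trans hAY⟩) huA)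
    (CS_mono (fun σ h => ⟨h.1, h.2.trans hBY⟩) huB), ?_⟩
  have h6 : x - dL M ν (uA + uB) = (x - x') + ((rs M A x' - y - dL M ν uA) +
      (x' - rs M A x' + y - dL M ν uB)) := by
    rw [map_add]
    abel
  rw [h6]
  calc _ ≤ ‖x - x'‖ + (‖rs M A x' - y - dL M ν uA‖ + ‖x' - rs M A x' + y - dL M ν uB‖) :=
        (norm_add_le _ _).trans (by gcongr; exact norm_add_le _ _)
    _ < ε := by linarith

/-- **Mayer-Vietoris** in the full subcomplex on `Y`. -/
theorem amY {Y A B : Finset V} {i : ℕ} (hcov : ∀ σ, Sph M σ → σ ⊆ Y → σ ⊆ A ∨ σ ⊆ B)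
    (hAY : A ⊆ Y) (hBY : B ⊆ Y) (hA : VanS M A (i + 1)) (hB : VanS M B (i + 1))
    (hC : VanS M (A ∩ B) i) : VanS M Y (i + 1) :=
  vanS_of_vanL fun ν hν => amLY hcov hAY hBY ν hν (vanL_of_vanS hA ν hν)
    (vanL_of_vanS hB ν hν) (vanL_of_vanS hC ν hν)

/-- **Links in codimension `m`.** If the full subcomplexes of the links of the cliques with `m` vertices have no
reduced `ℓ²`-homology in the degrees `j ≥ i - m`, then there is none in degree `i`. -/
theorem codimY (hfin : ∀ (Y : Finset V) (i : ℕ), 1 ≤ i → (∀ u ∈ Y, ∀ v ∈ Y, M u v ≠ 0) → VanS M Y i) (m : ℕ) :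
    ∀ i : ℕ, m ≤ i → ∀ Y : Finset V,
      (∀ σ ⊆ Y, σ.card = m → (∀ u ∈ σ, ∀ v ∈ σ, M u v ≠ 0) → ∀ Z ⊆ Y,
        (∀ v ∈ Z, v ∉ σ ∧ ∀ u ∈ σ, M u v ≠ 0) → ∀ j, i ≤ j + m → VanS M Z j) →
      VanS M Y i := by
  induction m with
  | zero =>
    intro i _ Y h
    exact h ∅ (empty_subset _) card_empty (fun u hu => absurd hu (notMem_empty u)) Y Subset.rfl
      (fun v _ => ⟨notMem_empty v, fun u hu => absurd hu (notMem_empty u)⟩) i le_rfl
  | succ m ihm =>
    intro i hi Y
    obtain ⟨i, rfl⟩ : ∃ j, i = j + 1 := ⟨i - 1, by omega⟩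
    induction Y using Finset.strongInduction with
    | H Y ihY =>
    intro h
    by_cases hc : ∀ u ∈ Y, ∀ v ∈ Y, M u v ≠ 0
    · exact hfin Y _ (by omega) hc
    push Not at hc
    obtain ⟨u, hu, v, hv, huv⟩ := hc
    have huv' : u ≠ v := by
      rintro rfl
      rw [M.diagonal] at huv
      exact one_ne_zero huv
    -- the vertices of the link
    have hmem : ∀ w, w ∈ Y.filter (fun w => w ≠ u ∧ M u w ≠ 0) ↔ w ∈ Y ∧ w ≠ u ∧ M u w ≠ 0 :=
      fun w => mem_filter
    have hSt : insert u (Y.filter fun w => w ≠ u ∧ M u w ≠ 0) ⊂ Y := by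
      refine (ssubset_iff_of_subset ?_).2 ⟨v, hv, ?_⟩
      · intro w hw
        rcases mem_insert.1 hw with rfl | hw
        · exact hu
        · exact ((hmem w).1 hw).1
      · intro hw
        rcases mem_insert.1 hw with hw | hw
        · exact huv' hw.symm
        · exact ((hmem v).1 hw).2.2 huv
    have hint : (Y.erase u) ∩ insert u (Y.filter fun w => w ≠ u ∧ M u w ≠ 0) =
        Y.filter fun w => w ≠ u ∧ M u w ≠ 0 := by
      ext w
      rw [mem_inter, mem_erase, mem_insert, hmem]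
      constructor
      · rintro ⟨⟨h1, h2⟩, h3 | h3⟩
        · exact absurd h3 h1
        · exact h3
      · intro h3
        exact ⟨⟨h3.2.1, h3.1⟩, Or.inr h3⟩
    have hmono : ∀ Y' ⊂ Y, VanS M Y' (i + 1) := by
      intro Y' hY'
      refine ihY Y' hY' ?_
      intro σ hσ hcard hcl Z hZ hZσ j hj
      exact h σ (hσ.trans hY'.1) hcard hcl Z (hZ.trans hY'.1) hZσ j hj
    refine amY (A := Y.erase u) (B := insert u (Y.filter fun w => w ≠ u ∧ M u w ≠ 0)) ?_
      (erase_subset _ _) hSt.1 (hmono _ (erase_ssubset hu)) (hmono _ hSt) ?_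
    · intro σ hσ hσY
      by_cases huσ : u ∈ σ
      · right
        intro w hw
        by_cases hwu : w = u
        · exact mem_insert.2 (Or.inl hwu)
        · exact mem_insert.2 (Or.inr ((hmem w).2 ⟨hσY hw, hwu,
            (sph_cl M σ hσ u huσ w hw fun h => hwu h.symm).2⟩))
      · left
        intro w hw
        exact mem_erase.2 ⟨fun h => huσ (h ▸ hw), hσY hw⟩
    · rw [hint]
      refine ihm i (by omega) _ ?_
      intro σ hσ hcard hcl Z hZ hZσ j hj
      have huσ : u ∉ σ := fun h => ((hmem u).1 (hσ h)).2.1 rfl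
      refine h (insert u σ) ?_ ?_ ?_ Z ?_ ?_ j (by omega)
      · intro w hw
        rcases mem_insert.1 hw with rfl | hw
        · exact hu
        · exact ((hmem w).1 (hσ hw)).1
      · rw [card_insert_of_notMem huσ, hcard]
      · intro a ha b hb
        rcases mem_insert.1 ha with ha' | ha' <;> rcases mem_insert.1 hb with hb' | hb'
        · rw [ha', hb', M.diagonal]
          exact one_ne_zero
        · rw [ha']
          exact ((hmem b).1 (hσ hb')).2.2
        · rw [hb', M.symmetric]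
          exact ((hmem a).1 (hσ ha')).2.2
        · exact hcl a ha' b hb'
      · intro w hw
        exact ((hmem w).1 (hZ hw)).1
      · intro w hw
        refine ⟨fun h' => ?_, fun a ha => ?_⟩
        · rcases mem_insert.1 h' with rfl | h'
          · exact ((hmem w).1 (hZ hw)).2.1 rfl
          · exact (hZσ w hw).1 h'
        · rcases mem_insert.1 ha with rfl | ha
          · exact ((hmem w).1 (hZ hw)).2.2
          · exact (hZσ w hw).2 a ha

end Pool.Agent.H73.LK
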