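import Pool.Agent.H19.PL.Zig
import Pool.Agent.H4.FC.HodgeL
import Pool.Agent.H4.FC.SphIff
import Pool.Agent.H4.FD.Defs
import Pool.Agent.H85.Fold.Sphere

/-!
# Poincaré duality for the reduced `ℓ²`-homology of Coxeter groups of FC type

`pd`: if the nerve of the Coxeter group of FC type `W` of `M` is a real homology sphere of dimension `n - 1` and
the reduced `ℓ²`-homology of the Davis complex vanishes in degree `j`, then it vanishes in degree `n - j`.
The proof is the one of `Pool.Agent.H19.PD.l2_dual`; the columns of the double complex are exact by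
`Pool.Agent.H19.PL.colL`.
-/

set_option autoImplicit false
set_option linter.unusedSectionVars false

open Finset

namespace Pool.Agent.H73.LK

open Pool.Agent.H85.Fold Pool.Agent.H4.FC Pool.Agent.H19.PL Pool.Agent.H19.PD Pool.Agent.H4.Singer

variable {V : Type} [DecidableEq V] [Fintype V] {M : CoxeterMatrix V}

/-- square summable functions on the group -/
private abbrev LM (M : CoxeterMatrix V) : Type := lp (fun _ : M.Group => ℂ) 2

private theorem pd_mem (g : M.Group) (f : LM M) :
    Memℓp (E := fun _ : M.Group => ℂ) (fun w => f (w * g)) 2 := by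
  rw [l2h_mem_iff]
  exact ((Equiv.mulRight g).summable_iff (f := fun w => ‖f w‖ ^ 2)).2
    ((l2h_mem_iff _).1 (lp.memℓp f))

/-- right translations -/
private noncomputable def RT (M : CoxeterMatrix V) : M.Group →* Module.End ℝ (LM M) where
  toFun g :=
    { toFun := fun f => ⟨fun w => f (w * g), pd_mem g f⟩
      map_add' := fun f f' => by
        ext w
        rfl
      map_smul' := fun r f => by
        ext w
        rfl }
  map_one' := by
    ext f w
    show f (w * 1) = f w
    rw [mul_one]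
  map_mul' g h := by
    ext f w
    show f (w * (g * h)) = f (w * g * h)
    rw [mul_assoc]

private theorem RT_apply (g : M.Group) (f : LM M) (w : M.Group) : (RT M g f) w = f (w * g) := rfl

private theorem RT_inner (v : V) (f g : LM M) :
    inner ℝ (RT M (M.simple v) f) g = inner ℝ f (RT M (M.simple v) g) := by
  rw [lp.inner_eq_tsum, lp.inner_eq_tsum]
  rw [← (Equiv.mulRight (M.simple v)).tsum_eq]
  refine tsum_congr fun w => ?_
  rw [RT_apply, RT_apply, Equiv.coe_mulRight, mul_assoc, simple_sq, mul_one]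

private theorem pd_symU : SymU (RT M) (innerₗ (LM M)) := by
  intro v x y
  simp only [innerₗ_apply_apply]
  exact RT_inner v x y

/-- the sign of an element -/
private noncomputable def sx (M : CoxeterMatrix V) (w : M.Group) : ℂ := ((eps M w : ℤ) : ℂ)

private theorem sx_mul (w : M.Group) (v : V) : sx M (w * M.simple v) = - sx M w := by
  unfold sx
  rw [map_mul, eps_simple]
  push_cast
  ring

private theorem sx_sq (w : M.Group) : sx M w * sx M w = 1 := by
  unfold sx
  exact_mod_cast eps_mul_self M w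

private theorem sx_norm (w : M.Group) : ‖sx M w‖ = 1 := by
  have h1 := congrArg norm (sx_sq (M := M) w)
  rw [norm_mul, norm_one] at h1
  nlinarith [norm_nonneg (sx M w)]

private theorem lm_sum {ι : Type} (s : Finset ι) (f : ι → LM M) (w : M.Group) :
    (∑ v ∈ s, f v) w = ∑ v ∈ s, (f v) w := by
  rw [← l2hEv_apply w, map_sum]
  rfl

/-- the boundary of chains with values in the functions -/
private theorem pd_bd (ν : V → ℕ) (c : Finset V → LM M) (τ : Finset V) (w : M.Group) :
    (bd ν c τ) w = ∑ v ∈ τᶜ, (-1 : ℂ) ^ (τ.filter fun u => ν u < ν v).card *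
      (c (insert v τ)) w := by
  have h1 : bd ν c τ = ∑ v ∈ τᶜ, sgn ν v τ • c (insert v τ) := rfl
  rw [h1, lm_sum]
  refine sum_congr rfl fun v _ => ?_
  have h3 : (sgn ν v τ • c (insert v τ)) w = sgn ν v τ • (c (insert v τ)) w := rfl
  rw [h3]
  unfold sgn
  rw [Complex.real_smul]
  push_cast
  rfl

/-- the antisymmetrization -/
private theorem pd_PS (ρ : Finset V) (f : LM M) (w : M.Group) :
    (PS (RT M) ρ f) w = (1 / ((parF M ρ).card : ℂ)) *
      altS M (MonoidHom.id M.Group) ρ (fun w => f w) w := by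
  rw [PS_apply]
  have h1 : ((1 / ((parF M ρ).card : ℝ)) • ∑ u ∈ parF M ρ, er M u • RT M u f : LM M) w =
      (1 / ((parF M ρ).card : ℝ)) • ((∑ u ∈ parF M ρ, er M u • RT M u f : LM M) w) := rfl
  rw [h1, lm_sum, Complex.real_smul]
  unfold altS
  have h3 : ∑ u ∈ parF M ρ, (er M u • RT M u f : LM M) w =
      ∑ u ∈ parF M ρ, (eps M u : ℂ) * f (w * (MonoidHom.id M.Group) u) := by
    refine sum_congr rfl fun u _ => ?_
    have h2 : (er M u • RT M u f : LM M) w = er M u • (f (w * u)) := rfl
    rw [h2, Complex.real_smul]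
    unfold er
    push_cast
    rfl
  rw [h3]
  push_cast
  rfl

/-- **Poincaré duality.** -/
theorem pd (hM : Pool.Agent.H4.FD.IsFC M) {n i j : ℕ} (hS : IsHomologySphere (gr M) n)
    (hij : i + j = n) (h : Pool.Agent.H4.FC.L2HomologyZero M j) :
    Pool.Agent.H4.FC.L2HomologyZero M i := by
  classical
  intro ν hν z hz hdz ε hε
  refine l2_hodgeL M ν hν i (fun x0 hx0 => ?_) z hz hdz ε hε
  obtain ⟨o, ho⟩ := hS.isSphere ν hν
  have hin : i ≤ n := by omega
  -- the chain with values in the functions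
  obtain ⟨c, hcv⟩ : ∃ c : Finset V → LM M, ∀ σ w, (c σ) w = x0 σ w :=
    ⟨fun σ => ⟨x0 σ, (l2h_mem_iff _).2 (hx0.chain.l2 σ)⟩, fun _ _ => rfl⟩
  have hc : IsF (gr M) (eU (RT M)) ⊤ univ i c := by
    refine ⟨fun _ => Submodule.mem_top, fun σ v hv => ?_, fun σ hσ => ?_⟩
    · rw [eU_zero]
      ext w
      rw [RT_apply, hcv, hx0.chain.anti σ v hv w, ← hcv]
      rfl
    · obtain ⟨w, hw⟩ : ∃ w, (c σ) w ≠ 0 := by
        by_contra hcon
        push Not at hcon
        exact hσ (by
          ext w
          exact hcon w)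
      rw [hcv] at hw
      obtain ⟨h1, h2⟩ := hx0.chain.supp σ w hw
      exact ⟨subset_univ _, sph_cl M σ h1, h2⟩
  have hbd : bd ν c = 0 := by
    funext τ
    ext w
    rw [pd_bd]
    have h1 := congrFun (congrFun hx0.cyc τ) w
    unfold Pool.Agent.H4.FC.dbd at h1
    simp only [hcv]
    exact h1
  have hco : ∀ ρ, Cl (gr M) ρ → ρ.card = i + 1 →
      ∑ v ∈ ρ, sgn ν v ρ • PS (RT M) ρ (c (ρ.erase v)) = 0 := by
    intro ρ h1 h2
    ext w
    rw [lm_sum]
    have h4 := hx0.cocyc ρ w (hM ρ h1) h2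
    have h5 : ∀ v ∈ ρ, (sgn ν v ρ • PS (RT M) ρ (c (ρ.erase v)) : LM M) w =
        (1 / ((parF M ρ).card : ℂ)) * ((-1) ^ ((ρ.erase v).filter fun u => ν u < ν v).card *
          altS M (MonoidHom.id M.Group) ρ (x0 (ρ.erase v)) w) := by
      intro v hv
      have h6 : (sgn ν v ρ • PS (RT M) ρ (c (ρ.erase v)) : LM M) w =
          sgn ν v ρ • ((PS (RT M) ρ (c (ρ.erase v)) : LM M) w) := rfl
      have h7 : (fun w => (c (ρ.erase v)) w) = x0 (ρ.erase v) := funext fun w => hcv _ w
      rw [h6, pd_PS, h7, ← sgn_erase_self]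
      unfold sgn
      rw [Complex.real_smul]
      push_cast
      ring
    rw [sum_congr rfl h5, ← mul_sum, h4, mul_zero]
    rfl
  obtain ⟨x, hx⟩ := exists_res hν ho hc hbd
  obtain ⟨f, hf, hbf, hpr⟩ := zigL hM pd_symU hν ho hin hc hco hx
  -- the pairing vanishes
  have hpr0 : pr (innerₗ (LM M)) x f = 0 := by
    -- the twisted chain
    have hz1 : Pool.Agent.H4.FC.IsL2Chain M j (fun σ w => sx M w * (f σ) w) := by
      refine ⟨fun σ w hne => ?_, fun σ v hv w => ?_, fun σ => ?_⟩
      · have h1 : f σ ≠ 0 := by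
          intro h2
          apply hne
          show sx M w * (f σ) w = 0
          rw [h2]
          exact mul_zero _
        obtain ⟨-, h2, h3⟩ := hf.supp σ h1
        exact ⟨hM σ h2, by omega⟩
      · show sx M (w * M.simple v) * (f σ) (w * M.simple v) = -(sx M w * (f σ) w)
        have h1 := fU_zero.1 (hf.ker σ v hv)
        have h2 : (f σ) (w * M.simple v) = (f σ) w := by
          rw [← RT_apply, h1]
        rw [sx_mul, h2, neg_mul]
      · have h1 : (fun w => ‖sx M w * (f σ) w‖ ^ 2) = fun w => ‖(f σ) w‖ ^ 2 := by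
          funext w
          rw [norm_mul, sx_norm, one_mul]
        rw [h1]
        exact (l2h_mem_iff _).1 (lp.memℓp (f σ))
    have hz2 : Pool.Agent.H4.FC.dbd ν (fun σ w => sx M w * (f σ) w) = 0 := by
      funext τ w
      have h1 : (bd ν f τ) w = 0 := by
        rw [hbf]
        rfl
      rw [pd_bd] at h1
      show ∑ v ∈ τᶜ, (-1 : ℂ) ^ (τ.filter fun u => ν u < ν v).card *
        (sx M w * (f (insert v τ)) w) = 0
      have h2 : ∀ v ∈ τᶜ, (-1 : ℂ) ^ (τ.filter fun u => ν u < ν v).card *
          (sx M w * (f (insert v τ)) w) = sx M w *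
          ((-1 : ℂ) ^ (τ.filter fun u => ν u < ν v).card * (f (insert v τ)) w) := fun v _ => by
        ring
      rw [sum_congr rfl h2, ← mul_sum, h1, mul_zero]
    -- the estimate
    have hest : ∀ δ : ℝ, 0 < δ →
        |pr (innerₗ (LM M)) x f| ≤ (∑ σ : Finset V, ‖x ∅ σ‖) * δ := by
      intro δ hδ
      obtain ⟨y, hy, hyε⟩ := h ν hν _ hz1 hz2 (δ ^ 2) (by positivity)
      obtain ⟨y', hy'v⟩ : ∃ y' : Finset V → LM M, ∀ σ w, (y' σ) w = sx M w * y σ w := by
        refine ⟨fun σ => ⟨fun w => sx M w * y σ w, (l2h_mem_iff _).2 ?_⟩, fun _ _ => rfl⟩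
        have h1 : (fun w => ‖sx M w * y σ w‖ ^ 2) = fun w => ‖y σ w‖ ^ 2 := by
          funext w
          rw [norm_mul, sx_norm, one_mul]
        rw [h1]
        exact hy.l2 σ
      have hy' : IsF (gr M) (fU (RT M)) ⊤ univ (j + 1) y' := by
        refine ⟨fun _ => Submodule.mem_top, fun σ v hv => ?_, fun σ hσ => ?_⟩
        · rw [fU_zero]
          ext w
          rw [RT_apply, hy'v, hy'v, sx_mul, hy.anti σ v hv w, neg_mul_neg]
        · obtain ⟨w, hw⟩ : ∃ w, (y' σ) w ≠ 0 := by
            by_contra hcon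
            push Not at hcon
            exact hσ (by
              ext w
              exact hcon w)
          rw [hy'v] at hw
          obtain ⟨h1, h2⟩ := hy.supp σ w (right_ne_zero_of_mul hw)
          exact ⟨subset_univ _, sph_cl M σ h1, h2⟩
      -- boundaries are orthogonal
      have hb0 : pr (innerₗ (LM M)) x (bd ν y') = 0 := by
        rw [pr_bd_right hx.isD fun σ hσ => ⟨(hy'.supp σ hσ).1, (hy'.supp σ hσ).2.1⟩, ← hx.closed]
        refine sum_eq_zero fun σ _ => ?_
        have h3 : d1 ν x ∅ σ = ∑ v ∈ σ \ ∅, sgn ν v ∅ • x (insert v ∅) σ := rfl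
        rw [h3, map_sum, LinearMap.sum_apply]
        refine sum_eq_zero fun v hv => ?_
        rw [sdiff_empty] at hv
        have h4 := eU_zero.1 (hx.isD.ker (insert v ∅) σ v (mem_insert_self v ∅))
        have h5 := fU_zero.1 (hy'.ker σ v hv)
        have h6 : innerₗ (LM M) (x (insert v ∅) σ) (y' σ) = 0 := by
          have h7 := pd_symU (M := M) v (x (insert v ∅) σ) (y' σ)
          rw [h4, h5, map_neg, LinearMap.neg_apply] at h7
          linarith
        rw [map_smul, LinearMap.smul_apply, h6, smul_zero]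
      have hsub : pr (innerₗ (LM M)) x f = pr (innerₗ (LM M)) x (f - bd ν y') := by
        rw [pr_sub_right, hb0, sub_zero]
      rw [hsub]
      have hle : ∀ σ, ‖(f - bd ν y') σ‖ ≤ δ := by
        intro σ
        have h6 : ‖(f - bd ν y') σ‖ ^ 2 = ∑' w, ‖sx M w * (f σ) w - Pool.Agent.H4.FC.dbd ν y σ w‖ ^ 2 := by
          have h7 := lp.norm_rpow_eq_tsum (p := 2) (by norm_num) ((f - bd ν y') σ)
          have h8 : ‖(f - bd ν y') σ‖ ^ 2 = ∑' w, ‖((f - bd ν y') σ) w‖ ^ 2 := by simpa using h7
          rw [h8]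
          refine tsum_congr fun w => ?_
          have h9 : ((f - bd ν y') σ) w = (f σ) w - (bd ν y' σ) w := rfl
          have h10 : (bd ν y' σ) w = sx M w * Pool.Agent.H4.FC.dbd ν y σ w := by
            rw [pd_bd]
            unfold Pool.Agent.H4.FC.dbd
            rw [mul_sum]
            refine sum_congr rfl fun v _ => ?_
            rw [hy'v]
            ring
          have h11 : sx M w * (f σ) w - Pool.Agent.H4.FC.dbd ν y σ w =
              sx M w * ((f σ) w - sx M w * Pool.Agent.H4.FC.dbd ν y σ w) := by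
            rw [mul_sub, ← mul_assoc, sx_sq, one_mul]
          rw [h9, h10, h11, norm_mul, sx_norm, one_mul]
        have h12 : ‖(f - bd ν y') σ‖ ^ 2 ≤ δ ^ 2 := by
          rw [h6]
          refine le_trans ?_ hyε.le
          exact single_le_sum (f := fun σ => ∑' w, ‖sx M w * (f σ) w - Pool.Agent.H4.FC.dbd ν y σ w‖ ^ 2)
            (fun τ _ => tsum_nonneg fun w => by positivity) (mem_univ σ)
        exact (pow_le_pow_iff_left₀ (norm_nonneg _) hδ.le two_ne_zero).1 h12
      unfold pr
      refine (abs_sum_le_sum_abs _ _).trans ?_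
      rw [sum_mul]
      refine sum_le_sum fun σ _ => ?_
      refine (abs_real_inner_le_norm (x ∅ σ) ((f - bd ν y') σ)).trans ?_
      exact mul_le_mul_of_nonneg_left (hle σ) (norm_nonneg _)
    by_contra hne
    have h1 : 0 < |pr (innerₗ (LM M)) x f| := abs_pos.2 hne
    have h2 : 0 ≤ ∑ σ : Finset V, ‖x ∅ σ‖ := sum_nonneg fun σ _ => norm_nonneg _
    have h3 := hest (|pr (innerₗ (LM M)) x f| / (2 * ((∑ σ : Finset V, ‖x ∅ σ‖) + 1)))
      (by positivity)
    rw [mul_div_assoc', le_div_iff₀ (by positivity)] at h3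
    nlinarith
  rw [hpr0] at hpr
  -- the chain is zero
  have hc0 : ∀ ρ, c ρ = 0 := by
    intro ρ
    have h1 : ∀ ρ ∈ (univ : Finset (Finset V)), 0 ≤ innerₗ (LM M) (c ρ) (c ρ) := fun ρ _ =>
      @real_inner_self_nonneg (LM M) _ _ (c ρ)
    have h2 := (sum_eq_zero_iff_of_nonneg h1).1 hpr.symm ρ (mem_univ _)
    exact inner_self_eq_zero.1 h2
  funext ρ w
  rw [← hcv, hc0]
  rfl

end Pool.Agent.H73.LK
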