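import Pool.Agent.H73.LK.Defs
import Pool.Agent.H4.FC.HodgeL

/-!
# Products: the Künneth formula for the vanishing

`V = A ∪ B`, all labels between `A` and `B` are 2. A harmonic chain is harmonic in the directions of `A` and
of `B`.
-/

set_option autoImplicit false
set_option linter.unusedSectionVars false

open Finset

namespace Pool.Agent.H73.LK

open Pool.Agent.H4.FC
open Pool.Agent.H4.Singer (adjId_summable adjId_comp l2h_mul l2h_sum l2h_add)

variable {V : Type} [Fintype V] [DecidableEq V] {M : CoxeterMatrix V}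

namespace Prd

/-! ### Square summable families -/

/-- square summable families -/
def L2 (f : Finset V → M.Group → ℂ) : Prop := ∀ σ, Summable fun w => ‖f σ w‖ ^ 2

/-- the scalar product -/
noncomputable def ip (f g : Finset V → M.Group → ℂ) : ℂ :=
  ∑ τ, ∑' w, (starRingEnd ℂ) (f τ w) * g τ w

/-- the square of the norm -/
noncomputable def N (f : Finset V → M.Group → ℂ) : ℝ := ∑ τ, ∑' w, ‖f τ w‖ ^ 2

theorem ip_self (f : Finset V → M.Group → ℂ) : ip f f = (N f : ℂ) := by
  unfold ip N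
  push_cast
  refine sum_congr rfl fun τ _ => tsum_congr fun w => ?_
  rw [mul_comm, Complex.mul_conj, Complex.normSq_eq_norm_sq]
  push_cast
  rfl

theorem N_nonneg (f : Finset V → M.Group → ℂ) : 0 ≤ N f :=
  sum_nonneg fun _ _ => tsum_nonneg fun _ => sq_nonneg _

theorem eq_zero_of_N {f : Finset V → M.Group → ℂ} (hf : L2 f) (h : N f ≤ 0) (τ : Finset V)
    (w : M.Group) : f τ w = 0 := by
  have h1 : N f = 0 := le_antisymm h (N_nonneg f)
  have h2 := (sum_eq_zero_iff_of_nonneg fun τ _ => tsum_nonneg fun w => sq_nonneg ‖f τ w‖).1 h1 τ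
    (mem_univ τ)
  have h3 : ‖f τ w‖ ^ 2 ≤ ∑' w, ‖f τ w‖ ^ 2 :=
    (hf τ).le_tsum w fun _ _ => sq_nonneg _
  rw [h2] at h3
  have h4 : ‖f τ w‖ = 0 := by nlinarith [norm_nonneg (f τ w)]
  exact norm_eq_zero.1 h4

theorem ip_conj (f g : Finset V → M.Group → ℂ) : ip g f = (starRingEnd ℂ) (ip f g) := by
  unfold ip
  rw [map_sum]
  refine sum_congr rfl fun τ _ => ?_
  rw [Complex.conj_tsum]
  refine tsum_congr fun w => ?_
  rw [map_mul, Complex.conj_conj, mul_comm]

theorem ip_add {f g h : Finset V → M.Group → ℂ} (hf : L2 f) (hg : L2 g) (hh : L2 h) :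
    ip f (fun τ w => g τ w + h τ w) = ip f g + ip f h := by
  unfold ip
  rw [← sum_add_distrib]
  refine sum_congr rfl fun τ _ => ?_
  rw [← (adjId_summable (hf τ) (hg τ)).tsum_add (adjId_summable (hf τ) (hh τ))]
  exact tsum_congr fun w => mul_add _ _ _

theorem ip_neg_right (f g : Finset V → M.Group → ℂ) : ip f (fun τ w => -g τ w) = -ip f g := by
  unfold ip
  rw [← sum_neg_distrib]
  refine sum_congr rfl fun τ _ => ?_
  rw [← tsum_neg]
  exact tsum_congr fun w => mul_neg _ _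

theorem ip_neg_left (f g : Finset V → M.Group → ℂ) : ip (fun τ w => -f τ w) g = -ip f g := by
  unfold ip
  rw [← sum_neg_distrib]
  refine sum_congr rfl fun τ _ => ?_
  rw [← tsum_neg]
  refine tsum_congr fun w => ?_
  rw [map_neg, neg_mul]

theorem N_sub {f g : Finset V → M.Group → ℂ} (hf : L2 f) (hg : L2 g) (h : ip f g = 0) :
    N (fun τ w => f τ w - g τ w) = N f + N g := by
  have h1 : N (fun τ w => f τ w - g τ w) = N f + N g - 2 * (ip f g).re := by
    unfold N ip
    rw [Complex.re_sum, mul_sum, ← sum_add_distrib, ← sum_sub_distrib]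
    refine sum_congr rfl fun τ _ => ?_
    have hs := adjId_summable (hf τ) (hg τ)
    rw [Complex.re_tsum hs, ← tsum_mul_left, ← (hf τ).tsum_add (hg τ),
      ← ((hf τ).add (hg τ)).tsum_sub ((Complex.hasSum_re hs.hasSum).summable.mul_left 2)]
    refine tsum_congr fun w => ?_
    rw [← Complex.normSq_eq_norm_sq, ← Complex.normSq_eq_norm_sq, ← Complex.normSq_eq_norm_sq,
      Complex.normSq_sub]
    have h2 : ((starRingEnd ℂ) (f τ w) * g τ w).re = (f τ w * (starRingEnd ℂ) (g τ w)).re := by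
      simp only [Complex.mul_re, Complex.conj_re, Complex.conj_im]
      ring
    rw [h2]
  rw [h1, h, Complex.zero_re, mul_zero, sub_zero]

/-! ### The operators -/

/-- the sign -/
noncomputable def s1 (ν : V → ℕ) (τ : Finset V) (v : V) : ℂ :=
  (-1 : ℂ) ^ (τ.filter fun u => ν u < ν v).card

theorem s1_conj (ν : V → ℕ) (τ : Finset V) (v : V) : (starRingEnd ℂ) (s1 ν τ v) = s1 ν τ v := by
  unfold s1
  rw [map_pow, map_neg, map_one]

theorem s1_sq (ν : V → ℕ) (τ : Finset V) (v : V) : s1 ν τ v * s1 ν τ v = 1 := by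
  unfold s1
  rw [← mul_pow]
  norm_num

/-- the boundary in the directions of `Y` -/
noncomputable def D (Y : Finset V) (ν : V → ℕ) (x : Finset V → M.Group → ℂ) (τ : Finset V)
    (w : M.Group) : ℂ := ∑ v ∈ Y \ τ, s1 ν τ v * x (insert v τ) w

/-- the projection to the antisymmetric functions -/
noncomputable def Pn (M : CoxeterMatrix V) (σ : Finset V) (f : M.Group → ℂ) (w : M.Group) : ℂ :=
  (1 / ((parF M σ).card : ℂ)) * altS M (MonoidHom.id M.Group) σ f w

/-- the coboundary in the directions of `Y` -/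
noncomputable def C (Y : Finset V) (ν : V → ℕ) (x : Finset V → M.Group → ℂ) (ρ : Finset V)
    (w : M.Group) : ℂ := ∑ v ∈ ρ ∩ Y, s1 ν (ρ.erase v) v * Pn M (ρ ∩ Y) (x (ρ.erase v)) w

theorem Pn_eq (σ : Finset V) (f : M.Group → ℂ) (w : M.Group) :
    Pn M σ f w = (1 / ((parF M σ).card : ℂ)) * ∑ u ∈ parF M σ, (eps M u : ℂ) * f (w * u) := rfl

theorem Pn_l2 (σ : Finset V) {f : M.Group → ℂ} (hf : Summable fun w => ‖f w‖ ^ 2) :
    Summable fun w => ‖Pn M σ f w‖ ^ 2 := by
  simp only [Pn_eq]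
  exact l2h_mul _ (l2h_sum _ _ fun u _ => l2h_mul _ (adjId_comp (Equiv.mulRight u) hf))

theorem D_l2 (Y : Finset V) (ν : V → ℕ) {x : Finset V → M.Group → ℂ} (hx : L2 x) :
    L2 (D Y ν x) := fun _ => l2h_sum _ _ fun _ _ => l2h_mul _ (hx _)

theorem C_l2 (Y : Finset V) (ν : V → ℕ) {x : Finset V → M.Group → ℂ} (hx : L2 x) :
    L2 (C Y ν x) := fun _ => l2h_sum _ _ fun _ _ => l2h_mul _ (Pn_l2 _ (hx _))

theorem Pn_adj {σ : Finset V} {f g : M.Group → ℂ} (hf : Summable fun x => ‖f x‖ ^ 2)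
    (hg : Summable fun x => ‖g x‖ ^ 2) (hσ : Sph M σ)
    (hanti : ∀ v ∈ σ, ∀ x, g (x * M.simple v) = - g x) :
    ∑' x, (starRingEnd ℂ) (Pn M σ f x) * g x = ∑' x, (starRingEnd ℂ) (f x) * g x := by
  have hc : ((parF M σ).card : ℂ) ≠ 0 := Nat.cast_ne_zero.2 (parF_card_pos hσ).ne'
  have h1 : ∀ x, (starRingEnd ℂ) (Pn M σ f x) * g x = (1 / ((parF M σ).card : ℂ)) *
      ∑ u ∈ parF M σ, (eps M u : ℂ) * ((starRingEnd ℂ) (f (x * u)) * g x) := by
    intro x
    rw [Pn_eq, map_mul, map_sum, mul_assoc, sum_mul, map_div₀, map_one, Complex.conj_natCast]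
    congr 1
    refine sum_congr rfl fun u _ => ?_
    rw [map_mul, map_intCast]
    ring
  have h2 : ∀ u : M.Group, Summable fun x => (starRingEnd ℂ) (f (x * u)) * g x :=
    fun u => adjId_summable (adjId_comp (Equiv.mulRight u) hf) hg
  have h3 : ∀ u ∈ parF M σ, ∑' x, (eps M u : ℂ) * ((starRingEnd ℂ) (f (x * u)) * g x) =
      ∑' x, (starRingEnd ℂ) (f x) * g x := by
    intro u hu
    have hu' := (mem_parF hσ u).1 hu
    rw [← (Equiv.mulRight u).tsum_eq fun x => (starRingEnd ℂ) (f x) * g x]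
    refine tsum_congr fun x => ?_
    have h4 := anti_ext M σ (MonoidHom.id M.Group) g hanti u hu' x
    rw [MonoidHom.id_apply] at h4
    rw [Equiv.coe_mulRight, h4]
    ring
  rw [tsum_congr h1, tsum_mul_left, Summable.tsum_finsetSum fun u _ => (h2 u).mul_left _,
    sum_congr rfl h3, sum_const, nsmul_eq_mul, ← mul_assoc, one_div, inv_mul_cancel₀ hc, one_mul]

/-- the adjoint of `D` -/
theorem ip_D (Y : Finset V) (ν : V → ℕ) {h c : Finset V → M.Group → ℂ} (hh : L2 h) (hc : L2 c)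
    (hsph : ∀ ρ, c ρ ≠ 0 → Sph M (ρ ∩ Y))
    (hanti : ∀ ρ, ∀ v ∈ ρ ∩ Y, ∀ w, c ρ (w * M.simple v) = - c ρ w) :
    ip h (D Y ν c) = ip (C Y ν h) c := by
  have h1 : ∀ τ : Finset V, ∑' w, (starRingEnd ℂ) (h τ w) * D Y ν c τ w =
      ∑ v ∈ Y \ τ, s1 ν τ v * ∑' w, (starRingEnd ℂ) (h τ w) * c (insert v τ) w := by
    intro τ
    have e1 : ∀ w, (starRingEnd ℂ) (h τ w) * D Y ν c τ w =
        ∑ v ∈ Y \ τ, s1 ν τ v * ((starRingEnd ℂ) (h τ w) * c (insert v τ) w) := by
      intro w
      unfold D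
      rw [mul_sum]
      exact sum_congr rfl fun v _ => by ring
    rw [tsum_congr e1, Summable.tsum_finsetSum fun v _ => (adjId_summable (hh τ) (hc _)).mul_left _]
    exact sum_congr rfl fun v _ => tsum_mul_left
  have h2 : ∀ ρ : Finset V, ∑' w, (starRingEnd ℂ) (C Y ν h ρ w) * c ρ w =
      ∑ v ∈ ρ ∩ Y, s1 ν (ρ.erase v) v * ∑' w, (starRingEnd ℂ) (h (ρ.erase v) w) * c ρ w := by
    intro ρ
    by_cases hcρ : c ρ = 0
    · simp [hcρ]
    have hρ := hsph ρ hcρ
    have e1 : ∀ w, (starRingEnd ℂ) (C Y ν h ρ w) * c ρ w =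
        ∑ v ∈ ρ ∩ Y, s1 ν (ρ.erase v) v *
          ((starRingEnd ℂ) (Pn M (ρ ∩ Y) (h (ρ.erase v)) w) * c ρ w) := by
      intro w
      unfold C
      rw [map_sum, sum_mul]
      refine sum_congr rfl fun v _ => ?_
      rw [map_mul, s1_conj]
      ring
    rw [tsum_congr e1, Summable.tsum_finsetSum fun v _ =>
      (adjId_summable (Pn_l2 _ (hh (ρ.erase v))) (hc ρ)).mul_left _]
    refine sum_congr rfl fun v _ => ?_
    rw [tsum_mul_left, Pn_adj (hh (ρ.erase v)) (hc ρ) hρ fun v hv x => hanti ρ v hv x]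
  unfold ip
  rw [sum_congr rfl fun τ _ => h1 τ, sum_congr rfl fun ρ _ => h2 ρ, sum_sigma', sum_sigma']
  refine sum_bij' (fun p _ => ⟨insert p.2 p.1, p.2⟩) (fun p _ => ⟨p.1.erase p.2, p.2⟩)
    ?_ ?_ ?_ ?_ ?_
  · rintro ⟨τ, v⟩ hp
    simp only [mem_sigma, mem_univ, mem_sdiff, true_and] at hp
    simp [hp.1]
  · rintro ⟨ρ, v⟩ hp
    simp only [mem_sigma, mem_univ, mem_inter, true_and] at hp
    simp [hp.2]
  · rintro ⟨τ, v⟩ hp
    simp only [mem_sigma, mem_univ, mem_sdiff, true_and] at hp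
    simp [erase_insert hp.2]
  · rintro ⟨ρ, v⟩ hp
    simp only [mem_sigma, mem_univ, mem_inter, true_and] at hp
    simp [insert_erase hp.1]
  · rintro ⟨τ, v⟩ hp
    simp only [mem_sigma, mem_univ, mem_sdiff, true_and] at hp
    simp only [erase_insert hp.2]

/-! ### Products -/

section

variable {A B : Finset V}

theorem simple_comm {u v : V} (h : M u v = 2) : M.simple u * M.simple v = M.simple v * M.simple u := by
  have h1 := M.toCoxeterSystem.simple_mul_simple_pow u v
  rw [h, pow_two, M.toCoxeterSystem_simple] at h1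
  have h2 := eq_inv_of_mul_eq_one_left h1
  rwa [mul_inv_rev, simple_inv, simple_inv] at h2

theorem par_comm {σ : Finset V} {v : V} (h : ∀ u ∈ σ, M u v = 2) {u : M.Group}
    (hu : u ∈ par M σ) : u * M.simple v = M.simple v * u := by
  refine par_induction M σ (p := fun u => u * M.simple v = M.simple v * u) ?_ ?_ u hu
  · rw [one_mul, mul_one]
  · intro a ha w hw
    rw [mul_assoc, hw, ← mul_assoc, simple_comm (h a ha), mul_assoc]

theorem sph_union {σ τ : Finset V} (h : ∀ u ∈ σ, ∀ v ∈ τ, M u v = 2) (hσ : Sph M σ)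
    (hτ : Sph M τ) : Sph M (σ ∪ τ) := by
  have h1 : (par M (σ ∪ τ) : Set M.Group) ⊆
      (fun p : M.Group × M.Group => p.1 * p.2) '' ((par M σ : Set M.Group) ×ˢ (par M τ)) := by
    intro w hw
    refine par_induction M (σ ∪ τ) (p := fun w => w ∈ (fun p : M.Group × M.Group => p.1 * p.2) ''
      ((par M σ : Set M.Group) ×ˢ (par M τ))) ?_ ?_ w hw
    · exact ⟨(1, 1), ⟨one_mem _, one_mem _⟩, one_mul 1⟩
    · rintro v hv w ⟨⟨a, b⟩, ⟨ha, hb⟩, rfl⟩
      rcases mem_union.1 hv with hv | hv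
      · exact ⟨(M.simple v * a, b), ⟨mul_mem (simple_mem_par M hv) ha, hb⟩, mul_assoc _ _ _⟩
      · refine ⟨(a, M.simple v * b), ⟨ha, mul_mem (simple_mem_par M hv) hb⟩, ?_⟩
        show a * (M.simple v * b) = M.simple v * (a * b)
        rw [← mul_assoc, par_comm (fun u hu => h u hu v hv) ha, mul_assoc]
  have h2 : (par M (σ ∪ τ) : Set M.Group).Finite := by
    refine Set.Finite.subset (Set.Finite.image _ (Set.Finite.prod ?_ ?_)) h1
    · have : Finite (par M σ) := hσ
      exact Set.toFinite _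
    · have : Finite (par M τ) := hτ
      exact Set.toFinite _
  exact h2.to_subtype

theorem Pn_mul {σ : Finset V} (hσ : Sph M σ) {v : V} (h : ∀ u ∈ σ, M u v = 2) {f : M.Group → ℂ}
    (hf : ∀ w, f (w * M.simple v) = -f w) (w : M.Group) :
    Pn M σ f (w * M.simple v) = -Pn M σ f w := by
  rw [Pn_eq, Pn_eq, ← mul_neg, ← sum_neg_distrib]
  congr 1
  refine sum_congr rfl fun u hu => ?_
  rw [mul_assoc, ← par_comm h ((mem_parF hσ u).1 hu), ← mul_assoc, hf, mul_neg]

theorem Pn_anti {σ : Finset V} (hσ : Sph M σ) {v : V} (hv : v ∈ σ) (f : M.Group → ℂ)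
    (w : M.Group) : Pn M σ f (w * M.simple v) = -Pn M σ f w := by
  unfold Pn
  have h1 := altS_anti M (MonoidHom.id M.Group) hσ f hv w
  rw [MonoidHom.id_apply] at h1
  rw [h1, mul_neg]

theorem Pn_not {σ : Finset V} (hσ : ¬ Sph M σ) (f : M.Group → ℂ) (w : M.Group) :
    Pn M σ f w = 0 := by
  have h1 : parF M σ = ∅ := by
    unfold parF
    rw [dif_neg]
    intro h
    exact hσ h.to_subtype
  rw [Pn_eq, h1, sum_empty, mul_zero]

theorem Pn_zero {σ : Finset V} {f : M.Group → ℂ} (hf : f = 0) (w : M.Group) :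
    Pn M σ f w = 0 := by
  rw [Pn_eq, hf]
  simp

theorem Pn_lin {σ : Finset V} {ι : Type} (s : Finset ι) (a : ι → ℂ) (f : ι → M.Group → ℂ)
    (w : M.Group) : Pn M σ (fun w => ∑ i ∈ s, a i * f i w) w = ∑ i ∈ s, a i * Pn M σ (f i) w := by
  simp only [Pn_eq, mul_sum]
  rw [sum_comm]
  refine sum_congr rfl fun i _ => sum_congr rfl fun u _ => ?_
  ring

/-- the coboundary of a chain is a chain -/
theorem C_chain (hu : A ∪ B = univ) (h2 : ∀ u ∈ A, ∀ v ∈ B, M u v = 2) (ν : V → ℕ) {i : ℕ}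
    {x : Finset V → M.Group → ℂ} (hx : IsL2Chain M i x) : IsL2Chain M (i + 1) (C B ν x) := by
  have hAB : ∀ ρ : Finset V, ∀ v ∈ ρ, v ∉ B → v ∈ A := by
    intro ρ v _ hv
    have h3 : v ∈ A ∪ B := hu ▸ mem_univ v
    exact (mem_union.1 h3).resolve_right hv
  refine ⟨fun ρ w h => ?_, fun ρ v hv w => ?_, C_l2 B ν hx.l2⟩
  · obtain ⟨v, hv, h3⟩ := exists_ne_zero_of_sum_ne_zero h
    have h4 := right_ne_zero_of_mul h3
    obtain ⟨hvρ, hvB⟩ := mem_inter.1 hv
    have hsB : Sph M (ρ ∩ B) := by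
      by_contra h5
      exact h4 (Pn_not h5 _ w)
    have hx0 : x (ρ.erase v) ≠ 0 := fun h5 => h4 (Pn_zero h5 w)
    obtain ⟨w', hw'⟩ := Function.ne_iff.1 hx0
    obtain ⟨h6, h7⟩ := hx.supp _ _ hw'
    refine ⟨?_, ?_⟩
    · have hsA : Sph M (ρ \ B) := h6.mono fun u hu => by
        obtain ⟨h8, h9⟩ := mem_sdiff.1 hu
        exact mem_erase.2 ⟨fun h => h9 (h ▸ hvB), h8⟩
      have h8 := sph_union (fun u hu v hv => h2 u (hAB ρ u (mem_sdiff.1 hu).1 (mem_sdiff.1 hu).2) v
        (mem_inter.1 hv).2) hsA hsB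
      have h9 : ρ \ B ∪ ρ ∩ B = ρ := sdiff_union_inter ρ B
      rwa [h9] at h8
    · rw [card_erase_of_mem hvρ] at h7
      have := card_pos.2 ⟨v, hvρ⟩
      omega
  · unfold C
    rw [← sum_neg_distrib]
    refine sum_congr rfl fun v' hv' => ?_
    rw [← mul_neg]
    congr 1
    by_cases hs : Sph M (ρ ∩ B)
    · by_cases hvB : v ∈ B
      · exact Pn_anti hs (mem_inter.2 ⟨hv, hvB⟩) _ w
      · have hvA := hAB ρ v hv hvB
        refine Pn_mul hs (fun u hu => ?_) (fun w => ?_) w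
        · rw [M.symmetric]
          exact h2 v hvA u (mem_inter.1 hu).2
        · refine hx.anti _ v (mem_erase.2 ⟨fun h => hvB (h ▸ (mem_inter.1 hv').2), hv⟩) w
    · rw [Pn_not hs, Pn_not hs, neg_zero]

theorem s1_swap {ν : V → ℕ} (hν : Function.Injective ν) {ρ : Finset V} {u v : V} (hu : u ∉ ρ)
    (hv : v ∉ ρ) (huv : u ≠ v) :
    s1 ν (insert v ρ) u * s1 ν (insert u ρ) v = -(s1 ν ρ v * s1 ν ρ u) := by
  unfold s1
  rw [filter_insert, filter_insert]
  rcases lt_or_gt_of_ne (fun h => huv (hν h) : ν u ≠ ν v) with h | h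
  · rw [if_pos h, if_neg (not_lt.2 h.le), card_insert_of_notMem (fun h1 => hu (mem_filter.1 h1).1)]
    ring
  · rw [if_neg (not_lt.2 h.le), if_pos h, card_insert_of_notMem (fun h1 => hv (mem_filter.1 h1).1)]
    ring

/-- the cross terms cancel -/
theorem DC (hd : Disjoint A B) {ν : V → ℕ} (hν : Function.Injective ν)
    (x : Finset V → M.Group → ℂ) (τ : Finset V) (w : M.Group) :
    C B ν (D A ν x) τ w = -D A ν (C B ν x) τ w := by
  have h1 : C B ν (D A ν x) τ w = ∑ v ∈ τ ∩ B, ∑ u ∈ A \ τ, s1 ν (τ.erase v) v *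
      (s1 ν (τ.erase v) u * Pn M (τ ∩ B) (x (insert u (τ.erase v))) w) := by
    unfold C
    refine sum_congr rfl fun v hv => ?_
    obtain ⟨hvτ, hvB⟩ := mem_inter.1 hv
    have h2 : A \ τ.erase v = A \ τ := by
      ext u
      simp only [mem_sdiff, mem_erase, not_and]
      constructor
      · rintro ⟨hu, h3⟩
        exact ⟨hu, h3 fun h => disjoint_left.1 hd hu (h ▸ hvB)⟩
      · rintro ⟨hu, h3⟩
        exact ⟨hu, fun _ => h3⟩
    have h3 : D A ν x (τ.erase v) = fun w => ∑ u ∈ A \ τ, s1 ν (τ.erase v) u *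
        x (insert u (τ.erase v)) w := by
      funext w
      unfold D
      rw [h2]
    rw [h3, Pn_lin, mul_sum]
  have h2 : D A ν (C B ν x) τ w = ∑ u ∈ A \ τ, ∑ v ∈ τ ∩ B, s1 ν τ u *
      (s1 ν (insert u (τ.erase v)) v * Pn M (τ ∩ B) (x (insert u (τ.erase v))) w) := by
    unfold D C
    refine sum_congr rfl fun u hu => ?_
    obtain ⟨huA, huτ⟩ := mem_sdiff.1 hu
    have huB : u ∉ B := disjoint_left.1 hd huA
    rw [insert_inter_of_notMem huB, mul_sum]
    refine sum_congr rfl fun v hv => ?_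
    have huv : u ≠ v := fun h => huB (h ▸ (mem_inter.1 hv).2)
    rw [erase_insert_of_ne huv]
  rw [h1, h2, sum_comm, ← sum_neg_distrib]
  refine sum_congr rfl fun u hu => ?_
  rw [← sum_neg_distrib]
  refine sum_congr rfl fun v hv => ?_
  obtain ⟨huA, huτ⟩ := mem_sdiff.1 hu
  obtain ⟨hvτ, hvB⟩ := mem_inter.1 hv
  have huv : u ≠ v := fun h => disjoint_left.1 hd huA (h ▸ hvB)
  have h3 := s1_swap hν (ρ := τ.erase v) (u := u) (v := v) (fun h => huτ (mem_of_mem_erase h))
    (notMem_erase v τ) huv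
  rw [insert_erase hvτ] at h3
  linear_combination (Pn M (τ ∩ B) (x (insert u (τ.erase v))) w) * h3

theorem dbd_eq (hd : Disjoint A B) (hu : A ∪ B = univ) (ν : V → ℕ)
    (x : Finset V → M.Group → ℂ) (τ : Finset V) (w : M.Group) :
    dbd ν x τ w = D A ν x τ w + D B ν x τ w := by
  have h1 : τᶜ = (A \ τ) ∪ (B \ τ) := by
    rw [← union_sdiff_distrib, hu]
    ext v
    simp
  unfold dbd D s1
  rw [h1, sum_union (hd.mono sdiff_subset sdiff_subset)]

/-- a harmonic chain is harmonic in both directions -/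
theorem harm (hd : Disjoint A B) (hu : A ∪ B = univ) (h2 : ∀ u ∈ A, ∀ v ∈ B, M u v = 2)
    {ν : V → ℕ} (hν : Function.Injective ν) {i : ℕ} {x : Finset V → M.Group → ℂ}
    (hx : IsHarmL M ν i x) :
    (∀ τ w, D A ν x τ w = 0) ∧ (∀ τ w, C A ν x τ w = 0) ∧ (∀ τ w, D B ν x τ w = 0) ∧
      ∀ τ w, C B ν x τ w = 0 := by
  have hxc := hx.chain
  have hx2 : L2 x := hxc.l2
  have h2' : ∀ u ∈ B, ∀ v ∈ A, M u v = 2 := fun u hu v hv => by
    rw [M.symmetric]
    exact h2 v hv u hu
  have hCA : IsL2Chain M (i + 1) (C A ν x) :=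
    C_chain (A := B) (B := A) (by rw [union_comm]; exact hu) h2' ν hxc
  have hCB : IsL2Chain M (i + 1) (C B ν x) := C_chain hu h2 ν hxc
  have adj : ∀ (Y : Finset V) {h c : Finset V → M.Group → ℂ} {j : ℕ}, L2 h → IsL2Chain M j c →
      ip h (D Y ν c) = ip (C Y ν h) c := by
    intro Y h c j hh hc
    refine ip_D Y ν hh hc.l2 (fun ρ hρ => ?_) fun ρ v hv w => hc.anti ρ v (mem_inter.1 hv).1 w
    obtain ⟨w, hw⟩ := Function.ne_iff.1 hρ
    exact (hc.supp ρ w hw).1.mono inter_subset_left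
  -- the coboundary
  set y : Finset V → M.Group → ℂ := fun τ w => C A ν x τ w + C B ν x τ w with hy
  have hyc : IsL2Chain M (i + 1) y := by
    refine ⟨fun σ w h => ?_, fun σ v hv w => ?_, fun σ => l2h_add (hCA.l2 σ) (hCB.l2 σ)⟩
    · by_cases h3 : C A ν x σ w = 0
      · refine hCB.supp σ w fun h4 => h ?_
        rw [hy]
        beta_reduce
        rw [h3, h4, add_zero]
      · exact hCA.supp σ w h3
    · rw [hy]
      beta_reduce
      rw [hCA.anti σ v hv w, hCB.anti σ v hv w]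
      ring
  have hxy : ip x (dbd ν y) = 0 := by
    have h3 := adj_identityL M (MonoidHom.id M.Group) ν x y hx2 hyc.l2 (fun ρ hρ => by
      obtain ⟨w, hw⟩ := Function.ne_iff.1 hρ
      exact (hyc.supp ρ w hw).1) (fun ρ v hv w => hyc.anti ρ v hv w)
    have h4 : ip x (dbd ν y) = ∑ τ : Finset V, ∑' w, (starRingEnd ℂ) (x τ w) *
        (∑ v ∈ τᶜ, (-1 : ℂ) ^ (τ.filter fun u => ν u < ν v).card * y (insert v τ) w) := rfl
    rw [h4, h3]
    refine sum_eq_zero fun ρ _ => ?_
    have h5 : ∀ w, (starRingEnd ℂ) (∑ v ∈ ρ, (-1 : ℂ) ^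
        ((ρ.erase v).filter fun u => ν u < ν v).card *
          altS M (MonoidHom.id M.Group) ρ (x (ρ.erase v)) w) * y ρ w = 0 := by
      intro w
      by_cases h6 : y ρ w = 0
      · rw [h6, mul_zero]
      · obtain ⟨h7, h8⟩ := hyc.supp ρ w h6
        rw [hx.cocyc ρ w h7 h8, map_zero, zero_mul]
    rw [tsum_congr h5, tsum_zero, mul_zero]
  have hyy : N y = 0 := by
    have h3 : dbd ν y = fun τ w => D A ν y τ w + D B ν y τ w :=
      funext fun τ => funext fun w => dbd_eq hd hu ν y τ w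
    have h4 : ip (C A ν x) y + ip (C B ν x) y = ip y y := by
      have h5 : ∀ f : Finset V → M.Group → ℂ, ip f y = (starRingEnd ℂ) (ip y f) := fun f => ip_conj y f
      have h6 : ip y y = ip y (C A ν x) + ip y (C B ν x) := by
        conv_lhs => rw [hy]
        exact ip_add hyc.l2 hCA.l2 hCB.l2
      rw [h5, h5, ← map_add, ← h6, ← ip_conj]
    rw [h3, ip_add hx2 (D_l2 A ν hyc.l2) (D_l2 B ν hyc.l2), adj A hx2 hyc, adj B hx2 hyc, h4,
      ip_self] at hxy
    exact_mod_cast hxy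
  have hy0 : ∀ τ w, C A ν x τ w = -C B ν x τ w := by
    intro τ w
    have h3 := eq_zero_of_N hyc.l2 hyy.le τ w
    rw [hy] at h3
    exact eq_neg_of_add_eq_zero_left h3
  have hd0 : ∀ τ w, D B ν x τ w = -D A ν x τ w := by
    intro τ w
    have h3 : dbd ν x τ w = 0 := congrFun (congrFun hx.cyc τ) w
    rw [dbd_eq hd hu] at h3
    exact eq_neg_of_add_eq_zero_right h3
  -- the main computation
  have hmain : ip (D A ν x) (D B ν x) = (starRingEnd ℂ) (ip (C B ν x) (C B ν x)) := by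
    rw [adj B (D_l2 A ν hx2) hxc]
    have h3 : C B ν (D A ν x) = fun τ w => -D A ν (C B ν x) τ w :=
      funext fun τ => funext fun w => DC hd hν x τ w
    rw [h3, ip_neg_left, ip_conj x, adj A hx2 hCB]
    have h4 : C A ν x = fun τ w => -C B ν x τ w := funext fun τ => funext fun w => hy0 τ w
    rw [h4, ip_neg_left, map_neg, neg_neg]
  have h3 : D B ν x = fun τ w => -D A ν x τ w := funext fun τ => funext fun w => hd0 τ w
  rw [h3, ip_neg_right, ip_self, ip_self, Complex.conj_ofReal] at hmain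
  have h4 : -N (D A ν x) = N (C B ν x) := by exact_mod_cast hmain
  have h5 := N_nonneg (D A ν x)
  have h6 := N_nonneg (C B ν x)
  have hA0 : ∀ τ w, D A ν x τ w = 0 := eq_zero_of_N (D_l2 A ν hx2) (by linarith)
  have hB0 : ∀ τ w, C B ν x τ w = 0 := eq_zero_of_N (C_l2 B ν hx2) (by linarith)
  refine ⟨hA0, fun τ w => ?_, fun τ w => ?_, hB0⟩
  · rw [hy0, hB0, neg_zero]
  · rw [hd0, hA0, neg_zero]

/-! ### One direction -/

/-- the sign of a set -/
noncomputable def kp (ν : V → ℕ) (R σ : Finset V) : ℂ := ∏ u ∈ σ, s1 ν R u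

theorem kp_sq (ν : V → ℕ) (R σ : Finset V) : kp ν R σ * kp ν R σ = 1 := by
  unfold kp
  rw [← prod_mul_distrib]
  exact prod_eq_one fun u _ => s1_sq ν R u

theorem kp_conj (ν : V → ℕ) (R σ : Finset V) : (starRingEnd ℂ) (kp ν R σ) = kp ν R σ := by
  unfold kp
  rw [map_prod]
  exact prod_congr rfl fun u _ => s1_conj ν R u

theorem kp_insert (ν : V → ℕ) (R : Finset V) {σ : Finset V} {v : V} (hv : v ∉ σ) :
    kp ν R (insert v σ) = s1 ν R v * kp ν R σ := by
  unfold kp
  rw [prod_insert hv]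

theorem s1_union (ν : V → ℕ) {σ R : Finset V} (h : Disjoint σ R) (v : V) :
    s1 ν (σ ∪ R) v = s1 ν σ v * s1 ν R v := by
  unfold s1
  rw [filter_union, card_union_of_disjoint (disjoint_filter_filter h), pow_add]

theorem reidx (hd : Disjoint A B) (hu : A ∪ B = univ) {R : Finset V} (hR : R ⊆ B)
    (F : Finset V → ℂ) :
    ∑ τ, (if τ ∩ B = R then F τ else 0) = ∑ σ, (if σ ⊆ A then F (σ ∪ R) else 0) := by
  rw [← sum_filter, ← sum_filter]
  have h1 : ∀ τ : Finset V, τ ∩ B = R → τ ∩ A ∪ R = τ := by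
    rintro τ rfl
    rw [← inter_union_distrib_left, hu, inter_univ]
  refine sum_bij' (fun τ _ => τ ∩ A) (fun σ _ => σ ∪ R) ?_ ?_ ?_ ?_ ?_
  · intro τ _
    exact mem_filter.2 ⟨mem_univ _, inter_subset_right⟩
  · intro σ hσ
    have h2 := (mem_filter.1 hσ).2
    refine mem_filter.2 ⟨mem_univ _, ?_⟩
    rw [union_inter_distrib_right, inter_eq_left.2 hR,
      disjoint_iff_inter_eq_empty.1 (hd.mono_left h2), empty_union]
  · intro τ hτ
    exact h1 τ (mem_filter.1 hτ).2
  · intro σ hσ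
    have h2 := (mem_filter.1 hσ).2
    rw [union_inter_distrib_right, inter_eq_left.2 h2,
      disjoint_iff_inter_eq_empty.1 (hd.symm.mono_left hR), union_empty]
  · intro τ hτ
    rw [h1 τ (mem_filter.1 hτ).2]

/-- a chain which is harmonic in the directions of `A` vanishes on the types with `p` elements in `A` -/
theorem one_dir (hd : Disjoint A B) (hu : A ∪ B = univ) {ν : V → ℕ} (hν : Function.Injective ν)
    {i : ℕ} {x : Finset V → M.Group → ℂ} (hx : IsL2Chain M i x) (hD : ∀ τ w, D A ν x τ w = 0)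
    (hC : ∀ τ w, C A ν x τ w = 0) {p : ℕ} (hp : VanS M A p) {R : Finset V} (hR : R ⊆ B)
    (hRp : p + R.card = i) {σ : Finset V} (hσ : σ ⊆ A) (w : M.Group) : x (σ ∪ R) w = 0 := by
  have hdis : ∀ {σ}, σ ⊆ A → Disjoint σ R := fun h => hd.mono h hR
  set f : Finset V → M.Group → ℂ := fun σ w => if σ ⊆ A then kp ν R σ * x (σ ∪ R) w else 0 with hf
  have hfc : IsL2Chain M p f := by
    refine ⟨fun σ w h => ?_, fun σ v hv w => ?_, fun σ => ?_⟩
    · rw [hf] at h
      beta_reduce at h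
      by_cases h1 : σ ⊆ A
      · rw [if_pos h1] at h
        obtain ⟨h3, h4⟩ := hx.supp _ _ (right_ne_zero_of_mul h)
        rw [card_union_of_disjoint (hdis h1)] at h4
        exact ⟨h3.mono subset_union_left, by omega⟩
      · rw [if_neg h1] at h
        exact absurd rfl h
    · rw [hf]
      beta_reduce
      split_ifs with h1
      · rw [hx.anti _ v (mem_union_left R hv) w, mul_neg]
      · rw [neg_zero]
    · rw [hf]
      by_cases h1 : σ ⊆ A
      · simp only [if_pos h1]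
        exact l2h_mul _ (hx.l2 _)
      · simp only [if_neg h1, norm_zero]
        simp
  have hfA : ∀ σ, f σ ≠ 0 → σ ⊆ A := by
    intro σ h
    by_contra h1
    refine h ?_
    funext w
    rw [hf]
    exact if_neg h1
  -- boundary of functions which are supported on subsets of `A`
  have hdA : ∀ (y : Finset V → M.Group → ℂ), (∀ σ, y σ ≠ 0 → σ ⊆ A) → ∀ σ ⊆ A, ∀ w,
      dbd ν y σ w = ∑ v ∈ A \ σ, s1 ν σ v * y (insert v σ) w := by
    intro y hy σ _ w
    rw [dbd_eq hd hu]
    have h1 : D B ν y σ w = 0 := by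
      unfold D
      refine sum_eq_zero fun v hv => ?_
      have h3 : y (insert v σ) = 0 := by
        by_contra h4
        exact disjoint_left.1 hd (hy _ h4 (mem_insert_self v σ)) (mem_sdiff.1 hv).1
      rw [h3, Pi.zero_apply, mul_zero]
    rw [h1, add_zero]
    rfl
  have hdA' : ∀ (y : Finset V → M.Group → ℂ), (∀ σ, y σ ≠ 0 → σ ⊆ A) → ∀ σ, ¬ σ ⊆ A → ∀ w,
      dbd ν y σ w = 0 := by
    intro y hy σ hσ w
    unfold dbd
    refine sum_eq_zero fun v hv => ?_
    have h3 : y (insert v σ) = 0 := by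
      by_contra h4
      exact hσ ((subset_insert v σ).trans (hy _ h4))
    rw [h3, Pi.zero_apply, mul_zero]
  have hfd : dbd ν f = 0 := by
    funext τ w
    show dbd ν f τ w = 0
    by_cases hτ : τ ⊆ A
    · rw [hdA f hfA τ hτ w]
      have h1 : ∑ v ∈ A \ τ, s1 ν τ v * f (insert v τ) w = kp ν R τ * D A ν x (τ ∪ R) w := by
        unfold D
        have h3 : A \ (τ ∪ R) = A \ τ := by
          ext v
          simp only [mem_sdiff, mem_union, not_or]
          constructor
          · rintro ⟨h4, h5, -⟩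
            exact ⟨h4, h5⟩
          · rintro ⟨h4, h5⟩
            exact ⟨h4, h5, fun h6 => disjoint_left.1 hd h4 (hR h6)⟩
        rw [h3, mul_sum]
        refine sum_congr rfl fun v hv => ?_
        obtain ⟨h4, h5⟩ := mem_sdiff.1 hv
        rw [hf]
        beta_reduce
        rw [if_pos (insert_subset h4 hτ), kp_insert ν R h5, s1_union ν (hdis hτ), insert_union]
        ring
      rw [h1, hD, mul_zero]
    · exact hdA' f hfA τ hτ w
  have hNf : N f ≤ 0 := by
    refine le_of_forall_pos_le_add fun ε hε => ?_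
    obtain ⟨y, hy, hyA, hlt⟩ := hp ν hν f hfc hfA hfd ε hε
    -- orthogonality
    set c : Finset V → M.Group → ℂ := fun ρ w =>
      if ρ ∩ B = R then kp ν R (ρ ∩ A) * y (ρ ∩ A) w else 0 with hc
    have hc2 : L2 c := by
      intro ρ
      rw [hc]
      by_cases h1 : ρ ∩ B = R
      · simp only [if_pos h1]
        exact l2h_mul _ (hy.l2 _)
      · simp only [if_neg h1, norm_zero]
        simp
    have h1 : ip x (D A ν c) = 0 := by
      rw [ip_D A ν hx.l2 hc2 (fun ρ hρ => ?_) (fun ρ v hv w => ?_)]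
      · unfold ip
        refine sum_eq_zero fun τ _ => ?_
        simp only [hC, map_zero, zero_mul, tsum_zero]
      · obtain ⟨w, hw⟩ := Function.ne_iff.1 hρ
        rw [hc] at hw
        beta_reduce at hw
        split_ifs at hw with h3
        · exact (hy.supp _ _ (right_ne_zero_of_mul hw)).1
        · exact absurd rfl hw
      · rw [hc]
        beta_reduce
        split_ifs with h3
        · rw [hy.anti _ v hv w, mul_neg]
        · rw [neg_zero]
    have h2 : ip x (D A ν c) = ip f (dbd ν y) := by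
      unfold ip
      have h3 : ∀ τ, ∑' w, (starRingEnd ℂ) (x τ w) * D A ν c τ w = if τ ∩ B = R then
          ∑' w, (starRingEnd ℂ) (x τ w) * (kp ν R (τ ∩ A) * dbd ν y (τ ∩ A) w) else 0 := by
        intro τ
        have h4 : ∀ v ∈ A \ τ, (insert v τ) ∩ B = τ ∩ B := by
          intro v hv
          exact insert_inter_of_notMem (disjoint_left.1 hd (mem_sdiff.1 hv).1)
        split_ifs with h5
        · refine tsum_congr fun w => ?_
          congr 1
          rw [hdA y hyA _ inter_subset_right w]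
          unfold D
          have h6 : A \ (τ ∩ A) = A \ τ := by
            ext v
            simp only [mem_sdiff, mem_inter, not_and]
            constructor
            · rintro ⟨h7, h8⟩
              exact ⟨h7, fun h9 => h8 h9 h7⟩
            · rintro ⟨h7, h8⟩
              exact ⟨h7, fun h9 => absurd h9 h8⟩
          rw [h6, mul_sum]
          refine sum_congr rfl fun v hv => ?_
          obtain ⟨h7, h8⟩ := mem_sdiff.1 hv
          have h9 : (insert v τ) ∩ A = insert v (τ ∩ A) := insert_inter_of_mem h7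
          have h10 : τ ∩ A ∪ R = τ := by
            rw [← h5, ← inter_union_distrib_left, hu, inter_univ]
          have h11 : s1 ν τ v = s1 ν (τ ∩ A) v * s1 ν R v := by
            rw [← s1_union ν (hdis inter_subset_right), h10]
          rw [hc]
          beta_reduce
          rw [h4 v hv, if_pos h5, h9, kp_insert ν R fun h => h8 (mem_inter.1 h).1, h11]
          linear_combination (s1 ν (τ ∩ A) v * kp ν R (τ ∩ A) * y (insert v (τ ∩ A)) w) *
            s1_sq ν R v
        · have h6 : ∀ w, (starRingEnd ℂ) (x τ w) * D A ν c τ w = 0 := by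
            intro w
            unfold D
            rw [sum_eq_zero fun v hv => ?_, mul_zero]
            rw [hc]
            beta_reduce
            rw [h4 v hv, if_neg h5, mul_zero]
          rw [tsum_congr h6, tsum_zero]
      rw [sum_congr rfl fun τ _ => h3 τ, reidx hd hu hR fun τ => ∑' w, (starRingEnd ℂ) (x τ w) *
        (kp ν R (τ ∩ A) * dbd ν y (τ ∩ A) w)]
      refine sum_congr rfl fun σ _ => ?_
      split_ifs with h5
      · refine tsum_congr fun w => ?_
        have h6 : (σ ∪ R) ∩ A = σ := by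
          rw [union_inter_distrib_right, inter_eq_left.2 h5,
            disjoint_iff_inter_eq_empty.1 (hd.symm.mono_left hR), union_empty]
        rw [h6, hf]
        beta_reduce
        rw [if_pos h5, map_mul, kp_conj]
        ring
      · have h6 : ∀ w, (starRingEnd ℂ) (f σ w) * dbd ν y σ w = 0 := by
          intro w
          rw [hdA' y hyA σ h5 w, mul_zero]
        rw [tsum_congr h6, tsum_zero]
    have h3 : L2 (dbd ν y) := fun τ => l2h_sum _ _ fun v _ => l2h_mul _ (hy.l2 _)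
    have h4 := N_sub hfc.l2 h3 (h2.symm.trans h1)
    have h5 : N (fun τ w => f τ w - dbd ν y τ w) < ε := hlt
    have h6 := N_nonneg (dbd ν y)
    linarith
  have h1 := eq_zero_of_N hfc.l2 hNf σ w
  rw [hf] at h1
  beta_reduce at h1
  rw [if_pos hσ] at h1
  refine (mul_eq_zero.1 h1).resolve_left fun h3 => ?_
  have h4 := kp_sq ν R σ
  rw [h3, zero_mul] at h4
  exact zero_ne_one h4

end

end Prd

open Prd

/-- **Products.** -/
theorem prod {A B : Finset V} (hd : Disjoint A B) (hu : A ∪ B = univ)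
    (h2 : ∀ u ∈ A, ∀ v ∈ B, M u v = 2) (i : ℕ)
    (h : ∀ p q, p + q = i → VanS M A p ∨ VanS M B q) : L2HomologyZero M i := by
  intro ν hν z hz hdz ε hε
  refine l2_hodgeL M ν hν i (fun x hx => ?_) z hz hdz ε hε
  obtain ⟨hDA, hCA, hDB, hCB⟩ := harm hd hu h2 hν hx
  funext ρ w
  show x ρ w = 0
  by_cases hρ : ρ.card = i
  · have h3 : ρ ∩ A ∪ ρ ∩ B = ρ := by rw [← inter_union_distrib_left, hu, inter_univ]
    have h4 : Disjoint (ρ ∩ A) (ρ ∩ B) := hd.mono inter_subset_right inter_subset_right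
    have h5 : (ρ ∩ A).card + (ρ ∩ B).card = i := by
      rw [← card_union_of_disjoint h4, h3, hρ]
    rcases h _ _ h5 with h6 | h6
    · have h7 := one_dir hd hu hν hx.chain hDA hCA h6 (R := ρ ∩ B) inter_subset_right h5
        (σ := ρ ∩ A) inter_subset_right w
      rwa [h3] at h7
    · have h7 := one_dir hd.symm (by rw [union_comm]; exact hu) hν hx.chain hDB hCB h6
        (R := ρ ∩ A) inter_subset_right (by omega) (σ := ρ ∩ B) inter_subset_right w
      rwa [union_comm, h3] at h7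
  · by_contra h3
    exact hρ (hx.chain.supp ρ w h3).2

end Pool.Agent.H73.LK
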