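import Pool.Agent.H85.Fold2.DropY
import Pool.Agent.H85.Fold2.TrivY

/-!
# Growth: an inequality between twisted Betti numbers gives one between the Betti numbers of the levels
-/

set_option autoImplicit false
set_option linter.unusedSectionVars false

open Finset

namespace Pool.Agent.H73.LK

open Pool.Agent.H85.Fold Pool.Agent.H85.Fold2

/-- the trivial one-dimensional representation -/
def rmTriv {V : Type} [DecidableEq V] [Fintype V] (G : SimpleGraph V) : IMod G where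
  D := Unit
  fin := inferInstance
  dec := inferInstance
  A := fun _ => 1
  sq := fun _ => one_mul 1
  comm := fun _ _ _ => rfl

theorem mc_rmTriv {V : Type} [DecidableEq V] [Fintype V] (G : SimpleGraph V) (K : Type)
    [Field K] : mc K (rmTriv G).A = fun _ => (1 : Matrix Unit Unit K) := by
  funext v
  unfold mc
  change (1 : Matrix Unit Unit ℤ).map (Int.cast : ℤ → K) = 1
  exact Matrix.map_one _ Int.cast_zero Int.cast_one

/-- right multiplication by commuting involutions is an action -/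
theorem rm_isActOn {V : Type} [DecidableEq V] [Fintype V] (G : SimpleGraph V)
    (Y : Finset V) {P : Type} [Group P] (g : V → P)
    (hg : ∀ v, g v * g v = 1) (hgc : ∀ u v, G.Adj u v → g u * g v = g v * g u) :
    IsActOn G Y (fun v x => x * g v) := by
  refine ⟨fun v _ x => ?_, fun u _ v _ h x => ?_⟩
  · rw [mul_assoc, hg, mul_one]
  · rw [mul_assoc, mul_assoc, hgc u v h]

/-- a power inequality gives a bound of the exponent -/
private theorem rm_drop {p C N a : ℕ} {ε : ℝ} (hp : 1 < p)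
    (h : p ^ a ≤ C ^ N) (hlog : Real.log C ≤ ε * Real.log p) : (a : ℝ) ≤ ε * N := by
  have hp0 : (0 : ℝ) < p := by exact_mod_cast (by omega : 0 < p)
  have hlogp : 0 < Real.log p := Real.log_pos (by exact_mod_cast hp)
  have h' : ((p : ℝ) ^ a) ≤ (C : ℝ) ^ N := by exact_mod_cast h
  have hl := Real.log_le_log (pow_pos hp0 _) h'
  rw [Real.log_pow, Real.log_pow] at hl
  have h2 : (a : ℝ) * Real.log p ≤ (ε * N) * Real.log p := by
    calc (a : ℝ) * Real.log p ≤ N * Real.log C := hl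
      _ ≤ N * (ε * Real.log p) := mul_le_mul_of_nonneg_left hlog (Nat.cast_nonneg _)
      _ = (ε * N) * Real.log p := by ring
  exact le_of_mul_le_mul_right h2 hlogp

private theorem rm_log {p C : ℕ} {ε : ℝ} (hε : 0 < ε)
    (h : ⌈Real.exp (Real.log C / ε)⌉₊ ≤ p) : Real.log C ≤ ε * Real.log p := by
  have hpexp : Real.exp (Real.log C / ε) ≤ (p : ℝ) :=
    le_trans (Nat.le_ceil _) (by exact_mod_cast h)
  have h1 : Real.log C / ε ≤ Real.log p := by
    have h2 := Real.log_le_log (Real.exp_pos _) hpexp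
    rwa [Real.log_exp] at h2
  rw [div_le_iff₀ hε] at h1
  linarith

/-- **The inequality of the Betti numbers of the levels.** -/
theorem rm_growth {V : Type} [DecidableEq V] [Fintype V] (ν : V → ℕ)
    (hν : Function.Injective ν) (G : SimpleGraph V) (Y Y' : Finset V) (i : ℕ) (ρ : IMod G)
    [Nonempty ρ.D]
    (h : ∀ (Ω : Type) [Fintype Ω] (s : V → Ω → Ω), IsActOn G univ s →
      bY ℝ G Y (mc ℝ ρ.A) s ν i ≤ bY ℝ G Y' (mc ℝ ρ.A) s ν i) (η : ℝ) (hη0 : 0 < η) :
    ∃ p₀ : ℕ, ∀ (p : ℕ) [Fact p.Prime], p₀ ≤ p → ∀ (P : Type) [Group P] [Fintype P] (g : V → P),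
      (∀ v, g v * g v = 1) → (∀ u v, G.Adj u v → g u * g v = g v * g u) →
      (∃ r : P →* Matrix ρ.D ρ.D (ZMod p), ∀ v, r (g v) = (ρ.A v).map (Int.cast : ℤ → ZMod p)) →
      (bP ℝ G Y g ν i : ℝ) ≤ bP ℝ G Y' g ν i + η * Fintype.card P := by
  obtain ⟨C1, hC1, hD1⟩ := bY_drop G ρ ν hν Y i
  obtain ⟨C2, hC2, hD2⟩ := bY_drop G (rmTriv G) ν hν Y' i
  have hη4 : 0 < η / 2 := by linarith
  refine ⟨max 3 (max ⌈Real.exp (Real.log C1 / (η / 2))⌉₊
    ⌈Real.exp (Real.log C2 / (η / 2))⌉₊), ?_⟩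
  intro p hp hpp P _ _ g hgi hgc hr
  have hp3 : 3 ≤ p := le_trans (le_max_left _ _) hpp
  have hpC1 : ⌈Real.exp (Real.log C1 / (η / 2))⌉₊ ≤ p :=
    le_trans (le_trans (le_max_left _ _) (le_max_right _ _)) hpp
  have hpC2 : ⌈Real.exp (Real.log C2 / (η / 2))⌉₊ ≤ p :=
    le_trans (le_trans (le_max_right _ _) (le_max_right _ _)) hpp
  have hl1 := rm_log hη4 hpC1
  have hl2 := rm_log hη4 hpC2
  have hp2 : p ≠ 2 := by omega
  have hK : (2 : ZMod p) ≠ 0 := by
    intro h0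
    have h1 : ((2 : ℕ) : ZMod p) = 0 := by exact_mod_cast h0
    rw [ZMod.natCast_eq_zero_iff] at h1
    have := Nat.le_of_dvd (by norm_num) h1
    omega
  obtain ⟨r, hr0'⟩ := hr
  -- the chain of inequalities
  have e1 : bP ℝ G Y g ν i ≤ bP (ZMod p) G Y g ν i := by
    have h1 := bY_real_le G (rmTriv G) ν hν Y i (fun v (x : P) => x * g v)
      (rm_isActOn G Y g hgi hgc) (ZMod p) hK
    rw [mc_rmTriv, mc_rmTriv] at h1
    exact h1
  have e2 := tw_trivY G ρ g (ZMod p) r hr0' ν Y i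
  have e3 := hD1 P (fun v (x : P) => x * g v) (rm_isActOn G Y g hgi hgc) p hp2
  have e4 := h P (fun v (x : P) => x * g v) (rm_isActOn G univ g hgi hgc)
  have e5 := bY_real_le G ρ ν hν Y' i (fun v (x : P) => x * g v)
      (rm_isActOn G Y' g hgi hgc) (ZMod p) hK
  have e6 := tw_trivY G ρ g (ZMod p) r hr0' ν Y' i
  have e7 := hD2 P (fun v (x : P) => x * g v) (rm_isActOn G Y' g hgi hgc) p hp2
  rw [mc_rmTriv, mc_rmTriv] at e7
  change p ^ (bP (ZMod p) G Y' g ν i - bP ℝ G Y' g ν i) ≤ _ at e7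
  have d1 := rm_drop (by omega) e3 hl1
  have d2 := rm_drop (by omega) e7 hl2
  set a1 := bY (ZMod p) G Y (mc (ZMod p) ρ.A) (fun v (x : P) => x * g v) ν i
  set a2 := bY ℝ G Y (mc ℝ ρ.A) (fun v (x : P) => x * g v) ν i
  set a3 := bY ℝ G Y' (mc ℝ ρ.A) (fun v (x : P) => x * g v) ν i
  set a4 := bY (ZMod p) G Y' (mc (ZMod p) ρ.A) (fun v (x : P) => x * g v) ν i
  set b1 := bP ℝ G Y g ν i
  set b2 := bP (ZMod p) G Y g ν i
  set b3 := bP (ZMod p) G Y' g ν i
  set b4 := bP ℝ G Y' g ν i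
  set d := Fintype.card ρ.D with hd
  have hd1 : 1 ≤ d := Fintype.card_pos
  have hd1' : (1 : ℝ) ≤ d := by exact_mod_cast hd1
  have f1 : (a1 : ℝ) - a2 ≤ η / 2 * Fintype.card P := by
    refine le_trans ?_ d1
    have : a1 ≤ (a1 - a2) + a2 := by omega
    have : (a1 : ℝ) ≤ ((a1 - a2 : ℕ) : ℝ) + a2 := by exact_mod_cast this
    linarith
  have f2 : (b3 : ℝ) - b4 ≤ η / 2 * Fintype.card P := by
    refine le_trans ?_ d2
    have : b3 ≤ (b3 - b4) + b4 := by omega
    have : (b3 : ℝ) ≤ ((b3 - b4 : ℕ) : ℝ) + b4 := by exact_mod_cast this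
    linarith
  have g1 : (b1 : ℝ) ≤ b2 := by exact_mod_cast e1
  have g2 : (a1 : ℝ) = d * b2 := by exact_mod_cast e2
  have g4 : (a2 : ℝ) ≤ a3 := by exact_mod_cast e4
  have g5 : (a3 : ℝ) ≤ a4 := by exact_mod_cast e5
  have g6 : (a4 : ℝ) = d * b3 := by exact_mod_cast e6
  have hN : (0 : ℝ) ≤ Fintype.card P := Nat.cast_nonneg _
  have k1 : (d : ℝ) * b1 ≤ d * (b4 + η / 2 * Fintype.card P) + η / 2 * Fintype.card P := by
    have u1 : (d : ℝ) * b1 ≤ d * b2 := mul_le_mul_of_nonneg_left g1 (by linarith)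
    have u2 : (d : ℝ) * b3 ≤ d * (b4 + η / 2 * Fintype.card P) :=
      mul_le_mul_of_nonneg_left (by linarith) (by linarith)
    linarith
  have k2 : (d : ℝ) * b1 ≤ d * (b4 + η * Fintype.card P) := by
    have u4 : η / 2 * Fintype.card P ≤ d * (η / 2 * Fintype.card P) :=
      le_mul_of_one_le_left (by positivity) hd1'
    nlinarith
  exact le_of_mul_le_mul_left k2 (by linarith)

end Pool.Agent.H73.LK
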