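import Pool.Agent.H19.LG.HarmZero
import Pool.Agent.H19.LG.Kazhdan
import Pool.Agent.H73.LK.Bridge
import Pool.Agent.H73.LK.RemA

/-!
# Growth: the Betti numbers of the levels of a full subcomplex without `ℓ²`-homology
-/

set_option autoImplicit false
set_option linter.unusedSectionVars false

open Finset Filter Topology

namespace Pool.Agent.H73.LK

open Pool.Agent.H19.Cub Pool.Agent.H19.LG Pool.Agent.H85.Fold Pool.Agent.H85.Fold2
open Pool.Agent.H4.Singer (racg RGrp gen gen_mul_gen gen_comm)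

section

variable {K : Type} [Field K] {V D X X' : Type} [DecidableEq V] [Fintype V] [Fintype D]
  [DecidableEq D]

/-- the chains on two sets with involutions -/
noncomputable def rmT (K V D : Type) [Field K] {X X' : Type} (e : X ≃ X') :
    (Finset V → X' → D → K) ≃ₗ[K] (Finset V → X → D → K) :=
  LinearEquiv.piCongrRight fun _ => LinearEquiv.funCongrLeft K (D → K) e

theorem rmT_apply (e : X ≃ X') (f : Finset V → X' → D → K) (σ : Finset V) (x : X) :
    rmT K V D e f σ x = f σ (e x) := rfl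

theorem rmT_tdl (e : X ≃ X') (ν : V → ℕ) (f : Finset V → X' → D → K) :
    rmT K V D e (tdl K ν f) = tdl K ν (rmT K V D e f) := rfl

theorem rmT_SCh (e : X ≃ X') (G : SimpleGraph V) (Y : X → Finset V) (Y' : X' → Finset V)
    (hY : ∀ x, Y' (e x) = Y x) (B : V → Matrix D D K) (s : V → X → X) (s' : V → X' → X')
    (hs : ∀ v x, e (s v x) = s' v (e x)) (i : ℕ) :
    (SCh K G Y' B s' i).map (rmT K V D e).toLinearMap = SCh K G Y B s i := by
  ext f
  constructor
  · rintro ⟨g, ⟨h1, h2⟩, rfl⟩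
    refine ⟨fun σ x hx => ?_, fun σ v hv x => ?_⟩
    · have h3 := h1 σ (e x) hx
      rw [hY] at h3
      exact h3
    · show g σ (e (s v x)) = -(B v).mulVec (g σ (e x))
      rw [hs]
      exact h2 σ v hv (e x)
  · rintro ⟨h1, h2⟩
    refine ⟨(rmT K V D e).symm f, ⟨fun σ x hx => ?_, fun σ v hv x => ?_⟩,
      (rmT K V D e).apply_symm_apply f⟩
    · have h3 := h1 σ (e.symm x) hx
      rw [← hY, e.apply_symm_apply] at h3
      exact h3
    · show f σ (e.symm (s' v x)) = -(B v).mulVec (f σ (e.symm x))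
      rw [← h2 σ v hv]
      congr 1
      apply e.injective
      rw [e.apply_symm_apply, hs, e.apply_symm_apply]

/-- the twisted Betti numbers of isomorphic sets with involutions -/
theorem bS_equiv (e : X ≃ X') (G : SimpleGraph V) (Y : X → Finset V) (Y' : X' → Finset V)
    (hY : ∀ x, Y' (e x) = Y x) (B : V → Matrix D D K) (s : V → X → X) (s' : V → X' → X')
    (hs : ∀ v x, e (s v x) = s' v (e x)) (ν : V → ℕ) (i : ℕ) :
    bS K G Y B s ν i = bS K G Y' B s' ν i := by
  have hZ : (SZ K G Y' B s' ν i).map (rmT K V D e).toLinearMap = SZ K G Y B s ν i := by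
    unfold SZ
    rw [← rmT_SCh e G Y Y' hY B s s' hs i]
    ext f
    constructor
    · rintro ⟨g, ⟨h1, h2⟩, rfl⟩
      refine ⟨⟨g, h1, rfl⟩, ?_⟩
      have h2' : tdl K ν g = 0 := h2
      show tdl K ν (rmT K V D e g) = 0
      rw [← rmT_tdl, h2', map_zero]
    · rintro ⟨⟨g, h1, rfl⟩, h2⟩
      refine ⟨g, ⟨h1, ?_⟩, rfl⟩
      have h2' : tdl K ν (rmT K V D e g) = 0 := h2
      rw [← rmT_tdl] at h2'
      show tdl K ν g = 0
      exact (rmT K V D e).map_eq_zero_iff.1 h2'
  have hB : (SB K G Y' B s' ν i).map (rmT K V D e).toLinearMap = SB K G Y B s ν i := by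
    unfold SB
    rw [← rmT_SCh e G Y Y' hY B s s' hs (i + 1), ← Submodule.map_comp, ← Submodule.map_comp]
    congr 1
  unfold bS
  rw [← hZ, ← hB]
  congr 1
  · exact (LinearEquiv.finrank_map_eq (rmT K V D e) _)
  · exact (LinearEquiv.finrank_map_eq (rmT K V D e) _)

end

variable {V : Type} [DecidableEq V] [Fintype V] {G : SimpleGraph V}

/-- the cells of the types in `Y` -/
noncomputable def CW (G : SimpleGraph V) (Y : Finset V) : CubeComplex V (RGrp G) where
  graph := G
  lab _ := Y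
  nb v w := w * gen G v
  lab_nb _ _ h := h
  nb_nb v w _ := by rw [mul_assoc, gen_mul_gen, mul_one]
  lab_adj _ _ _ _ h _ := h
  nb_comm u v w h _ _ := by rw [mul_assoc, mul_assoc, gen_comm G u v h]

theorem l2_CW {Y : Finset V} {i : ℕ} (h : VanS (racg G) Y i) :
    Pool.Agent.H19.Cub.L2HomologyZero (CW G Y) i := by
  intro ν hν z hz hd ε hε
  have hz' : Pool.Agent.H4.FC.IsL2Chain (racg G) i z := by
    refine ⟨fun σ w hw => ?_, fun σ v hv w => ?_, hz.l2⟩
    · obtain ⟨_, h2, h3⟩ := hz.supp σ w hw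
      exact ⟨(sph_racg G σ).2 h2, h3⟩
    · by_cases hσ : σ ⊆ Y
      · exact hz.anti σ w hσ v hv
      · have h1 : ∀ w, z σ w = 0 := by
          intro w
          by_contra hne
          exact hσ (hz.supp σ w hne).1
        rw [h1, h1, neg_zero]
  have hzY : ∀ σ, z σ ≠ 0 → σ ⊆ Y := by
    intro σ hσ
    obtain ⟨w, hw⟩ := Function.ne_iff.1 hσ
    exact (hz.supp σ w hw).1
  obtain ⟨y, hy, hyY, hye⟩ := h ν hν z hz' hzY hd ε hε
  refine ⟨y, ⟨fun σ w hw => ?_, fun σ w _ v hv => hy.anti σ v hv w, hy.l2⟩, hye⟩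
  obtain ⟨h1, h2⟩ := hy.supp σ w hw
  refine ⟨hyY σ fun h0 => hw (by rw [h0]; rfl), (sph_racg G σ).1 h1, h2⟩

/-- harmonic chains of the types in `Y` -/
theorem harm_of_vanS {Y : Finset V} {i : ℕ} (h : VanS (racg G) Y i) (ν : V → ℕ)
    (hν : Function.Injective ν) (f : Finset V → Unit × RGrp G → ℂ)
    (hf : IsHarmS G (prY (fun _ : Unit => Y) (RGrp G)) (prS triv (gen G)) ν i f) : f = 0 := by
  classical
  have hcs : ∀ v ∈ Y, ∀ w, (CW G Y).cs v w = w * gen G v := by
    intro v hv w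
    unfold CubeComplex.cs
    exact if_pos hv
  have h1 : IsHarmS (CW G Y).graph (CW G Y).lab (CW G Y).cs ν i (fun σ w => f σ ((), w)) := by
    refine ⟨⟨fun σ w hw => hf.chain.supp σ _ hw, fun σ v hv w => ?_, fun σ => ?_⟩, ?_, ?_⟩
    · by_cases hσ : σ ⊆ Y
      · show f σ ((), (CW G Y).cs v w) = - f σ ((), w)
        rw [hcs v (hσ hv)]
        exact hf.chain.anti σ v hv ((), w)
      · have h1 : ∀ w, f σ ((), w) = 0 := by
          intro w
          by_contra hne
          exact hσ (hf.chain.supp σ _ hne).1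
        show f σ ((), (CW G Y).cs v w) = - f σ ((), w)
        rw [h1, h1, neg_zero]
    · exact (hf.chain.l2 σ).comp_injective (i := fun w => ((), w))
        fun a b hab => (Prod.ext_iff.1 hab).2
    · funext τ w
      exact congrFun (congrFun hf.cyc τ) ((), w)
    · intro ρ w hρ hcl hcard
      have h2 := hf.cocyc ρ ((), w) hρ hcl hcard
      rw [← h2]
      refine Finset.sum_congr rfl fun v hv => ?_
      show _ * (f (ρ.erase v) ((), w) - f (ρ.erase v) ((), (CW G Y).cs v w)) = _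
      rw [hcs v (hρ hv)]
      rfl
  have h2 := harm_zero (CW G Y) i (l2_CW h) ν hν _ h1
  funext σ x
  obtain ⟨⟨⟩, w⟩ := x
  exact congrFun (congrFun h2 σ) w

/-- the two notions of twisted Betti numbers -/
theorem bY_eq_bS {K D X : Type} [Field K] [Fintype D] [DecidableEq D] (G : SimpleGraph V)
    (Y : Finset V) (B : V → Matrix D D K) (s : V → X → X) (ν : V → ℕ) (i : ℕ) :
    bY K G Y B s ν i = bS K G (fun _ => Y) B s ν i := rfl

/-- the Betti numbers of a level -/
theorem bP_eq_bT (K : Type) [Field K] (G : SimpleGraph V) (Y : Finset V) {P : Type} [Group P]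
    (g : V → P) (ν : V → ℕ) (i : ℕ) :
    bP K G Y g ν i = bT K G (prY (fun _ : Unit => Y) P) (prS triv g) ν i := by
  have h1 : bP K G Y g ν i =
      bY K G Y (fun _ => (1 : Matrix Unit Unit K)) (fun v (x : P) => x * g v) ν i := rfl
  have h2 : bT K G (prY (fun _ : Unit => Y) P) (prS triv g) ν i =
      bS K G (prY (fun _ : Unit => Y) P) (fun _ => (1 : Matrix Unit Unit K)) (prS triv g) ν i := rfl
  rw [h1, h2, bY_eq_bS]
  refine bS_equiv (Equiv.punitProd P).symm G _ _ (fun x => ?_) _ _ _ (fun v x => ?_) ν i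
  · rfl
  · rfl

/-- **The Betti numbers of the levels of a full subcomplex without `ℓ²`-homology.** -/
theorem rm_kazhdan {Y : Finset V} {i : ℕ} (h : VanS (racg G) Y i) (ν : V → ℕ)
    (hν : Function.Injective ν) (P : ℕ → Type) [∀ j, Group (P j)] [∀ j, Fintype (P j)]
    (π : ∀ j, RGrp G →* P j) (hsep : ∀ w : RGrp G, w ≠ 1 → ∀ᶠ j in atTop, π j w ≠ 1) (η : ℝ)
    (hη : 0 < η) :
    ∀ᶠ j in atTop, (bP ℝ G Y (fun v => π j (gen G v)) ν i : ℝ) ≤ η * Fintype.card (P j) := by
  have hspec : IsSpec G (fun _ : Unit => Y) triv := isSpec_triv G _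
  filter_upwards [kazhdan G (fun _ : Unit => Y) triv hspec ν hν i P π hsep
    (fun f hf => harm_of_vanS h ν hν f hf) η hη] with j hj
  refine le_trans ?_ hj
  obtain ⟨g, hg0⟩ : ∃ g : V → P j, g = fun v => π j (gen G v) := ⟨_, rfl⟩
  rw [← hg0]
  have hg : ∀ v, g v * g v = 1 := fun v => by
    rw [hg0]
    show π j (gen G v) * π j (gen G v) = 1
    rw [← map_mul, gen_mul_gen, map_one]
  have hgc : ∀ u v, G.Adj u v → g u * g v = g v * g u := fun u v huv => by
    rw [hg0]
    show π j (gen G u) * π j (gen G v) = π j (gen G v) * π j (gen G u)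
    rw [← map_mul, ← map_mul, gen_comm G u v huv]
  have h1 := bY_real_le G (rmTriv G) ν hν Y i (fun v (x : P j) => x * g v)
    (rm_isActOn G Y g hg hgc) ℂ two_ne_zero
  rw [mc_rmTriv, mc_rmTriv] at h1
  have h4 : bP ℝ G Y g ν i ≤ bP ℂ G Y g ν i := h1
  rw [← bP_eq_bT]
  exact_mod_cast h4

end Pool.Agent.H73.LK
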