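import Pool.Agent.H19.VX.Good
import Pool.Agent.H4.Fold3.LocVan
import Pool.Agent.H73.LK.RemB
import Pool.Agent.H85.Fold2.Final

/-!
# Removing a vertex with a folded link from a full subcomplex of a sphere of even dimension
-/

set_option autoImplicit false
set_option linter.unusedSectionVars false

open Finset Filter Topology

namespace Pool.Agent.H73.LK

open Pool.Agent.H85.Fold Pool.Agent.H85.Fold2 Pool.Agent.H4.Fold3 Pool.Agent.H85.Fold4 Pool.Agent.H19.VX
open Pool.Agent.H4.Singer (racg RGrp gen gen_mul_gen gen_comm IsHarm exists_harm_matrix bet bet_complex_le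
  l2_hodge l2ker_trivial)

/-- the folding vectors of a link -/
theorem isFoldL_of {W : Type} [DecidableEq W] [Fintype W] {K : SimpleGraph W} {u : W} {n : ℕ}
    (h : IsFolded (K.induce (K.neighborSet u)) n) :
    ∃ (m : ℕ) (p : W → Fin n → ℝ) (a : W → Fin m → ℝ), IsFoldL K (nbr K u univ) p a := by
  classical
  obtain ⟨m, p, a, h1, h2, h3⟩ := h
  have hmem : ∀ v, v ∈ nbr K u univ → K.Adj u v := by
    intro v hv
    unfold nbr at hv
    exact (mem_filter.1 hv).2
  refine ⟨m, fun v => if hv : K.Adj u v then p ⟨v, hv⟩ else 0,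
    fun v => if hv : K.Adj u v then a ⟨v, hv⟩ else 0, ?_, ?_, ?_⟩
  · intro v hv
    have hv' := hmem v hv
    simp only [dif_pos hv']
    exact h1 ⟨v, hv'⟩
  · intro v hv w hw hvw
    have hv' := hmem v hv
    have hw' := hmem w hw
    simp only [dif_pos hv', dif_pos hw']
    exact h2 ⟨v, hv'⟩ ⟨w, hw'⟩ hvw
  · intro v hv w hw hvw hn
    have hv' := hmem v hv
    have hw' := hmem w hw
    simp only [dif_pos hv', dif_pos hw']
    exact h3 ⟨v, hv'⟩ ⟨w, hw'⟩ (fun h => hvw (congrArg Subtype.val h)) hn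

open Classical in
/-- the representation pulled back to `L` -/
noncomputable def rmPull {V W : Type} (L : SimpleGraph V) (K : SimpleGraph W) (e : L ↪g K)
    (ρ : IMod K) : IMod L where
  D := ρ.D
  fin := ρ.fin
  dec := ρ.dec
  A v := ρ.A (e v)
  sq v := ρ.sq (e v)
  comm u v huv := ρ.comm (e u) (e v) (e.map_adj_iff.2 huv)

open Classical in
/-- the action pushed to the larger graph -/
noncomputable def rmPush {V W Ω : Type} (φ : V → W) (s : V → Ω → Ω) (w : W) : Ω → Ω :=
  if h : ∃ v, φ v = w then s h.choose else id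

theorem rmPush_eq {V W Ω : Type} (φ : V → W) (hφ : Function.Injective φ) (s : V → Ω → Ω) (v : V) :
    rmPush φ s (φ v) = s v := by
  have h : ∃ v', φ v' = φ v := ⟨v, rfl⟩
  unfold rmPush
  rw [dif_pos h]
  rw [hφ h.choose_spec]

/-- the twisted inequality for full subcomplexes of a homology sphere of dimension `2 k` -/
theorem rm_twisted {V W : Type} [DecidableEq V] [Fintype V] [DecidableEq W] [Fintype W]
    (L : SimpleGraph V) (K : SimpleGraph W) (k : ℕ) (hK : IsHomologySphere K (2 * k + 1))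
    (e : L ↪g K) (u : V) (hu : IsFolded (K.induce (K.neighborSet (e u))) (2 * k)) (ν : V → ℕ)
    (hν : Function.Injective ν) (i : ℕ) (hi : k < i) :
    ∃ ρ : IMod L, Nonempty ρ.D ∧ ∀ (Ω : Type) [Fintype Ω] (s : V → Ω → Ω), IsActOn L univ s →
      bY ℝ L univ (mc ℝ ρ.A) s ν i ≤ bY ℝ L (univ.erase u) (mc ℝ ρ.A) s ν i := by
  obtain ⟨m, p, a, hf⟩ := isFoldL_of hu
  have hinj : ∀ x ∈ (univ : Finset V), ∀ y ∈ (univ : Finset V), e x = e y → x = y :=
    fun x _ y _ h => e.injective h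
  obtain ⟨ν', hν', hνν⟩ := exists_nu univ e hinj ν hν
  obtain ⟨ρ, hne, hle⟩ := exists_imod_loc K k hK (e u) p a hf ν' hν'
  refine ⟨rmPull L K e ρ, hne, fun Ω _ s hs => ?_⟩
  have hs' : ∀ v, rmPush e s (e v) = s v := fun v => rmPush_eq e e.injective s v
  have hB : ∀ v, mc ℝ (rmPull L K e ρ).A v = mc ℝ ρ.A (e v) := fun _ => rfl
  have hadj : ∀ x y, L.Adj x y ↔ K.Adj (e x) (e y) := fun x y => e.map_adj_iff.symm
  have e1 : bY ℝ L univ (mc ℝ (rmPull L K e ρ).A) s ν i =
      bY ℝ K (univ.image e) (mc ℝ ρ.A) (rmPush e s) ν' i :=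
    bY_embed L K univ e hinj (fun x _ y _ => hadj x y) ν ν' hνν ℝ
      (mc ℝ (rmPull L K e ρ).A) (mc ℝ ρ.A) (fun v _ => hB v) i Ω s (rmPush e s) (fun v _ => hs' v)
  have e2 : bY ℝ L (univ.erase u) (mc ℝ (rmPull L K e ρ).A) s ν i =
      bY ℝ K ((univ.erase u).image e) (mc ℝ ρ.A) (rmPush e s) ν' i :=
    bY_embed L K (univ.erase u) e (fun x _ y _ h => e.injective h) (fun x _ y _ => hadj x y) ν ν'
      (fun x _ y _ => hνν x (mem_univ x) y (mem_univ y)) ℝ
      (mc ℝ (rmPull L K e ρ).A) (mc ℝ ρ.A) (fun v _ => hB v) i Ω s (rmPush e s) (fun v _ => hs' v)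
  have e3 : (univ.erase u).image e = (univ.image e).erase (e u) := by
    ext w
    simp only [Finset.mem_image, Finset.mem_erase]
    constructor
    · rintro ⟨v, ⟨hvu, hv⟩, rfl⟩
      exact ⟨fun h => hvu (e.injective h), v, hv, rfl⟩
    · rintro ⟨hw, v, hv, rfl⟩
      exact ⟨v, ⟨fun h => hw (by rw [h]), hv⟩, rfl⟩
  rw [e1, e2, e3]
  refine hle (univ.image e) (Finset.mem_image_of_mem e (mem_univ u)) i hi Ω (rmPush e s) ?_
  constructor
  · intro w hw ω
    obtain ⟨v, hv, rfl⟩ := Finset.mem_image.1 hw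
    rw [hs' v]
    exact hs.inv v (Finset.mem_univ v) ω
  · intro w hw w' hw' hww ω
    obtain ⟨v, hv, rfl⟩ := Finset.mem_image.1 hw
    obtain ⟨v', hv', rfl⟩ := Finset.mem_image.1 hw'
    rw [hs' v, hs' v']
    exact hs.comm v (Finset.mem_univ v) v' (Finset.mem_univ v') ((hadj v v').2 hww) ω

/-- **Removing a vertex with a folded link.** -/
theorem l2_remove {V W : Type} [DecidableEq V] [Fintype V] [DecidableEq W] [Fintype W]
    (L : SimpleGraph V) (K : SimpleGraph W) (k : ℕ) (hK : HomologySphere K (2 * k + 1))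
    (e : L ↪g K) (u : V) (hu : IsFolded (K.induce (K.neighborSet (e u))) (2 * k)) (i : ℕ)
    (hi : k < i) (h : VanS (racg L) (univ.erase u) i) :
    Pool.Agent.H4.Singer.L2HomologyZero L i := by
  classical
  intro ν hν z hz hdz ε hε
  refine l2_hodge L ν hν i ?_ z hz hdz ε hε
  obtain ⟨ρ, hne, hle⟩ := rm_twisted L K k hK.is e u hu ν hν i hi
  obtain ⟨q, P, grp, fin, π, XP, hq, hsep, hs, hr⟩ := exists_levels_fin L (fun _ : Fin 1 => ρ)
  obtain ⟨kk, n, M, hM, hdim⟩ := exists_harm_matrix L (selfCol L) (fun _ _ => Iff.rfl) ν hν i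
  refine hM (l2ker_trivial π hsep M ?_)
  intro η hη
  obtain ⟨p₀, hp₀⟩ := rm_growth ν hν L univ (univ.erase u) i ρ hle (η / 2) (half_pos hη)
  filter_upwards [eventually_ge_atTop p₀, rm_kazhdan h ν hν P π hsep (η / 2) (half_pos hη)]
    with j hj hj2
  have : Fact (q j).Prime := ⟨(hq j).1⟩
  refine (hdim (P j) (π j) (XP j) (hs j)).trans ?_
  have h1 : bet ℂ (XP j) ν i ≤ bet ℝ (XP j) ν i := bet_complex_le (XP j) ν hν i ℝ
  have h2 := bet_eq_bP L (fun v => π j (gen L v)) (XP j) (fun v x => hs j v x) ν i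
  have h3 := hp₀ (q j) (hj.trans (hq j).2) (P j) (fun v => π j (gen L v))
    (fun v => by rw [← map_mul, gen_mul_gen, map_one])
    (fun u v huv => by rw [← map_mul, ← map_mul, gen_comm L u v huv]) (hr j 0)
  have h4 : (bet ℂ (XP j) ν i : ℝ) ≤ bP ℝ L univ (fun v => π j (gen L v)) ν i := by
    rw [← h2]
    exact_mod_cast h1
  linarith

end Pool.Agent.H73.LK
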