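import Pool.Agent.H73.LK.Defs
import Pool.Agent.H4.FC.SphIff
import Pool.Agent.H4.FC.HodgeL

/-!
# Degree zero

An infinite Coxeter group has no reduced `ℓ²`-homology in degree 0: a harmonic function is invariant under all
generators, hence constant.
-/

set_option autoImplicit false
set_option linter.unusedSectionVars false

open Finset

namespace Pool.Agent.H73.LK

open Pool.Agent.H4.FC

variable {V : Type} [Fintype V] [DecidableEq V] {M : CoxeterMatrix V}

/-- a harmonic chain in degree 0 is invariant under the generators -/
private theorem zero_inv {ν : V → ℕ} {x : Finset V → M.Group → ℂ} (hx : IsHarmL M ν 0 x) (u : V)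
    (w : M.Group) : x ∅ (w * M.simple u) = x ∅ w := by
  classical
  have hpar : ∀ g, g ∈ par M ({u} : Finset V) ↔ g = 1 ∨ g = M.simple u := by
    intro g
    constructor
    · revert g
      refine par_induction M {u} (Or.inl rfl) ?_
      intro v hv w ih
      rw [mem_singleton.1 hv]
      rcases ih with h | h
      · right
        rw [h, mul_one]
      · left
        rw [h, simple_sq]
    · rintro (h | h)
      · rw [h]
        exact one_mem _
      · rw [h]
        exact simple_mem_par M (mem_singleton_self u)
  have hs : Sph M ({u} : Finset V) := by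
    show Finite (par M ({u} : Finset V))
    refine Set.Finite.to_subtype (Set.Finite.subset (Set.toFinite {1, M.simple u}) fun g hg => ?_)
    exact (hpar g).1 hg
  have hne : (1 : M.Group) ≠ M.simple u := by
    intro h
    have h1 := eps_simple M u
    rw [← h, map_one] at h1
    norm_num at h1
  have hF : parF M ({u} : Finset V) = {1, M.simple u} := by
    ext g
    rw [mem_parF hs, hpar, mem_insert, mem_singleton]
  have h := hx.cocyc {u} w hs (card_singleton u)
  rw [sum_singleton] at h
  have e : ({u} : Finset V).erase u = ∅ := by simp
  rw [e, filter_empty, card_empty, pow_zero, one_mul] at h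
  unfold altS at h
  rw [hF, sum_insert (by simpa using hne), sum_singleton, map_one, eps_simple] at h
  simp only [MonoidHom.id_apply, mul_one, Int.cast_one, one_mul, Int.cast_neg, neg_mul] at h
  exact (sub_eq_zero.1 (by rw [sub_eq_add_neg]; exact h)).symm

/-- **Degree zero.** -/
theorem l2_infinite (h : Infinite M.Group) : Pool.Agent.H4.FC.L2HomologyZero M 0 := by
  intro ν hν z hz hdz ε hε
  refine l2_hodgeL M ν hν 0 (fun x hx => ?_) z hz hdz ε hε
  have hconst : ∀ w : M.Group, x ∅ w = x ∅ 1 := by
    intro w
    induction w using M.toCoxeterSystem.simple_induction_right with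
    | one => rfl
    | mul_simple_right w i ih =>
      have e1 : M.toCoxeterSystem.simple i = M.simple i := by rw [M.toCoxeterSystem_simple]
      rw [e1, zero_inv hx i, ih]
  funext σ w
  show x σ w = 0
  by_contra hne
  obtain ⟨-, hc⟩ := hx.chain.supp σ w hne
  rw [card_eq_zero] at hc
  subst hc
  have hsum : Summable fun _ : M.Group => ‖x ∅ (1 : M.Group)‖ ^ 2 := by
    have h1 := hx.chain.l2 ∅
    have h2 : (fun w => ‖x ∅ w‖ ^ 2) = fun _ : M.Group => ‖x ∅ (1 : M.Group)‖ ^ 2 :=
      funext fun w => by rw [hconst w]
    rw [h2] at h1
    exact h1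
  have h0 := (summable_const_iff _).1 hsum
  refine hne ?_
  rw [hconst w]
  exact norm_eq_zero.1 (by nlinarith [norm_nonneg (x ∅ (1 : M.Group))])

theorem infinite_of_pair {u v : V} (h : M u v = 0) : Infinite M.Group := by
  have huv : u ≠ v := by
    intro e
    rw [e, M.diagonal] at h
    exact one_ne_zero h
  have key : ∀ j k : ℕ, j < k → (M.simple u * M.simple v) ^ j ≠ (M.simple u * M.simple v) ^ k := by
    intro j k hjk he
    refine alt_infinite M u v huv h (k - j) (Nat.sub_pos_of_lt hjk) ?_
    have e : k = j + (k - j) := by omega
    rw [e, pow_add] at he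
    exact (mul_eq_left.mp he.symm)
  have hinj : Function.Injective fun k : ℕ => (M.simple u * M.simple v) ^ k := by
    intro j k hjk
    rcases lt_trichotomy j k with h1 | h1 | h1
    · exact absurd hjk (key j k h1)
    · exact h1
    · exact absurd hjk.symm (key k j h1)
  exact Infinite.of_injective _ hinj

theorem l2_infinite_pair {u v : V} (h : M u v = 0) : Pool.Agent.H4.FC.L2HomologyZero M 0 :=
  l2_infinite (infinite_of_pair h)

end Pool.Agent.H73.LK
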