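import Pool.Agent.H19.BL.Final
import Pool.Agent.H19.LI.Final
import Pool.Agent.H4.FD.FinalP
import Pool.Agent.H4.FD.Stmt
import Pool.Agent.H4.HY.LabDual
import Pool.Agent.H4.HY.LabStmt
import Pool.Agent.H4.HY.SphSurj
import Pool.Agent.H73.LK.Bridge
import Pool.Agent.H73.LK.Fin
import Pool.Agent.H73.LK.Ind
import Pool.Agent.H73.LK.MV
import Pool.Agent.H73.LK.MVY
import Pool.Agent.H73.LK.PDL
import Pool.Agent.H73.LK.Prod
import Pool.Agent.H73.LK.RemC
import Pool.Agent.H73.LK.Zero
import Pool.Agent.H77.SX.Final
import Pool.Agent.H85.Fold4.Nice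
import Pool.Agent.H85.VK.Final

/-!
# A class of labelled flag complexes
-/

set_option autoImplicit false
set_option linter.unusedSectionVars false

open Finset

namespace Pool.Agent.H73.LK

open Pool.Agent.H4.FC Pool.Agent.H4.FD Pool.Agent.H4.HY Pool.Agent.H85.VK Pool.Agent.H85.Fold4
  Pool.Agent.H19.VX Pool.Agent.H19.BL Pool.Agent.H19.Cub Pool.Agent.H19.LI
open Pool.Agent.H4.Singer (racg)

/-- All labels are 2 or `∞` (which is `0` in `M`): the Coxeter group is right-angled. -/
def IsRA {V : Type} (M : CoxeterMatrix V) : Prop := ∀ u v, u ≠ v → M u v = 0 ∨ M u v = 2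

/-- `Vanishing M i`: the least class of pairs of a Coxeter matrix `M` (a labelled finite flag complex `L`, the
flag complex of `gr M`) and a degree `i` with the following members and rules.

* `finite`: the group is finite and `i > 0`;
* `infinite`: the group is infinite and `i = 0`.

If every clique generates a finite group (`IsFC M`):
* `vanKampen`: `L` has dimension at most `k < i` and vanishing van Kampen obstruction (modulo two) to
  embedding in `ℝ^{2k}`;
* `embedded`: `L` has dimension at most `k < i` and is a subcomplex, full or not, of a homology sphere of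
  dimension `2 k` over the field with two elements;
* `sphere`: `L` is a full subcomplex of a folded sphere of dimension `n - 1`, or of the order complex of a
  finite graded poset of rank `n` with exact intervals, and `n < 2 i`;
* `dual`: `L` is a homology sphere of dimension `n - 1` which is in the class for the degree `n - i`;
* `codim`: `m ≤ i`, and the full subcomplexes of the links of the cliques with `m` vertices are in the class for
  all degrees `j ≥ i - m`.

If all labels are two (`IsRA M`):
* `ball`: `L` is a full subcomplex of a homology ball or sphere of dimension `n - 1`, `3 ≤ n ≤ i + 1`;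
* `remove`: `L` is a full subcomplex of a homology sphere `K` of dimension `2 k < 2 i`, the link in `K` of the
  vertex `v` of `L` is folded, and `L - v` is in the class for `i`.

For all labels:
* `glue`: `L` is the union of the full subcomplexes on `A` and on `B`, and these are in the class for the degree
  `i`, their intersection for the degree `i - 1`;
* `part`: `L` and the intersection are in the class for `i`; then the parts are;
* `prod`: `L` is the join of `A` and `B`, with labels two between them, and for all `p + q = i` the complex on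
  `A` is in the class for `p` or the complex on `B` is in the class for `q`. -/
inductive Vanishing : {V : Type} → [DecidableEq V] → [Fintype V] → CoxeterMatrix V → ℕ → Prop
  | finite {V : Type} [DecidableEq V] [Fintype V] (M : CoxeterMatrix V) (hM : Finite M.Group) (i : ℕ)
      (hi : 0 < i) : Vanishing M i
  | infinite {V : Type} [DecidableEq V] [Fintype V] (M : CoxeterMatrix V) (hM : Infinite M.Group) :
      Vanishing M 0
  | vanKampen {V : Type} [DecidableEq V] [Fintype V] (M : CoxeterMatrix V) (hM : IsFC M) (k i : ℕ)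
      (hk : k < i) (hdim : ∀ σ : Finset V, (gr M).IsClique (σ : Set V) → σ.card ≤ k + 1)
      (h : VanKampenZero (gr M) k) : Vanishing M i
  | embedded {V W : Type} [DecidableEq V] [Fintype V] [DecidableEq W] [Fintype W]
      (M : CoxeterMatrix V) (hM : IsFC M) (k i : ℕ) (hk : k < i)
      (hdim : ∀ σ : Finset V, (gr M).IsClique (σ : Set V) → σ.card ≤ k + 1) (K : Set (Finset W))
      (hK : IsF2Sphere K (2 * k + 1)) (φ : V → W) (hφ : Function.Injective φ)
      (h : ∀ σ : Finset V, (gr M).IsClique (σ : Set V) → σ.image φ ∈ K) : Vanishing M i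
  | sphere {V W : Type} [DecidableEq V] [Fintype V] [DecidableEq W] [Fintype W]
      (M : CoxeterMatrix V) (hM : IsFC M) (n i : ℕ) (K : SimpleGraph W)
      (hK : FoldedSphere K n ∨ OrderComplex K n) (e : gr M ↪g K) (hi : n < 2 * i) : Vanishing M i
  | dual {V : Type} [DecidableEq V] [Fintype V] (M : CoxeterMatrix V) (hM : IsFC M) (n i j : ℕ)
      (hL : HomologySphere (gr M) n) (hij : i + j = n) (h : Vanishing M j) : Vanishing M i
  | codim {V : Type} [DecidableEq V] [Fintype V] (M : CoxeterMatrix V) (hM : IsFC M) (m i : ℕ)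
      (hm : m ≤ i) (h : ∀ σ Z : Finset V, (gr M).IsClique (σ : Set V) → σ.card = m →
        (∀ v ∈ Z, ∀ u ∈ σ, (gr M).Adj u v) → ∀ j, i ≤ j + m → Vanishing (sub M Z) j) : Vanishing M i
  | ball {V W : Type} [DecidableEq V] [Fintype V] [DecidableEq W] [Fintype W]
      (M : CoxeterMatrix V) (hM : IsRA M) (n i : ℕ) (hn : 3 ≤ n) (K : SimpleGraph W)
      (B : Finset W → Prop) (hK : HomologyBall K n B) (e : gr M ↪g K) (hi : n ≤ i + 1) :
      Vanishing M i
  | remove {V W : Type} [DecidableEq V] [Fintype V] [DecidableEq W] [Fintype W]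
      (M : CoxeterMatrix V) (hM : IsRA M) (k i : ℕ) (hk : k < i) (K : SimpleGraph W)
      (hK : HomologySphere K (2 * k + 1)) (e : gr M ↪g K) (v : V)
      (hv : IsFolded (K.induce (K.neighborSet (e v))) (2 * k))
      (h : Vanishing (sub M (univ.erase v)) i) : Vanishing M i
  | glue {V : Type} [DecidableEq V] [Fintype V] (M : CoxeterMatrix V) (A B : Finset V) (i : ℕ)
      (hAB : A ∪ B = univ) (h0 : ∀ u ∈ A \ B, ∀ v ∈ B \ A, M u v = 0)
      (hA : Vanishing (sub M A) (i + 1)) (hB : Vanishing (sub M B) (i + 1))
      (hC : Vanishing (sub M (A ∩ B)) i) : Vanishing M (i + 1)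
  | part {V : Type} [DecidableEq V] [Fintype V] (M : CoxeterMatrix V) (A B : Finset V) (i : ℕ)
      (hAB : A ∪ B = univ) (h0 : ∀ u ∈ A \ B, ∀ v ∈ B \ A, M u v = 0)
      (hM : Vanishing M i) (hC : Vanishing (sub M (A ∩ B)) i) : Vanishing (sub M A) i
  | prod {V : Type} [DecidableEq V] [Fintype V] (M : CoxeterMatrix V) (A B : Finset V) (i : ℕ)
      (S : Set ℕ) (hAB : A ∪ B = univ) (hd : Disjoint A B) (h2 : ∀ u ∈ A, ∀ v ∈ B, M u v = 2)
      (hA : ∀ p, p ≤ i → p ∈ S → Vanishing (sub M A) p)
      (hB : ∀ p, p ≤ i → p ∉ S → Vanishing (sub M B) (i - p)) : Vanishing M i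

theorem cover {V : Type} [DecidableEq V] [Fintype V] {M : CoxeterMatrix V} {A B : Finset V}
    (hAB : A ∪ B = univ) (h0 : ∀ u ∈ A \ B, ∀ v ∈ B \ A, M u v = 0) (σ : Finset V)
    (hσ : Sph M σ) : σ ⊆ A ∨ σ ⊆ B := by
  by_contra hc
  rw [not_or] at hc
  obtain ⟨⟨u, hu, huA⟩, v, hv, hvB⟩ := hc.imp Finset.not_subset.1 Finset.not_subset.1
  have hu' : u ∈ B := by
    have := mem_univ u
    rw [← hAB, mem_union] at this
    exact this.resolve_left huA
  have hv' : v ∈ A := by
    have := mem_univ v
    rw [← hAB, mem_union] at this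
    exact this.resolve_right hvB
  have huv : v ≠ u := fun h => huA (h ▸ hv')
  exact (sph_cl M σ hσ v hv u hu huv).2
    (h0 v (mem_sdiff.2 ⟨hv', hvB⟩) u (mem_sdiff.2 ⟨hu', huA⟩))

/-- a right-angled Coxeter group is the one of its graph -/
theorem IsRA.eq {V : Type} [DecidableEq V] [Fintype V] {M : CoxeterMatrix V} (hM : IsRA M) :
    M = racg (gr M) := by
  classical
  ext u v
  show M u v = racg (gr M) u v
  rw [racg_apply]
  split_ifs with h1 h2
  · rw [h1, M.diagonal]
  · exact (hM u v h1).resolve_left h2.2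
  · by_contra h3
    exact h2 ⟨h1, h3⟩

theorem IsRA.l2 {V : Type} [DecidableEq V] [Fintype V] {M : CoxeterMatrix V} (hM : IsRA M) {i : ℕ}
    (h : Pool.Agent.H4.Singer.L2HomologyZero (gr M) i) : L2HomologyZero M i := by
  rw [hM.eq]
  exact (l2_racg (gr M) i).2 h

theorem sph_of_finite {V : Type} [DecidableEq V] [Fintype V] {M : CoxeterMatrix V}
    (hM : Finite M.Group) : Sph M univ := by
  show Finite (par M univ)
  infer_instance

/-- **The main theorem for the Davis complex.** -/
theorem Vanishing.l2 {V : Type} [iD : DecidableEq V] [iF : Fintype V] {M : CoxeterMatrix V} {i : ℕ}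
    (h : Vanishing M i) : L2HomologyZero M i := by
  induction h with
  | finite M hM i hi => exact l2_clique (sph_of_finite hM) hi
  | infinite M hM => exact l2_infinite hM
  | vanKampen M hM k i hk hdim h => exact Pool.Agent.H77.SX.fc_all M hM k hdim h i hk
  | embedded M hM k i hk hdim K hK φ hφ h =>
    exact Pool.Agent.H77.SX.fc_all M hM k hdim (vanKampenZero_of_sphere (gr M) hK φ hφ h) i hk
  | sphere M hM n i K hK e hi =>
    have hadj : ∀ u v, (gr M).Adj u v ↔ K.Adj (e u) (e v) := fun u v => e.map_adj_iff.symm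
    rcases hK with hK | ⟨hW, rk, hrk, hR, hH⟩
    · exact mainP M hM n K hK.isFoldSphere e e.injective hadj i (Or.inl hi)
    · exact lab_ranked M hM rk hrk n hR e e.injective
        (fun u v => (hadj u v).trans (hH (e u) (e v))) i (Or.inl hi)
  | dual M hM n i j hL hij _ h => exact pd hM hL.is hij h
  | codim M hM m i hm _ h =>
    refine vanS_univ.1 (codimY (fun Y i hi hY => ?_) m i hm univ ?_)
    · refine vanS_of_sub (l2_clique (sph_sub (hM Y fun u hu v hv huv => ⟨huv, hY u hu v hv⟩)) hi)
    · intro σ _ hσm hσ Z _ hZ j hj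
      refine vanS_of_sub (h σ Z ?_ hσm ?_ j hj)
      · exact fun u hu v hv huv => ⟨huv, hσ u hu v hv⟩
      · exact fun v hv u hu => ⟨fun h => (hZ v hv).1 (h ▸ hu), (hZ v hv).2 u hu⟩
  | ball M hM n i hn K B hK e hi =>
    exact hM.l2 (l2_linksGood (linksGood_of_ball hn hK e) (Or.inl (by omega)))
  | remove M hM k i hk K hK e v hv _ h =>
    have h1 := vanS_of_sub h
    rw [hM.eq] at h1
    exact hM.l2 (l2_remove (gr M) K k hK e v hv i hk h1)
  | glue M A B i hAB h0 _ _ _ hA hB hC =>
    exact am (cover hAB h0) (vanS_of_sub hA) (vanS_of_sub hB) (vanS_of_sub hC)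
  | part M A B i hAB h0 _ _ hM hC =>
    exact sub_of_vanS (am' (cover hAB h0) hM (vanS_of_sub hC))
  | prod M A B i S hAB hd h2 _ _ hA hB =>
    refine Pool.Agent.H73.LK.prod hd hAB h2 i fun p q hpq => ?_
    by_cases hp : p ∈ S
    · exact Or.inl (vanS_of_sub (hA p (by omega) hp))
    · have hq : i - p = q := by omega
      exact Or.inr (hq ▸ vanS_of_sub (hB p (by omega) hp))

/-- **The main theorem for CAT(0) cube complexes.** -/
theorem transfer_cat0 {V X Γ : Type} [DecidableEq V] [Countable V] [Group Γ] [MulAction Γ V]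
    [MulAction Γ X] {C : CubeComplex V X} (hC : IsCAT0 C) (hΓ : IsGeom Γ C) {i : ℕ}
    (h : ∀ x, L2HomologyZero (racg (lk C x)) i) : L2Zero C i :=
  local_global_cat0 hC hΓ i fun x => (l2_racg _ i).1 (h x)

end Pool.Agent.H73.LK
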