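import Pool.Agent.Results.MP_ea75ba_gt.SingerLinks

/-!
# SingerLinks contains SingerLocal, SingerBalanced
-/

set_option autoImplicit false

namespace Pool.Agent.H73.LK.Check

open Pool.Agent.H19.Cub Pool.Agent.H19.LI Pool.Agent.H19.VX Pool.Agent.H19.BL Pool.Agent.H85.Fold4
open Pool.Agent.H85.VK Pool.Agent.H4.FC Pool.Agent.H4.FD
open Pool.Agent.H4.Singer (racg)

open Pool.Agent.Results.MP_ea75ba_gt.SingerLinks (result)

theorem isRA_racg {V : Type} [DecidableEq V] [Fintype V] (G : SimpleGraph V) : IsRA (racg G) := by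
  classical
  intro u v huv
  rw [racg_apply, if_neg huv]
  split_ifs
  · exact Or.inr rfl
  · exact Or.inl rfl

theorem isRA_sub {V : Type} {M : CoxeterMatrix V} (h : IsRA M) (Y : Finset V) : IsRA (sub M Y) :=
  fun u v huv => h u.1 v.1 fun e => huv (Subtype.ext e)

theorem gr_sub {V : Type} (M : CoxeterMatrix V) (Y : Finset V) (u v : {v // v ∈ Y}) :
    (gr (sub M Y)).Adj u v ↔ (gr M).Adj u.1 v.1 := by
  show (u ≠ v ∧ M u.1 v.1 ≠ 0) ↔ (u.1 ≠ v.1 ∧ M u.1 v.1 ≠ 0)
  rw [ne_eq, ne_eq, Subtype.ext_iff]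

/-- the class `Folding` consists of folded graphs; so circles are folded -/
theorem of_folding {W : Type} [Fintype W] {G : SimpleGraph W} {n : ℕ} (h : Folding G n) :
    IsFolded G n := by
  obtain ⟨m, p, a, h1, h2, h3⟩ := h.hasFold
  exact ⟨m, p, a, fun v => h1 v (Finset.mem_univ v),
    fun u v => h2 u (Finset.mem_univ u) v (Finset.mem_univ v),
    fun u v => h3 u (Finset.mem_univ u) v (Finset.mem_univ v)⟩

/-- full subcomplexes of homology spheres of dimension `2 k` with folded vertex links -/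
theorem van_odd {W : Type} [DecidableEq W] [Fintype W] {K : SimpleGraph W} {k i : ℕ}
    (hK : HomologySphere K (2 * k + 1))
    (hf : ∀ v, IsFolded (K.induce (K.neighborSet v)) (2 * k)) (hi : k < i) :
    ∀ (n : ℕ) (V : Type) [DecidableEq V] [Fintype V] (M : CoxeterMatrix V), Fintype.card V = n →
      IsRA M → (gr M ↪g K) → Vanishing M i := by
  intro n
  induction n with
  | zero =>
    intro V _ _ M hn _ _
    have : IsEmpty V := Fintype.card_eq_zero_iff.1 hn
    refine Vanishing.finite M ?_ i (by omega)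
    have h1 : Subsingleton M.Group := by
      refine ⟨fun a b => ?_⟩
      have key : ∀ g : M.Group, g = 1 := by
        intro g
        exact M.toCoxeterSystem.simple_induction_left (p := fun g => g = 1) g rfl
          fun w v => isEmptyElim v
      rw [key a, key b]
    infer_instance
  | succ n ih =>
    intro V _ _ M hn hM e
    obtain ⟨v⟩ : Nonempty V := Fintype.card_pos_iff.1 (by omega)
    refine Vanishing.remove M hM k i hi K hK e v (hf (e v)) ?_
    refine ih {w // w ∈ Finset.univ.erase v} (sub M (Finset.univ.erase v)) ?_ (isRA_sub hM _) ?_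
    · rw [Fintype.card_coe, Finset.card_erase_of_mem (Finset.mem_univ v), Finset.card_univ, hn]
      rfl
    · exact ⟨⟨fun x => e x.1, fun x y hxy => Subtype.ext (e.injective hxy)⟩, fun {x y} => by
        rw [gr_sub]
        exact e.map_adj_iff⟩

/-- full subcomplexes of good complexes -/
theorem van_good {V W : Type} [DecidableEq V] [Fintype V] [DecidableEq W] [Fintype W]
    {M : CoxeterMatrix V} (hM : IsRA M) {r i : ℕ} {K : SimpleGraph W} (hK : IsGood K r)
    (e : gr M ↪g K) (hi : r < 2 * i) : Vanishing M i := by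
  have hFC : IsFC M := by
    have h1 := isFC_racg (gr M)
    rwa [← hM.eq] at h1
  rcases hK with ⟨⟨k, rfl⟩, hS, hf⟩ | hK | hK | ⟨B, hB, ⟨f⟩⟩
  · refine van_odd hS (fun v => ?_) (by omega) _ V M rfl hM e
    rcases hf with h3 | hf
    · obtain rfl : k = 1 := by omega
      have : Fintype (K.neighborSet v) := Fintype.ofFinite _
      exact of_folding ((Pool.Agent.H67.LF.SL.one hS).link v)
    · exact hf v
  · exact Vanishing.sphere M hFC r i K (Or.inl hK) e hi
  · exact Vanishing.sphere M hFC r i K (Or.inr hK) e hi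
  · classical
    obtain ⟨W', H', hW', hH', ⟨e'⟩⟩ := hB.subArr
    have : Fintype W' := Fintype.ofFinite W'
    rw [Fintype.card_fin, Nat.add_sub_cancel] at hH'
    exact Vanishing.sphere M hFC r i H' (Or.inl (Or.inl hH'))
      (e.trans (f.toEmbedding.trans e'.toEmbedding)) hi

/-- complexes whose links in codimension `m` are full subcomplexes of good complexes -/
theorem van_linksGood {V : Type} [DecidableEq V] [Fintype V] {L : SimpleGraph V} {m r i : ℕ}
    (h : LinksGood L m r) (hi : 2 * m + r < 2 * i) : Vanishing (racg L) i := by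
  refine Vanishing.codim _ (isFC_racg L) m i (by omega) fun σ Z hσ hm hZ j hj => ?_
  rw [gr_racg] at hσ hZ
  obtain ⟨W, i1, i2, K, hK, ⟨e⟩⟩ := h σ hσ hm
  refine van_good (isRA_sub (isRA_racg L) Z) hK ?_ (r := r) (i := j) (by omega)
  let e' : gr (sub (racg L) Z) ↪g L.induce (cn L σ) :=
    ⟨⟨fun x => ⟨x.1, fun v hv => hZ x.1 x.2 v hv⟩, fun x y hxy => by
      have h1 := congrArg Subtype.val hxy
      exact Subtype.ext h1⟩, fun {x y} => by
      rw [gr_sub, gr_racg]
      exact Iff.rfl⟩
  exact e'.trans e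

/-- duality for labels two -/
theorem van_dual {V : Type} [DecidableEq V] [Fintype V] {L : SimpleGraph V} {n i j : ℕ}
    (hL : HomologySphere L n) (hij : i + j = n) (h : Vanishing (racg L) j) : Vanishing (racg L) i :=
  Vanishing.dual _ (isFC_racg L) n i j (by rwa [gr_racg]) hij h

/-- **SingerLocal** -/
theorem singerLocal {V X Γ : Type} [DecidableEq V] [Countable V] [Group Γ] [MulAction Γ V]
    [MulAction Γ X] (C : CubeComplex V X) (hC : IsCAT0 C) (hΓ : IsGeom Γ C) (i : ℕ) :
    (∀ n, 3 ≤ n → (∀ x, ∃ (W : Type) (_ : DecidableEq W) (_ : Fintype W) (K : SimpleGraph W)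
        (B : Finset W → Prop), HomologyBall K n B ∧ Nonempty (lk C x ↪g K)) →
      (n ≤ i + 1 ∨ ((∀ x, HomologySphere (lk C x) n) ∧ i ≤ 1)) → L2Zero C i) ∧
    ((∀ x, ∃ m r, LinksGood (lk C x) m r ∧
      (2 * m + r < 2 * i ∨ (HomologySphere (lk C x) (m + r) ∧ 2 * i < r))) → L2Zero C i) ∧
    ((∀ x, Pool.Agent.H4.Singer.L2HomologyZero (lk C x) i) → L2Zero C i) := by
  have key : (∀ x, Vanishing (racg (lk C x)) i) → L2Zero C i := fun h =>
    (result i).2 V X Γ C hC hΓ fun x => Or.inl (h x)
  refine ⟨fun n hn h hi => key fun x => ?_, fun h => key fun x => ?_, fun h =>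
    (result i).2 V X Γ C hC hΓ fun x => Or.inr ((l2_racg _ i).2 (h x))⟩
  · obtain ⟨W, _, _, K, B, hK, ⟨e⟩⟩ := h x
    rcases hi with hi | ⟨hS, hi⟩
    · refine Vanishing.ball _ (isRA_racg _) n i hn K B hK ?_ hi
      rw [gr_racg]
      exact e
    · refine van_dual (j := n - i) (hS x) (by omega) ?_
      refine Vanishing.ball _ (isRA_racg _) n (n - i) hn K B hK ?_ (by omega)
      rw [gr_racg]
      exact e
  · obtain ⟨m, r, h1, hi | ⟨hS, hi⟩⟩ := h x
    · exact van_linksGood h1 hi
    · exact van_dual (j := m + r - i) hS (by omega) (van_linksGood h1 (by omega))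

/-- **SingerBalanced** (the first two parts; the third one is the rule `embedded`) -/
theorem singerBalanced (k : ℕ) :
    (∀ (V X Γ : Type) [DecidableEq V] [Countable V] [Group Γ] [MulAction Γ V] [MulAction Γ X]
      (C : CubeComplex V X), IsCAT0 C → IsGeom Γ C →
      (∀ x, ∀ σ : Finset {v // v ∈ C.lab x}, (lk C x).IsClique (σ : Set {v // v ∈ C.lab x}) →
        σ.card ≤ k + 1) →
      (∀ x, VanKampenZero (lk C x) k) → ∀ i : ℕ, k < i → L2Zero C i) ∧
    (∀ (V : Type) [DecidableEq V] [Fintype V] (M : CoxeterMatrix V), Pool.Agent.H4.FD.IsFC M →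
      (∀ σ : Finset V, (Pool.Agent.H4.FC.gr M).IsClique (σ : Set V) → σ.card ≤ k + 1) →
      VanKampenZero (Pool.Agent.H4.FC.gr M) k →
      ∀ i : ℕ, k < i → Pool.Agent.H4.FC.L2HomologyZero M i) := by
  constructor
  · intro V X Γ _ _ _ _ _ C hC hΓ hd h i hi
    refine (result i).2 V X Γ C hC hΓ fun x => Or.inl ?_
    refine Vanishing.vanKampen _ (isFC_racg _) k i hi ?_ ?_
    · rw [gr_racg]
      exact hd x
    · rw [gr_racg]
      exact h x
  · intro V _ _ M hM hd h i hi
    exact (result i).1 _ _ (Vanishing.vanKampen M hM k i hi hd h)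

end Pool.Agent.H73.LK.Check
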