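import Pool.Agent.H78.RA.Mop

/-!
# A density lemma for equivariant operators

If the image of `T` is contained in the closure of the image of `S` (equivariant operators between
`ℓ²(κ × G)`, `κ` finite), then the vectors `x` for which `T x` is in the image of `S` are dense.
-/

set_option autoImplicit false
set_option linter.unusedSectionVars false

namespace Pool.Agent.H73.LK

open Filter Topology
open Pool.Agent.H4.Atiyah Pool.Agent.H78.RA
open scoped ComplexConjugate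

variable {κ₁ κ₂ κ₀ G : Type} [Group G] [DecidableEq κ₁] [DecidableEq κ₂] [DecidableEq κ₀]
  [Fintype κ₁] [Fintype κ₂] [Fintype κ₀] [DecidableEq G]

/-- the first component -/
noncomputable def fs : LL (κ₁ ⊕ κ₂) G →L[ℂ] LL κ₁ G :=
  Mop fun j i => if j = Sum.inl i then 1 else 0

/-- the second component -/
noncomputable def sn : LL (κ₁ ⊕ κ₂) G →L[ℂ] LL κ₂ G :=
  Mop fun j i => if j = Sum.inr i then 1 else 0

theorem fs_apply (z : LL (κ₁ ⊕ κ₂) G) (p : κ₁ × G) : fs z p = z (Sum.inl p.1, p.2) := by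
  have h : pr p.1 (fs z) = pr (Sum.inl p.1 : κ₁ ⊕ κ₂) z := by
    unfold fs
    rw [pr_Mop, Finset.sum_eq_single (Sum.inl p.1 : κ₁ ⊕ κ₂)]
    · rw [if_pos rfl]; rfl
    · intro b _ hb
      rw [if_neg hb]; rfl
    · intro h
      exact absurd (Finset.mem_univ _) h
  have h2 := congrArg (fun x : LL Unit G => x ((), p.2)) h
  simp only [pr_apply] at h2
  exact h2

theorem sn_apply (z : LL (κ₁ ⊕ κ₂) G) (p : κ₂ × G) : sn z p = z (Sum.inr p.1, p.2) := by
  have h : pr p.1 (sn z) = pr (Sum.inr p.1 : κ₁ ⊕ κ₂) z := by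
    unfold sn
    rw [pr_Mop, Finset.sum_eq_single (Sum.inr p.1 : κ₁ ⊕ κ₂)]
    · rw [if_pos rfl]; rfl
    · intro b _ hb
      rw [if_neg hb]; rfl
    · intro h
      exact absurd (Finset.mem_univ _) h
  have h2 := congrArg (fun x : LL Unit G => x ((), p.2)) h
  simp only [pr_apply] at h2
  exact h2

theorem eqv_fs : Eqv (fs : LL (κ₁ ⊕ κ₂) G →L[ℂ] LL κ₁ G) := by
  intro g x
  ext p
  rw [fs_apply, Tr_apply, Tr_apply, fs_apply]

theorem eqv_sn : Eqv (sn : LL (κ₁ ⊕ κ₂) G →L[ℂ] LL κ₂ G) := by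
  intro g x
  ext p
  rw [sn_apply, Tr_apply, Tr_apply, sn_apply]

theorem norm_fs (z : LL (κ₁ ⊕ κ₂) G) : ‖fs z‖ ≤ ‖z‖ := by
  apply le_of_sq_le_sq _ (norm_nonneg _)
  rw [norm_sq_lp, norm_sq_lp]
  have hz : Summable fun p => ‖z p‖ ^ 2 := (memlp_iff _).1 (lp.memℓp z)
  have hinj : Function.Injective fun p : κ₁ × G => ((Sum.inl p.1, p.2) : (κ₁ ⊕ κ₂) × G) := by
    rintro ⟨a, b⟩ ⟨c, d⟩ h
    simpa using h
  refine le_trans (le_of_eq ?_) (tsum_comp_le_tsum_of_inj hz (fun p => sq_nonneg _) hinj)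
  exact tsum_congr fun p => by rw [fs_apply]; rfl

theorem norm_sn (z : LL (κ₁ ⊕ κ₂) G) : ‖sn z‖ ≤ ‖z‖ := by
  apply le_of_sq_le_sq _ (norm_nonneg _)
  rw [norm_sq_lp, norm_sq_lp]
  have hz : Summable fun p => ‖z p‖ ^ 2 := (memlp_iff _).1 (lp.memℓp z)
  have hinj : Function.Injective fun p : κ₂ × G => ((Sum.inr p.1, p.2) : (κ₁ ⊕ κ₂) × G) := by
    rintro ⟨a, b⟩ ⟨c, d⟩ h
    simpa using h
  refine le_trans (le_of_eq ?_) (tsum_comp_le_tsum_of_inj hz (fun p => sq_nonneg _) hinj)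
  exact tsum_congr fun p => by rw [sn_apply]; rfl

/-- comparison of one projected basis vector -/
theorem proj_le {κ ν : Type} [DecidableEq κ] [DecidableEq ν] [Fintype κ] [Fintype ν]
    (K : Submodule ℂ (LL κ G)) [K.HasOrthogonalProjection]
    (K' : Submodule ℂ (LL ν G)) [K'.HasOrthogonalProjection] (A : LL κ G →L[ℂ] LL ν G)
    (hA : ∀ x, ‖A x‖ ≤ ‖x‖) (hK : ∀ x ∈ K, A x ∈ K') (j : κ) (i : ν)
    (hji : ∀ x : LL κ G, A x (i, 1) = x (j, 1)) :
    ‖K.starProjection (dl j 1 : LL κ G)‖ ^ 2 ≤ ‖K'.starProjection (dl i 1 : LL ν G)‖ ^ 2 := by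
  set u : LL κ G := K.starProjection (dl j 1) with hu
  have huK : u ∈ K := Submodule.starProjection_apply_mem _ _
  have h1 : inner ℂ (dl j 1 : LL κ G) u = ((‖u‖ ^ 2 : ℝ) : ℂ) := by
    have h2 : inner ℂ (dl j 1 - u) u = (0 : ℂ) := by
      have := Submodule.starProjection_inner_eq_zero (K := K) (dl j 1 : LL κ G) u huK
      rwa [← hu] at this
    rw [inner_sub_left, sub_eq_zero] at h2
    rw [h2, inner_self_eq_norm_sq_to_K]
    push_cast
    rfl
  have h3 : inner ℂ (dl j 1 : LL κ G) u = inner ℂ (dl i 1 : LL ν G) (A u) := by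
    rw [inner_dl, inner_dl, hji]
  have h4 : inner ℂ (dl i 1 : LL ν G) (A u) = inner ℂ (K'.starProjection (dl i 1 : LL ν G)) (A u) := by
    have h5 := Submodule.starProjection_inner_eq_zero (K := K') (dl i 1 : LL ν G) (A u) (hK u huK)
    rw [inner_sub_left, sub_eq_zero] at h5
    exact h5
  have h6 : ‖u‖ ^ 2 ≤ ‖K'.starProjection (dl i 1 : LL ν G)‖ * ‖u‖ := by
    have h7 : ((‖u‖ ^ 2 : ℝ) : ℂ) = inner ℂ (K'.starProjection (dl i 1 : LL ν G)) (A u) := by
      rw [← h1, h3, h4]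
    have h8 := norm_inner_le_norm (𝕜 := ℂ) (K'.starProjection (dl i 1 : LL ν G)) (A u)
    rw [← h7, Complex.norm_real, Real.norm_of_nonneg (sq_nonneg _)] at h8
    exact h8.trans (mul_le_mul_of_nonneg_left (hA u) (norm_nonneg _))
  rcases eq_or_ne ‖u‖ 0 with h0 | h0
  · rw [h0, sq, zero_mul]
    exact sq_nonneg _
  · have hpos : 0 < ‖u‖ := lt_of_le_of_ne (norm_nonneg _) (Ne.symm h0)
    have h9 : ‖u‖ ≤ ‖K'.starProjection (dl i 1 : LL ν G)‖ := by
      rw [sq] at h6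
      exact le_of_mul_le_mul_right h6 hpos
    gcongr

/-- the dimension of a closed subspace of a direct sum -/
theorem gdim_sum_le (K : Submodule ℂ (LL (κ₁ ⊕ κ₂) G)) [K.HasOrthogonalProjection]
    (K₁ : Submodule ℂ (LL κ₁ G)) [K₁.HasOrthogonalProjection]
    (K₂ : Submodule ℂ (LL κ₂ G)) [K₂.HasOrthogonalProjection]
    (h1 : ∀ x ∈ K, fs x ∈ K₁) (h2 : ∀ x ∈ K, sn x ∈ K₂) : gdim K ≤ gdim K₁ + gdim K₂ := by
  unfold gdim
  rw [Fintype.sum_sum_type]
  apply add_le_add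
  · exact Finset.sum_le_sum fun i _ => proj_le K K₁ fs norm_fs h1 (Sum.inl i) i
      fun x => fs_apply x (i, 1)
  · exact Finset.sum_le_sum fun i _ => proj_le K K₂ sn norm_sn h2 (Sum.inr i) i
      fun x => sn_apply x (i, 1)

theorem gdim_bot : gdim (⊥ : Submodule ℂ (LL κ₁ G)) = 0 := by
  unfold gdim
  apply Finset.sum_eq_zero
  intro j _
  rw [Submodule.starProjection_bot]
  simp

theorem gdim_nonneg (K : Submodule ℂ (LL κ₁ G)) [K.HasOrthogonalProjection] : 0 ≤ gdim K :=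
  Finset.sum_nonneg fun _ _ => sq_nonneg _

/-- An invariant subspace on which `T` is injective modulo the image of `S` is zero, if the image of
`T` is in the closure of the image of `S`. -/
theorem eq_bot (T : LL κ₁ G →L[ℂ] LL κ₀ G) (S : LL κ₂ G →L[ℂ] LL κ₀ G) (hT : Eqv T) (hS : Eqv S)
    (h : ∀ x, T x ∈ closure (Set.range S)) (Q : Submodule ℂ (LL κ₁ G))
    [Q.HasOrthogonalProjection] (hQ : H78.RA.Inv Q) (hinj : ∀ x ∈ Q, ∀ y, T x = S y → x = 0) : Q = ⊥ := by
  set F : LL (κ₁ ⊕ κ₂) G →L[ℂ] LL κ₀ G := (T ∘L Q.starProjection) ∘L fs - S ∘L sn with hF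
  have eF : Eqv F := ((hT.comp (eqv_proj hQ)).comp eqv_fs).sub (hS.comp eqv_sn)
  have hFz : ∀ z, F z = T (Q.starProjection (fs z)) - S (sn z) := fun _ => rfl
  have b1 := gdim_kr F eF
  have b2 := gdim_kr S hS
  -- the kernels of the adjoints
  have m1 : kr (ContinuousLinearMap.adjoint S) ≤ kr (ContinuousLinearMap.adjoint F) := by
    intro y hy
    rw [mem_kr] at hy ⊢
    have horth : ∀ w ∈ closure (Set.range S), inner ℂ y w = (0 : ℂ) := by
      intro w hw
      have hcl : IsClosed {w : LL κ₀ G | inner ℂ y w = (0 : ℂ)} :=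
        isClosed_eq (by fun_prop) continuous_const
      refine hcl.closure_subset_iff.2 ?_ hw
      rintro _ ⟨v, rfl⟩
      show inner ℂ y (S v) = (0 : ℂ)
      rw [← ContinuousLinearMap.adjoint_inner_left, hy, inner_zero_left]
    apply ext_inner_right ℂ
    intro z
    rw [ContinuousLinearMap.adjoint_inner_left, inner_zero_left, hFz, inner_sub_right,
      horth _ (h _), horth _ (subset_closure ⟨_, rfl⟩), sub_zero]
  have m2 := gdim_mono m1
  -- the kernel of `F`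
  have m3 : gdim (kr F) ≤ gdim Qᗮ + gdim (kr S) := by
    apply gdim_sum_le
    · intro z hz
      rw [mem_kr, hFz, sub_eq_zero] at hz
      have := hinj _ (Submodule.starProjection_apply_mem _ _) _ hz
      exact (Submodule.starProjection_apply_eq_zero_iff Q).1 this
    · intro z hz
      rw [mem_kr, hFz, sub_eq_zero] at hz
      have h1 := hinj _ (Submodule.starProjection_apply_mem _ _) _ hz
      rw [h1, map_zero] at hz
      rw [mem_kr, ← hz]
  have m4 := gdim_orth Q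
  rw [Fintype.card_sum] at b1
  push_cast at b1
  have m5 : gdim Q ≤ gdim (⊥ : Submodule ℂ (LL κ₁ G)) := by
    rw [gdim_bot]
    linarith
  have hInv : H78.RA.Inv (⊥ : Submodule ℂ (LL κ₁ G)) := by
    intro g x hx
    rw [Submodule.mem_bot] at hx ⊢
    rw [hx, map_zero]
  exact le_bot_iff.1 (gdim_faithful hInv hQ bot_le m5)

/-- **Density.** -/
theorem dense (T : LL κ₁ G →L[ℂ] LL κ₀ G) (S : LL κ₂ G →L[ℂ] LL κ₀ G) (hT : Eqv T) (hS : Eqv S)
    (h : ∀ x, T x ∈ closure (Set.range S)) (x : LL κ₁ G) (ε : ℝ) (hε : 0 < ε) :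
    ∃ x' y, ‖x - x'‖ < ε ∧ T x' = S y := by
  let M : Submodule ℂ (LL κ₁ G) :=
    { carrier := {x | ∃ y, T x = S y}
      add_mem' := by
        rintro a b ⟨y, hy⟩ ⟨y', hy'⟩
        exact ⟨y + y', by rw [map_add, map_add, hy, hy']⟩
      zero_mem' := ⟨0, by rw [map_zero, map_zero]⟩
      smul_mem' := by
        rintro c a ⟨y, hy⟩
        exact ⟨c • y, by rw [map_smul, map_smul, hy]⟩ }
  have hM : H78.RA.Inv M := by
    rintro g a ⟨y, hy⟩
    exact ⟨Tr g y, by rw [hT, hS, hy]⟩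
  have hQ : Mᗮ = ⊥ := by
    refine eq_bot T S hT hS h Mᗮ hM.orth ?_
    intro a ha y hy
    have h1 : a ∈ M := ⟨y, hy⟩
    have := (Submodule.mem_orthogonal M a).1 ha a h1
    exact inner_self_eq_zero.1 this
  have h2 : x ∈ Mᗮᗮ := by
    rw [hQ, Submodule.bot_orthogonal_eq_top]
    trivial
  rw [Submodule.orthogonal_orthogonal_eq_closure] at h2
  obtain ⟨x', ⟨y, hy⟩, hx'⟩ := Metric.mem_closure_iff.1 h2 ε hε
  exact ⟨x', y, by rwa [dist_eq_norm] at hx', hy⟩

/-- **Density**, for invariant closed subspaces. -/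
theorem dense_on (T : LL κ₁ G →L[ℂ] LL κ₀ G) (S : LL κ₂ G →L[ℂ] LL κ₀ G) (hT : Eqv T)
    (hS : Eqv S) (H : Submodule ℂ (LL κ₁ G)) [H.HasOrthogonalProjection] (hH : H78.RA.Inv H)
    (C : Submodule ℂ (LL κ₂ G)) [C.HasOrthogonalProjection] (hC : H78.RA.Inv C)
    (h : ∀ x ∈ H, ∀ ε : ℝ, 0 < ε → ∃ y ∈ C, ‖T x - S y‖ < ε) (x : LL κ₁ G) (hx : x ∈ H)
    (ε : ℝ) (hε : 0 < ε) : ∃ x' ∈ H, ∃ y ∈ C, ‖x - x'‖ < ε ∧ T x' = S y := by
  obtain ⟨x', y, h1, h2⟩ := dense (T ∘L H.starProjection) (S ∘L C.starProjection)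
    (hT.comp (eqv_proj hH)) (hS.comp (eqv_proj hC)) (by
      intro a
      rw [Metric.mem_closure_iff]
      intro δ hδ
      obtain ⟨y, hy, hy2⟩ := h _ (Submodule.starProjection_apply_mem H a) δ hδ
      refine ⟨S y, ⟨y, ?_⟩, by rw [dist_eq_norm]; exact hy2⟩
      show S (C.starProjection y) = S y
      rw [Submodule.starProjection_eq_self_iff.2 hy]) x ε hε
  refine ⟨H.starProjection x', Submodule.starProjection_apply_mem _ _, C.starProjection y,
    Submodule.starProjection_apply_mem _ _, ?_, h2⟩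
  have h3 : x - H.starProjection x' = H.starProjection (x - x') := by
    rw [map_sub, Submodule.starProjection_eq_self_iff.2 hx]
  rw [h3]
  exact (Submodule.norm_starProjection_apply_le _ _).trans_lt h1

end Pool.Agent.H73.LK
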