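import Pool.Agent.H73.LK.Defs

/-!
# The top degree: full subcomplexes
-/

set_option autoImplicit false
set_option linter.unusedSectionVars false

open Finset

namespace Pool.Agent.H73.LK

open Pool.Agent.H4.FC

variable {V : Type} [Fintype V] [DecidableEq V] {M : CoxeterMatrix V}

/-- In the top degree the vanishing passes to full subcomplexes. -/
theorem vanS_top {i : ℕ} (hdim : ∀ σ, Sph M σ → σ.card ≤ i) (h : L2HomologyZero M i)
    (Y : Finset V) : VanS M Y i := by
  intro ν hν z hz _ hd ε hε
  have hy0 : ∀ y : Finset V → M.Group → ℂ, IsL2Chain M (i + 1) y → y = 0 := by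
    intro y hy
    funext σ w
    by_contra hc
    obtain ⟨h1, h2⟩ := hy.supp σ w hc
    have := hdim σ h1
    omega
  obtain ⟨y, hy, hlt⟩ := h ν hν z hz hd ε hε
  refine ⟨y, hy, fun σ hσ => absurd (by rw [hy0 y hy]; rfl) hσ, hlt⟩

end Pool.Agent.H73.LK
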